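import Mathlib

/-!
Asymptotics.
-/

namespace Pool.Agent.MP42

open Filter

lemma eval_bound (f : MvPolynomial (Fin 3) ℝ) {v : Fin 3 → ℝ} {M : ℝ} (hM : 1 ≤ M)
    (hv : ∀ i, |v i| ≤ M) :
    MvPolynomial.eval v f ≤ (∑ d ∈ f.support, |f.coeff d|) * M ^ f.totalDegree := by
  rw [MvPolynomial.eval_eq', Finset.sum_mul]
  apply Finset.sum_le_sum
  intro d hd
  calc f.coeff d * ∏ i, v i ^ d i ≤ |f.coeff d * ∏ i, v i ^ d i| := le_abs_self _
    _ = |f.coeff d| * ∏ i, |v i| ^ d i := by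
        rw [abs_mul, Finset.abs_prod]
        simp only [abs_pow]
    _ ≤ |f.coeff d| * M ^ f.totalDegree := by
        apply mul_le_mul_of_nonneg_left _ (abs_nonneg _)
        calc ∏ i, |v i| ^ d i ≤ ∏ i, M ^ d i :=
              Finset.prod_le_prod (fun i _ => by positivity)
                (fun i _ => pow_le_pow_left₀ (abs_nonneg _) (hv i) _)
          _ = M ^ (∑ i, d i) := Finset.prod_pow_eq_pow_sum _ _ _
          _ ≤ M ^ f.totalDegree := by
              apply pow_le_pow_right₀ hM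
              have := MvPolynomial.le_totalDegree hd
              rwa [Finsupp.sum_fintype _ _ (fun _ => rfl)] at this

lemma exp_wins (S : ℝ) (k : ℕ) :
    ∀ᶠ p : ℕ in atTop, S * ((p:ℝ) + 1) ^ k < 2 ^ p - 1 := by
  have h := tendsto_pow_const_div_const_pow_of_one_lt k (r := 2) one_lt_two
  have h2 : Tendsto (fun p : ℕ => S * (((p + 1 : ℕ) : ℝ) ^ k / 2 ^ (p + 1))) atTop (nhds (S * 0)) :=
    ((tendsto_add_atTop_iff_nat 1).mpr h).const_mul S
  rw [mul_zero] at h2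
  have h3 := (h2.eventually (gt_mem_nhds (by norm_num : (0:ℝ) < 1 / 4)))
  filter_upwards [h3, eventually_ge_atTop 1] with p hp hp1
  have e : S * (((p + 1 : ℕ) : ℝ) ^ k / 2 ^ (p + 1)) = S * ((p:ℝ) + 1) ^ k / 2 ^ (p + 1) := by
    push_cast; ring
  rw [e, div_lt_iff₀ (by positivity)] at hp
  have h4 : (2:ℝ) ≤ 2 ^ p := by
    calc (2:ℝ) = 2 ^ 1 := by norm_num
      _ ≤ 2 ^ p := pow_le_pow_right₀ (by norm_num) hp1
  rw [pow_succ] at hp
  linarith

/-- The numerical comparison of the two probability bounds. -/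
lemma prob_compare {p : ℕ} (hp : 8 ≤ p) {al : ℝ}
    (hbig : 2 ^ 85 * (6 * |al| + 64512 + 1) ≤ ((p:ℝ) + 1) ^ 4) :
    al * ((((p + p + 3) * (p + 1) + (p + 1) : ℕ) : ℝ) *
      (2 * Real.exp (-(1 / (2 ^ 42 * ((p:ℝ) + 1) ^ 8)) ^ 2 / (2 * (1 / ((p:ℝ) + 1) ^ 12) ^ 2))))
      < (1 / (2 ^ 20 * ((p:ℝ) + 1) ^ 5 * ((512 * p) ^ (p + 2)) ^ 20) / (3 * (1 / ((p:ℝ) + 1) ^ 12)))
        ^ ((p + p + 3) * (p + 1) + (p + 1)) := by
  have hp' : (8:ℝ) ≤ p := by exact_mod_cast hp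
  set n : ℝ := (p:ℝ) + 1 with hn
  have hn9 : 9 ≤ n := by rw [hn]; linarith
  set N : ℕ := (p + p + 3) * (p + 1) + (p + 1) with hN
  have hNn : (N:ℝ) ≤ 3 * n ^ 2 := by
    rw [hN, hn]; push_cast; nlinarith
  set H : ℝ := (512 * (p:ℝ)) ^ (p + 2) with hH
  have hH1 : 3 * 2 ^ 20 ≤ H := by
    calc (3 * 2 ^ 20 : ℝ) ≤ (512 * 8) ^ 2 := by norm_num
      _ ≤ (512 * (p:ℝ)) ^ 2 := pow_le_pow_left₀ (by norm_num) (by linarith) _
      _ ≤ H := pow_le_pow_right₀ (by linarith) (by omega)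
  have hH0 : 0 < H := by linarith
  -- upper bound for `H`
  have hHexp : H ≤ Real.exp (1024 * n ^ 2) := by
    have h1 : 512 * (p:ℝ) ≤ Real.exp (512 * p) := by
      have := Real.add_one_le_exp (512 * (p:ℝ))
      linarith
    calc H ≤ Real.exp (512 * p) ^ (p + 2) := pow_le_pow_left₀ (by linarith) h1 _
      _ = Real.exp (((p + 2 : ℕ) : ℝ) * (512 * p)) := (Real.exp_nat_mul _ _).symm
      _ ≤ Real.exp (1024 * n ^ 2) := by
          apply Real.exp_le_exp.mpr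
          push_cast
          rw [hn]
          nlinarith
  -- lower bound for the base
  have hbase : 1 / H ^ 21 ≤ 1 / (2 ^ 20 * n ^ 5 * H ^ 20) / (3 * (1 / n ^ 12)) := by
    have e : 1 / (2 ^ 20 * n ^ 5 * H ^ 20) / (3 * (1 / n ^ 12))
        = n ^ 7 / (3 * 2 ^ 20 * H ^ 20) := by
      field_simp
    rw [e, div_le_div_iff₀ (by positivity) (by positivity)]
    have h1 : (1:ℝ) ≤ n ^ 7 := one_le_pow₀ (by linarith)
    calc 1 * (3 * 2 ^ 20 * H ^ 20) ≤ 1 * (H * H ^ 20) := by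
          apply mul_le_mul_of_nonneg_left _ zero_le_one
          exact mul_le_mul_of_nonneg_right hH1 (by positivity)
      _ = 1 * H ^ 21 := by ring
      _ ≤ n ^ 7 * H ^ 21 := mul_le_mul_of_nonneg_right h1 (by positivity)
  have hlow : Real.exp (-(64512 * n ^ 4)) ≤
      (1 / (2 ^ 20 * n ^ 5 * H ^ 20) / (3 * (1 / n ^ 12))) ^ N := by
    have h1 : Real.exp (-(1024 * n ^ 2)) ≤ 1 / H := by
      rw [Real.exp_neg, ← one_div]
      exact one_div_le_one_div_of_le hH0 hHexp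
    calc Real.exp (-(64512 * n ^ 4)) ≤ Real.exp ((N:ℝ) * (21 * (-(1024 * n ^ 2)))) := by
          apply Real.exp_le_exp.mpr
          have : (N:ℝ) * (21 * (1024 * n ^ 2)) ≤ 3 * n ^ 2 * (21 * (1024 * n ^ 2)) :=
            mul_le_mul_of_nonneg_right hNn (by positivity)
          linarith [this, (by ring : 3 * n ^ 2 * (21 * (1024 * n ^ 2)) = 64512 * n ^ 4),
            (by ring : (N:ℝ) * (21 * (-(1024 * n ^ 2))) = -((N:ℝ) * (21 * (1024 * n ^ 2))))]
      _ = (Real.exp (-(1024 * n ^ 2)) ^ 21) ^ N := by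
          rw [← Real.exp_nat_mul, ← Real.exp_nat_mul]
          norm_num
      _ ≤ ((1 / H) ^ 21) ^ N := by
          apply pow_le_pow_left₀ (by positivity)
          exact pow_le_pow_left₀ (Real.exp_pos _).le h1 _
      _ = (1 / H ^ 21) ^ N := by rw [one_div_pow]
      _ ≤ _ := pow_le_pow_left₀ (by positivity) hbase _
  refine lt_of_lt_of_le ?_ hlow
  -- upper bound for the left side
  have hexpo : -(1 / (2 ^ 42 * n ^ 8)) ^ 2 / (2 * (1 / n ^ 12) ^ 2) = -(n ^ 8 / 2 ^ 85) := by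
    field_simp
  rw [hexpo]
  have h1 : al * ((N:ℝ) * (2 * Real.exp (-(n ^ 8 / 2 ^ 85))))
      ≤ |al| * (3 * n ^ 2 * (2 * Real.exp (-(n ^ 8 / 2 ^ 85)))) := by
    apply mul_le_mul (le_abs_self _) _ (by positivity) (abs_nonneg _)
    exact mul_le_mul_of_nonneg_right hNn (by positivity)
  refine lt_of_le_of_lt h1 ?_
  have h2 : |al| * (3 * n ^ 2 * (2 * Real.exp (-(n ^ 8 / 2 ^ 85))))
      = (6 * |al| * n ^ 2) * Real.exp (-(n ^ 8 / 2 ^ 85)) := by ring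
  rw [h2]
  have h3 : 6 * |al| * n ^ 2 < Real.exp (6 * |al| * n ^ 2) := by
    have := Real.add_one_le_exp (6 * |al| * n ^ 2)
    linarith
  calc (6 * |al| * n ^ 2) * Real.exp (-(n ^ 8 / 2 ^ 85))
      < Real.exp (6 * |al| * n ^ 2) * Real.exp (-(n ^ 8 / 2 ^ 85)) :=
        mul_lt_mul_of_pos_right h3 (Real.exp_pos _)
    _ = Real.exp (6 * |al| * n ^ 2 - n ^ 8 / 2 ^ 85) := by
        rw [← Real.exp_add]; rfl
    _ ≤ Real.exp (-(64512 * n ^ 4)) := by
        apply Real.exp_le_exp.mpr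
        have h4 : (6 * |al| + 64512 + 1) * n ^ 4 ≤ n ^ 8 / 2 ^ 85 := by
          rw [le_div_iff₀ (by positivity)]
          calc (6 * |al| + 64512 + 1) * n ^ 4 * 2 ^ 85
              = (2 ^ 85 * (6 * |al| + 64512 + 1)) * n ^ 4 := by ring
            _ ≤ n ^ 4 * n ^ 4 := mul_le_mul_of_nonneg_right hbig (by positivity)
            _ = n ^ 8 := by ring
        have h5 : n ^ 2 ≤ n ^ 4 := pow_le_pow_right₀ (by linarith) (by norm_num)
        have h6 : 6 * |al| * n ^ 2 ≤ 6 * |al| * n ^ 4 :=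
          mul_le_mul_of_nonneg_left h5 (by positivity)
        have h7 : 0 ≤ n ^ 4 := by positivity
        linarith [h4, h6, h7, (by ring : (6 * |al| + 64512 + 1) * n ^ 4
          = 6 * |al| * n ^ 4 + 64512 * n ^ 4 + n ^ 4)]

/-- Existence of a suitable dimension. -/
theorem exists_dim (al : ℝ) (f : MvPolynomial (Fin 3) ℝ) : ∃ p : ℕ, 8 ≤ p ∧
    MvPolynomial.eval ![((p + p + 3 : ℕ) : ℝ), ((p + 1 : ℕ) : ℝ), ((p:ℝ) + 1) ^ 12] f
      < ((2 ^ p - 1 : ℕ) : ℝ) ∧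
    2 ^ 85 * (6 * |al| + 64512 + 1) ≤ ((p:ℝ) + 1) ^ 4 := by
  have h1 := exp_wins (∑ d ∈ f.support, |f.coeff d|) (12 * f.totalDegree)
  have h2 : ∀ᶠ p : ℕ in atTop, 2 ^ 85 * (6 * |al| + 64512 + 1) ≤ (p:ℝ) :=
    tendsto_natCast_atTop_atTop.eventually_ge_atTop _
  obtain ⟨p, hp1, hp2, hp8⟩ := (h1.and (h2.and (eventually_ge_atTop 8))).exists
  have hp' : (8:ℝ) ≤ p := by exact_mod_cast hp8
  refine ⟨p, hp8, ?_, ?_⟩
  · have hcast : ((2 ^ p - 1 : ℕ) : ℝ) = 2 ^ p - 1 := by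
      rw [Nat.cast_sub Nat.one_le_two_pow]; simp
    rw [hcast]
    refine lt_of_le_of_lt (eval_bound f (M := ((p:ℝ) + 1) ^ 12) (one_le_pow₀ (by linarith)) ?_) ?_
    · have h12 : ((p:ℝ) + 1) ^ 2 ≤ ((p:ℝ) + 1) ^ 12 :=
        pow_le_pow_right₀ (by linarith) (by norm_num)
      intro i
      fin_cases i
      · change |((p + p + 3 : ℕ) : ℝ)| ≤ _
        rw [abs_of_nonneg (Nat.cast_nonneg _)]
        push_cast
        nlinarith
      · change |((p + 1 : ℕ) : ℝ)| ≤ _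
        rw [abs_of_nonneg (Nat.cast_nonneg _)]
        push_cast
        nlinarith
      · change |((p:ℝ) + 1) ^ 12| ≤ _
        rw [abs_of_nonneg (by positivity)]
    · rw [← pow_mul]
      exact hp1
  · calc 2 ^ 85 * (6 * |al| + 64512 + 1) ≤ (p:ℝ) := hp2
      _ ≤ ((p:ℝ) + 1) ^ 1 := by linarith
      _ ≤ ((p:ℝ) + 1) ^ 4 := pow_le_pow_right₀ (by linarith) (by norm_num)

end Pool.Agent.MP42
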