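import Pool.Agent.MP_42ca66_lc.States

/-!
The directions at the centre.
-/

namespace Pool.Agent.MP42

open Finset

/-! ### Integrality -/

/-- The integers inside the reals. -/
def ZZ : Subring ℝ := (Int.castRingHom ℝ).range

lemma mem_ZZ_nat (k : ℕ) : (k : ℝ) ∈ ZZ := ⟨k, by simp⟩

lemma lt_ZZ {a b : ℝ} (ha : a ∈ ZZ) (hb : b ∈ ZZ) (h : a < b) : a + 1 ≤ b := by
  obtain ⟨x, rfl⟩ := ha
  obtain ⟨y, rfl⟩ := hb
  simp only [eq_intCast] at h ⊢
  have : x < y := by exact_mod_cast h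
  exact_mod_cast this

lemma vec_ZZ {p : ℕ} {a : ℝ} {f : ℕ → ℝ} (ha : a ∈ ZZ) (hf : ∀ l, f l ∈ ZZ) (j : Fin (p + 1)) :
    vec p a f j ∈ ZZ := by
  refine Fin.cases ?_ (fun l => ?_) j
  · exact ha
  · exact hf l

lemma dt_ZZ {n : ℕ} {a d : Fin n → ℝ} (ha : ∀ j, a j ∈ ZZ) (hd : ∀ j, d j ∈ ZZ) :
    dt a d ∈ ZZ := Subring.sum_mem _ fun j _ => mul_mem (ha j) (hd j)

lemma nsq_ZZ {n : ℕ} {d : Fin n → ℝ} (hd : ∀ j, d j ∈ ZZ) : nsq d ∈ ZZ :=
  Subring.sum_mem _ fun j _ => pow_mem (hd j) 2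

lemma e_ZZ (p : ℕ) : (64 * (p:ℝ) - 1) ∈ ZZ :=
  sub_mem (mul_mem (mem_ZZ_nat 64) (mem_ZZ_nat p)) (one_mem _)

lemma Dn_ZZ (u : ℕ → Bool) (p i j : ℕ) : Dn u (64 * (p:ℝ) - 1) i j ∈ ZZ := by
  unfold Dn
  split_ifs
  · exact zero_mem _
  · exact one_mem _
  · exact mul_mem (neg_mem (add_mem (e_ZZ p) (one_mem _))) (pow_mem (neg_mem (e_ZZ p)) _)
  · exact zero_mem _

lemma Bn_ZZ (u : ℕ → Bool) (p j : ℕ) : Bn u (64 * (p:ℝ) - 1) (3 * p + 1) j ∈ ZZ := by
  unfold Bn
  split_ifs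
  · exact mul_mem (add_mem (mul_mem (mem_ZZ_nat 3) (mem_ZZ_nat p)) (one_mem _))
      (pow_mem (neg_mem (e_ZZ p)) _)
  · exact zero_mem _

lemma cc0_ZZ (p : ℕ) (j : Fin (p + 1)) : cc0 p j ∈ ZZ := by
  unfold cc0
  apply vec_ZZ
  · exact neg_mem (add_mem (mul_mem (mem_ZZ_nat 9) (mem_ZZ_nat p)) (mem_ZZ_nat 3))
  · intro l
    exact sub_mem (mul_mem (mem_ZZ_nat 4) (mem_ZZ_nat p)) (mem_ZZ_nat l)

/-! ### Start -/

/-- Directions at the start. -/
noncomputable def DS (p : ℕ) : Fin (p + 1) → Fin (p + 1) → ℝ :=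
  Fin.cons (vec p (-1) 0) (fun l => vec p 0 (fun k => if k = l then 1 else 0))

lemma stS_zero (p : ℕ) : stS p 0 = .inr 1 := rfl

lemma stS_succ (p : ℕ) (l : Fin p) : stS p l.succ = .inl (.inl l) := rfl

lemma stU_zero (p : ℕ) (u : ℕ → Bool) : stU p u 0 = .inr 0 := rfl

lemma DS_zero (p : ℕ) : DS p 0 = vec p (-1) 0 := rfl

lemma DS_succ (p : ℕ) (i : Fin p) :
    DS p i.succ = vec p 0 (fun k => if k = (i:ℕ) then 1 else 0) := rfl

theorem goodD_S {p : ℕ} (hp : 8 ≤ p) : GoodD (al0 p) (cc0 p) (stS p) (DS p) 0 where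
  hD0 := by
    intro i j
    refine Fin.cases ?_ (fun i => ?_) i <;> refine Fin.cases ?_ (fun j => ?_) j
    · intro h; exact absurd rfl h
    · intro _
      rw [stS_succ, DS_zero, dt_lower]; simp
    · intro _
      rw [stS_zero, DS_succ, dt_top]
    · intro h
      rw [stS_succ, DS_succ, dt_lower, if_neg, neg_zero]
      intro e
      exact h (by rw [Fin.ext e])
  hD1 := by
    intro i
    refine Fin.cases ?_ (fun i => ?_) i
    · rw [stS_zero, DS_zero, dt_top]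
    · rw [stS_succ, DS_succ, dt_lower, if_pos rfl]
  hX := by
    have hp' : (8:ℝ) ≤ p := by exact_mod_cast hp
    rw [DS_zero, cc0, dt_vec]
    simp only [Pi.zero_apply, mul_zero, sum_const_zero]
    linarith
  hY := by
    have hp' : (8:ℝ) ≤ p := by exact_mod_cast hp
    intro i
    refine Fin.cases ?_ (fun i => ?_) i
    · intro h; exact absurd rfl h
    · intro _
      right
      have e5 : ∑ l ∈ range p, (4 * (p:ℝ) - l) * (if l = (i:ℕ) then (1:ℝ) else 0) = 4 * p - i := by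
        simp [Finset.sum_ite_eq', i.2]
      have e6 : ∑ l ∈ range p, (if l = (i:ℕ) then (1:ℝ) else 0) ^ 2 = 1 := by
        simp [Finset.sum_ite_eq', i.2]
      have e7 : ∑ l ∈ range p, ((0 : ℕ → ℝ) l) ^ 2 = 0 := by simp
      have e8 : ∑ l ∈ range p, (4 * (p:ℝ) - l) * ((0 : ℕ → ℝ) l) = 0 := by simp
      rw [DS_zero, DS_succ, cc0, dt_vec, dt_vec, nsq_vec, nsq_vec, e5, e6, e7, e8]
      have h1 : (0:ℝ) ≤ (i:ℕ) := Nat.cast_nonneg _
      have h2 : ((i:ℕ):ℝ) ≤ p := by exact_mod_cast i.2.le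
      nlinarith

/-! ### General state -/

/-- Directions at the state `u`. -/
noncomputable def DU (p : ℕ) (u : ℕ → Bool) : Fin (p + 1) → Fin (p + 1) → ℝ :=
  Fin.cons (vec p 1 (Bn u (64 * (p:ℝ) - 1) (3 * p + 1)))
    (fun i => vec p 0 (fun j => (if u i = true then -1 else 1) * Dn u (64 * (p:ℝ) - 1) i j))

lemma DU_zero (p : ℕ) (u : ℕ → Bool) :
    DU p u 0 = vec p 1 (Bn u (64 * (p:ℝ) - 1) (3 * p + 1)) := rfl

lemma DU_succ (p : ℕ) (u : ℕ → Bool) (i : Fin p) : DU p u i.succ =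
    vec p 0 (fun j => (if u i = true then -1 else 1) * Dn u (64 * (p:ℝ) - 1) i j) := rfl

lemma DU_ZZ (p : ℕ) (u : ℕ → Bool) (i j : Fin (p + 1)) : DU p u i j ∈ ZZ := by
  refine Fin.cases ?_ (fun i => ?_) i
  · exact vec_ZZ (one_mem _) (Bn_ZZ u p) j
  · rw [DU_succ]
    refine vec_ZZ (zero_mem _) (fun l => ?_) j
    apply mul_mem _ (Dn_ZZ u p _ _)
    split_ifs
    · exact neg_mem (one_mem _)
    · exact one_mem _

lemma DU_hD0 {p : ℕ} (u : ℕ → Bool) : ∀ i j, j ≠ i → dt (al0 p (stU p u j)) (DU p u i) = 0 := by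
  intro i j
  refine Fin.cases ?_ (fun i => ?_) i <;> refine Fin.cases ?_ (fun j => ?_) j
  · intro h; exact absurd rfl h
  · intro _
    have hD : DU p u 0 = vec p 1 (Bn u (64 * (p:ℝ) - 1) (3 * p + 1)) := rfl
    rw [hD]
    cases hu : u j
    · have hst : stU p u j.succ = .inl (.inl j) := by simp [stU, hu]
      rw [hst, dt_lower, Bn, if_neg (by simp [hu]), neg_zero]
    · have hst : stU p u j.succ = .inl (.inr j) := by simp [stU, hu]
      have hs := sum_Bn u (64 * (p:ℝ) - 1) (3 * p + 1) j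
      rw [sub_add_cancel] at hs
      rw [hst, dt_upper, hs, Bn, if_pos hu]
      ring
  · intro _
    rw [stU_zero, DU_succ, dt_bottom, neg_zero]
  · intro h
    have hij : (j : ℕ) ≠ i := fun e => h (by rw [Fin.ext e])
    have hD : DU p u i.succ = vec p 0
      (fun j => (if u i = true then -1 else 1) * Dn u (64 * (p:ℝ) - 1) i j) := rfl
    rw [hD]
    cases hu : u j
    · have hst : stU p u j.succ = .inl (.inl j) := by simp [stU, hu]
      rw [hst, dt_lower, Dn_lower u _ hu, if_neg hij]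
      ring
    · have hst : stU p u j.succ = .inl (.inr j) := by simp [stU, hu]
      have hs := Dn_upper u (64 * (p:ℝ) - 1) (i := i) hu
      rw [sub_add_cancel, if_neg hij] at hs
      rw [hst, dt_upper, ← mul_sum]
      linear_combination (if u i = true then (-1:ℝ) else 1) * hs

lemma DU_hD1 {p : ℕ} (u : ℕ → Bool) : ∀ i, dt (al0 p (stU p u i)) (DU p u i) = -1 := by
  intro i
  refine Fin.cases ?_ (fun i => ?_) i
  · exact dt_bottom 1 _
  · have hD : DU p u i.succ = vec p 0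
      (fun j => (if u i = true then -1 else 1) * Dn u (64 * (p:ℝ) - 1) i j) := rfl
    rw [hD]
    cases hu : u i
    · have hst : stU p u i.succ = .inl (.inl i) := by simp [stU, hu]
      rw [hst, dt_lower, Dn_lower u _ hu, if_pos rfl]
      simp
    · have hst : stU p u i.succ = .inl (.inr i) := by simp [stU, hu]
      have hs := Dn_upper_self u (64 * (p:ℝ) - 1) i
      rw [sub_add_cancel] at hs
      rw [hst, dt_upper, ← mul_sum]
      simp only [if_true]
      linear_combination -hs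

lemma dt_DU_succ {p : ℕ} (u : ℕ → Bool) (i : Fin p) :
    dt (cc0 p) (DU p u i.succ) = (if u i = true then -1 else 1) *
      ((4 * (p:ℝ) - i) - 64 * p * Fs u (64 * p - 1) (fun l => 4 * (p:ℝ) - l) p (i + 1)) := by
  have hD : dt (cc0 p) (DU p u i.succ) = -(9 * p + 3) * 0 + ∑ l ∈ range p, (4 * (p:ℝ) - l) *
      ((if u i = true then -1 else 1) * Dn u (64 * (p:ℝ) - 1) i l) := by
    rw [DU_succ, cc0, dt_vec]
  have hs := sum_C_Dn u (64 * (p:ℝ) - 1) (fun l => 4 * (p:ℝ) - l) i.2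
  rw [sub_add_cancel] at hs
  rw [hD, ← hs, mul_sum, mul_zero, zero_add]
  apply sum_congr rfl
  intro l _
  ring

lemma nsq_DU_succ {p : ℕ} (u : ℕ → Bool) (i : Fin p) :
    nsq (DU p u i.succ) = 1 + (64 * p) ^ 2 * Gs u (64 * p - 1) p (i + 1) := by
  have hD : nsq (DU p u i.succ) = 0 ^ 2 + ∑ l ∈ range p,
      ((if u i = true then -1 else 1) * Dn u (64 * (p:ℝ) - 1) i l) ^ 2 := by
    rw [DU_succ, nsq_vec]
  have hs := sum_sq_Dn u (64 * (p:ℝ) - 1) i.2
  rw [sub_add_cancel] at hs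
  rw [hD, ← hs]
  have : ∀ l ∈ range p, ((if u i = true then -1 else 1) * Dn u (64 * (p:ℝ) - 1) i l) ^ 2
      = Dn u (64 * (p:ℝ) - 1) i l ^ 2 := by
    intro l _
    split_ifs <;> ring
  rw [sum_congr rfl this]
  ring

lemma dt_DU_zero {p : ℕ} (u : ℕ → Bool) :
    dt (cc0 p) (DU p u 0) = (3 * p + 1) *
      (Fs u (64 * p - 1) (fun l => 4 * (p:ℝ) - l) p 0 - 3) := by
  have hD : dt (cc0 p) (DU p u 0) = -(9 * p + 3) * 1 + ∑ l ∈ range p, (4 * (p:ℝ) - l) *
      Bn u (64 * (p:ℝ) - 1) (3 * p + 1) l := dt_vec p _ _ _ _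
  rw [hD, sum_C_Bn]
  ring

lemma nsq_DU_zero {p : ℕ} (u : ℕ → Bool) :
    nsq (DU p u 0) = 1 + (3 * p + 1) ^ 2 * Gs u (64 * p - 1) p 0 := by
  have hD : nsq (DU p u 0) = 1 ^ 2 + ∑ l ∈ range p,
      Bn u (64 * (p:ℝ) - 1) (3 * p + 1) l ^ 2 := nsq_vec p _ _
  rw [hD, sum_sq_Bn]
  ring

section

variable {p : ℕ} {q : ℕ → Bool}

lemma Fs_of_P (hq : q p = false) {i : ℕ} (hi : i ≤ p) :
    Fs (gray q) (64 * p - 1) (fun l => 4 * (p:ℝ) - l) p i
      = if q i = true then Pn q p i else -Pn q p i := by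
  have h := neg_one_pow_cnt hq i hi
  unfold Pn
  rw [h]
  split_ifs <;> ring

/-- Improving directions. -/
lemma improving (hp : 8 ≤ p) (hq : q p = false) (i : Fin p) (hi : q i = false) :
    ∃ s : ℝ, (s = 1 ∨ (s = 64 * p - 1 ∧ 2 ≤ cnt (gray q) i p)) ∧ 0 < s ∧
      s * dt (cc0 p) (DU p (gray q) i.succ) = Wq p (Pn q p) i ∧
      s ^ 2 * (64 * p - 2) * nsq (DU p (gray q) i.succ)
        = 64 * p * ((64 * p - 1) ^ cnt (gray q) i p) ^ 2 - 2 * s ^ 2 := by
  have hp' : (8:ℝ) ≤ p := by exact_mod_cast hp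
  have hR := rec_of hp hq
  have hF := Fs_of_P hq (i := i + 1) i.2
  have hG := Gs_eq (gray q) (64 * (p:ℝ) - 1) (p := p) (i + 1) i.2
  have hpow : ((64 * (p:ℝ) - 1) ^ cnt (gray q) (i + 1) p) ^ 2
      = ((64 * p - 1) ^ 2) ^ cnt (gray q) (i + 1) p := by
    rw [← pow_mul, ← pow_mul, Nat.mul_comm]
  rw [dt_DU_succ, nsq_DU_succ, hF]
  cases h2 : q (i + 1)
  · obtain ⟨c1, c2⟩ := hR.same i i.2 (by rw [hi, h2])
    have hu : gray q i = false := by unfold gray; rw [hi, h2]; rfl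
    refine ⟨1, Or.inl rfl, one_pos, ?_, ?_⟩
    · rw [hu]
      simp only [Bool.false_eq_true, if_false]
      rw [Wq, c2]
      ring
    · rw [c1, hpow]
      linear_combination (64 * (p:ℝ)) * hG
  · obtain ⟨c1, c2⟩ := hR.down i i.2 hi h2
    have hu : gray q i = true := by unfold gray; rw [hi, h2]; rfl
    have h3 := (hR.bound (i + 1) i.2).2.2.2 h2
    beta_reduce at c1 h3
    refine ⟨64 * p - 1, Or.inr ⟨rfl, by omega⟩, by linarith, ?_, ?_⟩
    · rw [hu]
      simp only [if_true]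
      rw [Wq, c2]
      ring
    · have hpow2 : ((64 * (p:ℝ) - 1) ^ cnt (gray q) i p) ^ 2
          = (64 * (p:ℝ) - 1) ^ 2 * ((64 * p - 1) ^ 2) ^ cnt (gray q) (i + 1) p := by
        rw [c1, ← hpow]; ring
      rw [hpow2]
      linear_combination (64 * (p:ℝ)) * (64 * (p:ℝ) - 1) ^ 2 * hG

/-- Non-improving directions. -/
lemma nonimproving (hp : 8 ≤ p) (hq : q p = false) (i : Fin p) (hi : q i = true) :
    dt (cc0 p) (DU p (gray q) i.succ) < 0 := by
  have hp' : (8:ℝ) ≤ p := by exact_mod_cast hp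
  have hR := rec_of hp hq
  have hF := Fs_of_P hq (i := i + 1) i.2
  have hi1 : ((i:ℕ):ℝ) + 1 ≤ p := by exact_mod_cast i.2
  have hi0 : (0:ℝ) ≤ (i:ℕ) := Nat.cast_nonneg _
  obtain ⟨b1, -, b3, b4⟩ := hR.bound (i + 1) i.2
  rw [dt_DU_succ, hF]
  cases h2 : q (i + 1)
  · have hu : gray q i = true := by unfold gray; rw [hi, h2]; rfl
    rw [hu]
    simp only [Bool.false_eq_true, if_false, if_true]
    nlinarith
  · have hu : gray q i = false := by unfold gray; rw [hi, h2]; rfl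
    rw [hu]
    simp only [Bool.false_eq_true, if_false, if_true]
    have := b3 (b4 h2)
    nlinarith

/-- The directions at the state `q` are good: the steepest one flips the lowest zero bit. -/
theorem goodD_U (hp : 8 ≤ p) (hq : q p = false) (i : Fin p) (hi : q i = false)
    (hlow : ∀ j < (i:ℕ), q j = true) :
    GoodD (al0 p) (cc0 p) (stU p (gray q)) (DU p (gray q)) i.succ where
  hD0 := DU_hD0 _
  hD1 := DU_hD1 _
  hX := by
    have hp' : (8:ℝ) ≤ p := by exact_mod_cast hp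
    obtain ⟨s, -, hs, hW, -⟩ := improving hp hq i hi
    have hWpos := ((rec_of hp hq).W_bounds i.2).1
    have hpos : 0 < dt (cc0 p) (DU p (gray q) i.succ) := by
      by_contra hneg
      push Not at hneg
      have := mul_nonpos_of_nonneg_of_nonpos hs.le hneg
      linarith
    have := lt_ZZ (zero_mem _) (dt_ZZ (cc0_ZZ p) (DU_ZZ p (gray q) i.succ)) hpos
    linarith
  hY := by
    have hp' : (8:ℝ) ≤ p := by exact_mod_cast hp
    have hR := rec_of hp hq
    obtain ⟨s, hs1, hs, hW, hN⟩ := improving hp hq i hi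
    intro j
    refine Fin.cases ?_ (fun j => ?_) j
    · intro _
      cases h0 : q 0
      · left
        rw [dt_DU_zero, Fs_of_P hq (Nat.zero_le _), h0]
        simp only [Bool.false_eq_true, if_false]
        have := (hR.bound 0 (Nat.zero_le _)).1
        nlinarith
      · right
        apply lt_ZZ
        · exact mul_mem (pow_mem (dt_ZZ (cc0_ZZ p) (DU_ZZ p _ _)) 2) (nsq_ZZ (DU_ZZ p _ _))
        · exact mul_mem (pow_mem (dt_ZZ (cc0_ZZ p) (DU_ZZ p _ _)) 2) (nsq_ZZ (DU_ZZ p _ _))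
        · rw [dt_DU_zero, Fs_of_P hq (Nat.zero_le _), h0, nsq_DU_zero]
          simp only [if_true]
          have hi0 : 0 < (i:ℕ) := by
            rcases Nat.eq_zero_or_pos (i:ℕ) with h | h
            · rw [h, h0] at hi; simp at hi
            · exact h
          exact hR.bottom i.2 hi0 hi hlow (by linarith) hs hN
            (Gs_eq (gray q) (64 * (p:ℝ) - 1) (p := p) 0 (Nat.zero_le _)) hW
    · intro hne
      have hij : (j:ℕ) ≠ i := fun e => hne (by rw [Fin.ext e])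
      cases hj : q j
      · right
        have hlt : (i:ℕ) < j := by
          by_contra hlt
          have : (j:ℕ) < i := by omega
          rw [hlow j this] at hj
          simp at hj
        apply lt_ZZ
        · exact mul_mem (pow_mem (dt_ZZ (cc0_ZZ p) (DU_ZZ p _ _)) 2) (nsq_ZZ (DU_ZZ p _ _))
        · exact mul_mem (pow_mem (dt_ZZ (cc0_ZZ p) (DU_ZZ p _ _)) 2) (nsq_ZZ (DU_ZZ p _ _))
        · obtain ⟨s', hs1', hs', hW', hN'⟩ := improving hp hq j hj
          have hcmp := hR.compare hlt j.2 hi hj hs hs1'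
          have hmul : 0 < s ^ 2 * s' ^ 2 * (64 * p - 2) := by
            have : (0:ℝ) < 64 * p - 2 := by linarith
            positivity
          rw [← hN, ← hN', ← hW, ← hW'] at hcmp
          refine lt_of_mul_lt_mul_right (a := s ^ 2 * s' ^ 2 * (64 * p - 2)) ?_ hmul.le
          nlinarith [hcmp]
      · left
        have := lt_ZZ (dt_ZZ (cc0_ZZ p) (DU_ZZ p (gray q) j.succ)) (zero_mem _)
          (nonimproving hp hq j hj)
        linarith

end

end Pool.Agent.MP42
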