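import Pool.Agent.MP_42ca66_lc.Shadow
import Pool.Agent.MP_42ca66_lc.Dirs

/-!
The structure of `Q` near the start vertex, robustly.
-/

namespace Pool.Agent.MP42

open Finset

/-- The start functional. -/
noncomputable def zz (p : ℕ) : Fin (p + 1) → ℝ :=
  vec p 6 (fun l => if l = 0 then -2048 else if l + 1 < p then -512 else -1)

/-- Closeness at polynomial scale. -/
structure NearS (p : ℕ) (α : Row p → Fin (p + 1) → ℝ) (β : Row p → ℝ) (c : Fin (p + 1) → ℝ)
    (r : ℝ) : Prop where
  hr0 : 0 ≤ r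
  hr : 2050 * ((p:ℝ) + 1) ^ 3 * r ≤ 1 / 1000
  hα : ∀ i j, |α i j - al0 p i j| ≤ r
  hβ : ∀ i, |β i - be0 p i| ≤ r
  hc : ∀ j, |c j - cc0 p j| ≤ r

lemma condK_stS_one (p : ℕ) : CondK (fun j => al0 p (stS p j)) 1 := by
  intro d R hR hd
  obtain ⟨a, g, rfl⟩ := exists_vec p d
  have h0 := hd 0
  intro j
  refine Fin.cases ?_ (fun l => ?_) j
  · rw [vec_zero, one_mul]
    have e : dt (al0 p (stS p 0)) (vec p a g) = a := dt_top a g
    rwa [e] at h0
  · have hl := hd l.succ
    have e : dt (al0 p (stS p l.succ)) (vec p a g) = -g l := dt_lower l a g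
    rw [e, abs_neg] at hl
    rw [vec_succ, one_mul]
    exact hl

lemma dt_vec_DS_zero {p : ℕ} (a : ℝ) (f : ℕ → ℝ) : dt (vec p a f) (DS p 0) = -a := by
  rw [DS_zero, dt_vec]; simp

lemma dt_vec_DS_succ {p : ℕ} (a : ℝ) (f : ℕ → ℝ) (i : Fin p) :
    dt (vec p a f) (DS p i.succ) = f i := by
  rw [DS_succ, dt_vec]
  simp [Finset.sum_ite_eq', i.2]

lemma dt_vec_start {p : ℕ} (a : ℝ) (f : ℕ → ℝ) : dt (vec p a f) (vec p 1 0) = a := by
  rw [dt_vec]; simp

lemma DS_abs {p : ℕ} (i j : Fin (p + 1)) : |DS p i j| ≤ 1 := by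
  refine Fin.cases ?_ (fun i => ?_) i <;> refine Fin.cases ?_ (fun j => ?_) j
  · rw [DS_zero, vec_zero]; simp
  · rw [DS_zero, vec_succ]; simp
  · rw [DS_succ, vec_zero]; simp
  · rw [DS_succ, vec_succ]; split_ifs <;> simp

lemma start_abs {p : ℕ} (j : Fin (p + 1)) : |vec p 1 0 j| ≤ 1 := by
  refine Fin.cases ?_ (fun j => ?_) j
  · rw [vec_zero]; simp
  · rw [vec_succ]; simp

lemma DS_dt {p : ℕ} (hp : 8 ≤ p) (i j : Fin (p + 1)) :
    dt (al0 p (stS p j)) (DS p i) = if j = i then -1 else 0 := by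
  split_ifs with h
  · rw [h]; exact (goodD_S hp).hD1 i
  · exact (goodD_S hp).hD0 i j h

/-- Local structure at the start vertex. -/
theorem box_core {p : ℕ} (hp : 8 ≤ p) {α : Row p → Fin (p + 1) → ℝ} {β : Row p → ℝ}
    {c : Fin (p + 1) → ℝ} {r : ℝ} (h : NearS p α β c r) :
    ∃ (v : Fin (p + 1) → ℝ) (g : Fin (p + 1) → Fin (p + 1) → ℝ),
      (∀ j, dt (α (stS p j)) v = β (stS p j)) ∧
      (∀ w, (∀ j, dt (α (stS p j)) w = β (stS p j)) → w = v) ∧
      (∀ i j, dt (α (stS p j)) (g i) = if j = i then -1 else 0) ∧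
      (∀ y, (∀ i, dt (α i) y ≤ β i) → ∃ ξ : Fin (p + 1) → ℝ, (∀ j, 0 ≤ ξ j) ∧
        ∀ a, dt a y = dt a v + ∑ j, ξ j * dt a (g j)) ∧
      (∀ j, |v j| ≤ 2) ∧ (∀ i j, |g i j| ≤ 2) ∧
      (∀ a a0 : Fin (p + 1) → ℝ, (∀ j, |a j - a0 j| ≤ r) → (∀ j, |a0 j| ≤ 512 * (p + 1)) →
        |dt a v - dt a0 (vec p 1 0)| ≤ 1 / 1000 ∧
        ∀ i, |dt a (g i) - dt a0 (DS p i)| ≤ 1 / 1000) := by
  have hp' : (8:ℝ) ≤ p := by exact_mod_cast hp
  have hr0 := h.hr0
  have hr := h.hr
  set n : ℝ := (p:ℝ) + 1 with hn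
  have hn9 : 9 ≤ n := by rw [hn]; linarith
  have hcast : ((p + 1 : ℕ) : ℝ) = n := by rw [hn]; push_cast; ring
  have hn1 : n * r ≤ 1 / 1000 / 2050 := by
    have : n * r ≤ n ^ 3 * r := by
      apply mul_le_mul_of_nonneg_right _ hr0
      nlinarith [mul_nonneg (by linarith : (0:ℝ) ≤ n) (by linarith : (0:ℝ) ≤ n)]
    linarith
  have hK0 := condK_stS_one p
  have hK : CondK (fun j => α (stS p j)) 2 := by
    have := condK_pert (M := fun j => α (stS p j)) (η := r) hK0 zero_le_one hr0
      (fun i j => h.hα (stS p i) j) (by rw [hcast]; linarith)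
    simpa using this
  obtain ⟨v, hv⟩ := condK_surj hK (fun j => β (stS p j))
  have hg' : ∀ i, ∃ d : Fin (p + 1) → ℝ, ∀ j, dt (α (stS p j)) d = if j = i then -1 else 0 :=
    fun i => condK_surj hK (fun j => if j = i then -1 else 0)
  choose g hg using hg'
  have hvc : ∀ j, |v j - vec p 1 0 j| ≤ 4 * n * r := by
    intro j
    have := condK_close (M0 := fun j => al0 p (stS p j)) hK hr0 hr0
      (fun i j => h.hα (stS p i) j) (d := v) (start_abs (p := p)) zero_le_one (fun i => by
        rw [hv i, (goodV_S hp).hw i]; exact h.hβ _) j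
    rw [hcast] at this
    refine this.trans ?_
    nlinarith
  have hgc : ∀ i j, |g i j - DS p i j| ≤ 2 * n * r := by
    intro i j
    have := condK_close (M0 := fun j => al0 p (stS p j)) (ε := 0) hK hr0 le_rfl
      (fun i j => h.hα (stS p i) j) (d := g i) (DS_abs (p := p) i) zero_le_one (fun j => by
        rw [hg i j, DS_dt hp, sub_self, abs_zero]) j
    rw [hcast] at this
    refine this.trans ?_
    nlinarith
  have hv2 : ∀ j, |v j| ≤ 2 := by
    intro j
    have h1 := hvc j
    have h2 := start_abs (p := p) j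
    have : |v j| ≤ |v j - vec p 1 0 j| + |vec p 1 0 j| := by
      calc |v j| = |(v j - vec p 1 0 j) + vec p 1 0 j| := by ring_nf
        _ ≤ _ := abs_add_le _ _
    linarith
  have hg2 : ∀ i j, |g i j| ≤ 2 := by
    intro i j
    have h1 := hgc i j
    have h2 := DS_abs (p := p) i j
    have : |g i j| ≤ |g i j - DS p i j| + |DS p i j| := by
      calc |g i j| = |(g i j - DS p i j) + DS p i j| := by ring_nf
        _ ≤ _ := abs_add_le _ _
    linarith
  refine ⟨v, g, hv, ?_, hg, ?_, hv2, hg2, ?_⟩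
  · intro w hw
    have : (fun j => w j - v j) = 0 := by
      apply condK_zero hK
      intro j
      rw [dt_sub_right, hw j, hv j, sub_self]
    funext j
    have := congrFun this j
    simp only [Pi.zero_apply] at this
    linarith
  · intro y hy
    refine ⟨fun j => β (stS p j) - dt (α (stS p j)) y, fun j => by linarith [hy (stS p j)], ?_⟩
    have hlin : ∀ (a : Fin (p + 1) → ℝ) (ξ : Fin (p + 1) → ℝ),
        dt a (fun k => v k + ∑ j, ξ j * g j k) = dt a v + ∑ j, ξ j * dt a (g j) := by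
      intro a ξ
      simp only [dt, mul_add, sum_add_distrib, mul_sum]
      congr 1
      rw [sum_comm]
      apply sum_congr rfl
      intro j _
      apply sum_congr rfl
      intro k _
      ring
    have : (fun k => (v k + ∑ j, (β (stS p j) - dt (α (stS p j)) y) * g j k) - y k) = 0 := by
      apply condK_zero hK
      intro j
      rw [dt_sub_right, hlin, hv j]
      have : ∑ i, (β (stS p i) - dt (α (stS p i)) y) * dt (α (stS p j)) (g i)
          = -(β (stS p j) - dt (α (stS p j)) y) := by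
        rw [Finset.sum_eq_single j]
        · rw [hg, if_pos rfl]; ring
        · intro b _ hb
          rw [hg, if_neg (Ne.symm hb), mul_zero]
        · intro hj; exact absurd (mem_univ j) hj
      rw [this]; ring
    intro a
    rw [← hlin a]
    congr 1
    funext k
    have := congrFun this k
    simp only [Pi.zero_apply] at this
    linarith
  · intro a a0 ha ha0
    have hnn : n ≤ n ^ 3 := by
      nlinarith [mul_nonneg (by linarith : (0:ℝ) ≤ n) (by linarith : (0:ℝ) ≤ n)]
    have hnr : n * r ≤ n ^ 3 * r := mul_le_mul_of_nonneg_right hnn hr0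
    constructor
    · have := abs_dt_sub_le ha hvc ha0 hv2
      rw [hcast] at this
      refine this.trans ?_
      have e : n * (512 * n) * (4 * n * r) = 2048 * (n ^ 3 * r) := by ring
      rw [e]
      linarith
    · intro i
      have := abs_dt_sub_le ha (hgc i) ha0 (hg2 i)
      rw [hcast] at this
      refine this.trans ?_
      have e : n * (512 * n) * (2 * n * r) = 1024 * (n ^ 3 * r) := by ring
      rw [e]
      linarith

end Pool.Agent.MP42
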