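import Pool.Agent.MP_42ca66_lc.Pert

/-!
Transfer between the coordinates `w` and `x = (w - w00) / lam`, and the robust path theorem.
-/

namespace Pool.Agent.MP42

open Set

variable {ι : Type} {n : ℕ}

/-- The map `w ↦ x = (w - w00) / lam`. -/
noncomputable def toX (lam : ℝ) (w00 w : Fin n → ℝ) : E n :=
  WithLp.toLp 2 (fun j => (w j - w00 j) / lam)

/-- The map `x ↦ w = w00 + lam x`. -/
noncomputable def toW (lam : ℝ) (w00 : Fin n → ℝ) (x : E n) : Fin n → ℝ :=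
  fun j => w00 j + lam * x j

lemma toX_toW {lam : ℝ} (h : 0 < lam) (w00 : Fin n → ℝ) (x : E n) :
    toX lam w00 (toW lam w00 x) = x := by
  ext j
  simp only [toX, toW]
  field_simp
  ring

lemma toW_toX {lam : ℝ} (h : 0 < lam) (w00 w : Fin n → ℝ) :
    toW lam w00 (toX lam w00 w) = w := by
  funext j
  simp only [toX, toW]
  field_simp
  ring

lemma dotE_toX (lam : ℝ) (w00 w a : Fin n → ℝ) :
    dotE a (toX lam w00 w) = (dt a w - dt a w00) / lam := by
  simp only [dotE, toX, dt]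
  rw [← Finset.sum_sub_distrib, Finset.sum_div]
  exact Finset.sum_congr rfl fun j _ => by ring

lemma dotE_eq_dt (a : Fin n → ℝ) (d : Fin n → ℝ) : dotE a (WithLp.toLp 2 d) = dt a d := rfl

/-- The rows in `w`-coordinates. -/
noncomputable def alp (s : ι → ℝ) (lam : ℝ) (A : ι → Fin n → ℝ) : ι → Fin n → ℝ :=
  fun i j => s i / lam * A i j

/-- The right-hand sides in `w`-coordinates. -/
noncomputable def bet (s : ι → ℝ) (lam : ℝ) (w00 : Fin n → ℝ) (A : ι → Fin n → ℝ) : ι → ℝ :=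
  fun i => s i + dt (alp s lam A i) w00

lemma dt_alp (s : ι → ℝ) (lam : ℝ) (A : ι → Fin n → ℝ) (i : ι) (d : Fin n → ℝ) :
    dt (alp s lam A i) d = s i / lam * dt (A i) d := by
  simp only [dt, alp, Finset.mul_sum]
  exact Finset.sum_congr rfl fun j _ => by ring

lemma dt_A {s : ι → ℝ} {lam : ℝ} (A : ι → Fin n → ℝ) {i : ι} (hs : 0 < s i) (hl : 0 < lam)
    (d : Fin n → ℝ) : dt (A i) d = lam / s i * dt (alp s lam A i) d := by
  rw [dt_alp]
  field_simp

lemma dotE_A_toX {s : ι → ℝ} {lam : ℝ} (w00 : Fin n → ℝ) (A : ι → Fin n → ℝ) {i : ι}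
    (hs : 0 < s i) (hl : 0 < lam) (w : Fin n → ℝ) :
    dotE (A i) (toX lam w00 w) = 1 + (dt (alp s lam A i) w - bet s lam w00 A i) / s i := by
  rw [dotE_toX, bet, dt_alp, dt_alp]
  field_simp
  ring

/-- Vertex transfer. -/
lemma vtx_of {s : ι → ℝ} {lam : ℝ} {w00 : Fin n → ℝ} {A : ι → Fin n → ℝ}
    (hs : ∀ i, 0 < s i) (hl : 0 < lam) {t : Fin n → ι} (hinj : Function.Injective t)
    {K : ℝ} (hK : CondK (fun j => alp s lam A (t j)) K) {w : Fin n → ℝ}
    (hw : ∀ j, dt (alp s lam A (t j)) w = bet s lam w00 A (t j))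
    (hsl : ∀ i, i ∉ range t → dt (alp s lam A i) w < bet s lam w00 A i) :
    Vtx A t (toX lam w00 w) where
  inj := hinj
  tight := fun j => by rw [dotE_A_toX w00 A (hs _) hl, hw j, sub_self, zero_div, add_zero]
  slack := fun i hi => by
    rw [dotE_A_toX w00 A (hs _) hl]
    have := div_neg_of_neg_of_pos (sub_neg_of_lt (hsl i hi)) (hs i)
    linarith
  nd := by
    intro d hd
    have h0 : (fun j => d j) = (0 : Fin n → ℝ) := by
      apply condK_zero hK
      intro j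
      have := hd j
      have e : dotE (A (t j)) d = dt (A (t j)) (fun j => d j) := rfl
      rw [dt_alp, ← e, this, mul_zero]
    ext j
    exact congrFun h0 j

/-- The robust path theorem. -/
theorem robust_path {α0 : ι → Fin n → ℝ} {β0 : ι → ℝ} {c0 : Fin n → ℝ} {H η : ℝ}
    {s : ι → ℝ} {lam kap : ℝ} {w00 : Fin n → ℝ} {A : ι → Fin n → ℝ} {c : Fin n → ℝ}
    (hs : ∀ i, 0 < s i) (hl : 0 < lam) (hkap : 0 < kap)
    (hN : Near α0 (alp s lam A) β0 (bet s lam w00 A) c0 (fun j => c j / kap) H η)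
    {N : ℕ} {t : ℕ → Fin n → ι} {w0 : ℕ → Fin n → ℝ} {D0 : ℕ → Fin n → Fin n → ℝ}
    {pos : ℕ → Fin n}
    (hV : ∀ k ≤ N, GoodV α0 β0 H (t k) (w0 k))
    (hD : ∀ k < N, GoodD α0 c0 (t k) (D0 k) (pos k))
    (hex : ∀ k < N, ∀ j, j ≠ pos k → t (k + 1) j = t k j)
    (hnew : ∀ k < N, t (k + 1) (pos k) ∉ range (t k)) :
    ∃ v : ℕ → E n, (∃ w, (∀ j, dt (alp s lam A (t 0 j)) w = bet s lam w00 A (t 0 j)) ∧
        v 0 = toX lam w00 w) ∧ (∀ k ≤ N, v k ∈ vertices A) ∧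
      ∀ k < N, IsSteepest A c (v k) (v (k + 1)) := by
  have h1 : ∀ k, ∃ w : Fin n → ℝ, k ≤ N → (∀ j, dt (alp s lam A (t k j)) w =
      bet s lam w00 A (t k j)) ∧ Vtx A (t k) (toX lam w00 w) := by
    intro k
    by_cases hk : k ≤ N
    · obtain ⟨w, hw, hsl, -⟩ := (hV k hk).pert hN
      exact ⟨w, fun _ => ⟨hw, vtx_of hs hl (hV k hk).inj (hN.condK (hV k hk).hK) hw hsl⟩⟩
    · exact ⟨0, fun h => absurd h hk⟩
  choose w hw using h1
  refine ⟨fun k => toX lam w00 (w k), ⟨w 0, (hw 0 (Nat.zero_le _)).1, rfl⟩,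
    fun k hk => (hw k hk).2.mem_vertices, ?_⟩
  intro k hk
  obtain ⟨D, hD1, hD2, hD3, hD4⟩ := (hD k hk).pert hN (hV k hk.le).hK
  have hck : ∀ d : Fin n → ℝ, dotE c (WithLp.toLp 2 d) = kap * dt (fun j => c j / kap) d := by
    intro d
    rw [dotE_eq_dt]
    simp only [dt, Finset.mul_sum]
    exact Finset.sum_congr rfl fun j _ => by field_simp
  have hnrm : ∀ d : Fin n → ℝ, ‖(WithLp.toLp 2 d : E n)‖ ^ 2 = nsq d := by
    intro d
    rw [EuclideanSpace.norm_sq_eq]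
    simp [nsq]
  refine isSteepest_of (hw k hk.le).2 (hw (k + 1) hk).2 (pos k) (hex k hk) (hnew k hk)
    (fun p => WithLp.toLp 2 (D p)) ?_ ?_ ?_ ?_
  · intro p j hj
    rw [dotE_eq_dt, dt_A A (hs _) hl, hD1 p j hj, mul_zero]
  · intro p
    rw [dotE_eq_dt, dt_A A (hs _) hl]
    exact mul_neg_of_pos_of_neg (div_pos hl (hs _)) (hD2 p)
  · rw [hck]
    exact mul_pos hkap hD3
  · intro p hp
    rw [hck, hck, hnrm, hnrm]
    rcases hD4 p hp with h | h
    · left
      exact mul_nonpos_of_nonneg_of_nonpos hkap.le h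
    · right
      rw [mul_pow, mul_pow]
      have : 0 < kap ^ 2 := by positivity
      nlinarith

end Pool.Agent.MP42
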