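import Pool.Agent.MP_42ca66_lc.Dirs
import Pool.Agent.MP_42ca66_lc.Trans

/-!
The exponentially long steepest-edge path.
-/

namespace Pool.Agent.MP42

open Finset

/-- The lowest zero bit and the effect of adding one. -/
lemma low_bit (k : ℕ) : ∃ i, (∀ j < i, Nat.testBit k j = true) ∧ Nat.testBit k i = false ∧
    (∀ j, i < j → Nat.testBit (k + 1) j = Nat.testBit k j) ∧ Nat.testBit (k + 1) i = true ∧
    (∀ j < i, Nat.testBit (k + 1) j = false) := by
  induction k using Nat.strong_induction_on with
  | _ k ih =>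
    rcases Nat.even_or_odd' k with ⟨m, hm | hm⟩
    · refine ⟨0, by simp, ?_, ?_, ?_, by simp⟩
      · rw [hm, Nat.testBit_zero]; simp
      · intro j hj
        obtain ⟨j, rfl⟩ : ∃ j', j = j' + 1 := ⟨j - 1, by omega⟩
        rw [Nat.testBit_succ, Nat.testBit_succ]
        congr 1
        omega
      · rw [hm, Nat.testBit_zero]
        simp
    · obtain ⟨i, h1, h2, h3, h4, h5⟩ := ih m (by omega)
      have e1 : k / 2 = m := by omega
      have e2 : (k + 1) / 2 = m + 1 := by omega
      refine ⟨i + 1, ?_, ?_, ?_, ?_, ?_⟩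
      · intro j hj
        rcases j with _ | j
        · rw [hm, Nat.testBit_zero]
          simp
        · rw [Nat.testBit_succ, e1]
          exact h1 j (by omega)
      · rw [Nat.testBit_succ, e1]; exact h2
      · intro j hj
        obtain ⟨j, rfl⟩ : ∃ j', j = j' + 1 := ⟨j - 1, by omega⟩
        rw [Nat.testBit_succ, Nat.testBit_succ, e1, e2]
        exact h3 j (by omega)
      · rw [Nat.testBit_succ, e2]; exact h4
      · intro j hj
        rcases j with _ | j
        · rw [hm, Nat.testBit_zero]
          simp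
          omega
        · rw [Nat.testBit_succ, e2]
          exact h5 j (by omega)

/-- The states. -/
def tS (p : ℕ) : ℕ → Fin (p + 1) → Row p
  | 0 => stS p
  | k + 1 => stU p (gray (Nat.testBit k))

/-- The centre vertices. -/
noncomputable def wS (p : ℕ) : ℕ → Fin (p + 1) → ℝ
  | 0 => vec p 1 0
  | k + 1 => vec p 0 (fun l => zt p * Yv p (gray (Nat.testBit k)) l)

lemma stU_succ_true {p : ℕ} {u : ℕ → Bool} {l : Fin p} (h : u l = true) :
    stU p u l.succ = .inl (.inr l) := by simp [stU, h]

lemma stU_succ_false {p : ℕ} {u : ℕ → Bool} {l : Fin p} (h : u l = false) :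
    stU p u l.succ = .inl (.inl l) := by simp [stU, h]

lemma step_data {p : ℕ} (hp : 8 ≤ p) (k : ℕ) (hk : k < 2 ^ p) :
    ∃ (D : Fin (p + 1) → Fin (p + 1) → ℝ) (pos : Fin (p + 1)),
      GoodD (al0 p) (cc0 p) (tS p k) D pos ∧ (∀ j, j ≠ pos → tS p (k + 1) j = tS p k j) ∧
      tS p (k + 1) pos ∉ Set.range (tS p k) := by
  rcases k with _ | k
  · refine ⟨DS p, 0, goodD_S hp, ?_, ?_⟩
    · intro j
      refine Fin.cases ?_ (fun j => ?_) j
      · intro h; exact absurd rfl h
      · intro _
        have : gray (Nat.testBit 0) j = false := by simp [gray]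
        rw [tS, tS, stU_succ_false this]
        rfl
    · rintro ⟨j, hj⟩
      revert hj
      refine Fin.cases ?_ (fun j => ?_) j
      · intro h
        simp [tS, stS, stU] at h
      · intro h
        simp [tS, stS, stU] at h
  · obtain ⟨i, h1, h2, h3, h4, h5⟩ := low_bit k
    have hq : Nat.testBit k p = false := Nat.testBit_lt_two_pow (by omega)
    have hip : i < p := by
      by_contra hge
      have : Nat.testBit (k + 1) i = false :=
        Nat.testBit_lt_two_pow (lt_of_lt_of_le hk (Nat.pow_le_pow_right (by norm_num) (by omega)))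
      rw [this] at h4
      simp at h4
    have hsame : ∀ j, j ≠ i → gray (Nat.testBit (k + 1)) j = gray (Nat.testBit k) j := by
      intro j hj
      unfold gray
      rcases lt_or_gt_of_ne hj with hlt | hgt
      · rcases lt_or_eq_of_le (show j + 1 ≤ i from hlt) with hlt' | heq
        · rw [h5 j hlt, h5 (j + 1) hlt', h1 j hlt, h1 (j + 1) hlt']; rfl
        · rw [heq, h5 j hlt, h4, h1 j hlt, h2]; rfl
      · rw [h3 j hgt, h3 (j + 1) (by omega)]
    have hdiff : gray (Nat.testBit (k + 1)) i = !gray (Nat.testBit k) i := by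
      unfold gray
      rw [h4, h2, h3 (i + 1) (by omega)]
      simp
    refine ⟨DU p (gray (Nat.testBit k)), Fin.succ ⟨i, hip⟩,
      goodD_U hp hq ⟨i, hip⟩ h2 h1, ?_, ?_⟩
    · intro j
      refine Fin.cases ?_ (fun j => ?_) j
      · intro _; rfl
      · intro hj
        have hji : (j : ℕ) ≠ i := by
          intro e
          apply hj
          congr 1
          exact Fin.ext e
        have := hsame j hji
        rw [tS, tS]
        cases hb : gray (Nat.testBit k) j
        · rw [stU_succ_false hb, stU_succ_false (by rw [this, hb])]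
        · rw [stU_succ_true hb, stU_succ_true (by rw [this, hb])]
    · rintro ⟨j, hj⟩
      rw [tS, tS] at hj
      have hd' : gray (Nat.testBit (k + 1)) ((⟨i, hip⟩ : Fin p) : ℕ)
        = !gray (Nat.testBit k) ((⟨i, hip⟩ : Fin p) : ℕ) := hdiff
      cases hb : gray (Nat.testBit k) ((⟨i, hip⟩ : Fin p) : ℕ)
      · rw [hb] at hd'
        rw [stU_succ_true hd'] at hj
        revert hj
        refine Fin.cases ?_ (fun j => ?_) j
        · intro h; simp [stU] at h
        · intro h
          cases hbj : gray (Nat.testBit k) j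
          · rw [stU_succ_false hbj] at h; simp at h
          · rw [stU_succ_true hbj] at h
            simp only [Sum.inl.injEq, Sum.inr.injEq] at h
            rw [h] at hbj
            rw [hbj] at hb
            simp at hb
      · rw [hb] at hd'
        rw [stU_succ_false hd'] at hj
        revert hj
        refine Fin.cases ?_ (fun j => ?_) j
        · intro h; simp [stU] at h
        · intro h
          cases hbj : gray (Nat.testBit k) j
          · rw [stU_succ_false hbj] at h
            simp only [Sum.inl.injEq] at h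
            rw [h] at hbj
            rw [hbj] at hb
            simp at hb
          · rw [stU_succ_true hbj] at h; simp at h

theorem long_path {p : ℕ} (hp : 8 ≤ p) {s : Row p → ℝ} {lam kap η : ℝ} {w00 : Fin (p + 1) → ℝ}
    {A : Row p → Fin (p + 1) → ℝ} {c : Fin (p + 1) → ℝ}
    (hs : ∀ i, 0 < s i) (hl : 0 < lam) (hkap : 0 < kap)
    (hN : Near (al0 p) (alp s lam A) (be0 p) (bet s lam w00 A) (cc0 p) (fun j => c j / kap)
      (Hb p) η) :
    ∃ v : ℕ → E (p + 1), (∃ w, (∀ j, dt (alp s lam A (stS p j)) w = bet s lam w00 A (stS p j)) ∧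
        v 0 = toX lam w00 w) ∧ (∀ k ≤ 2 ^ p, v k ∈ vertices A) ∧
      ∀ k < 2 ^ p, IsSteepest A c (v k) (v (k + 1)) := by
  have h1 : ∀ k, ∃ (D : Fin (p + 1) → Fin (p + 1) → ℝ) (pos : Fin (p + 1)), k < 2 ^ p →
      GoodD (al0 p) (cc0 p) (tS p k) D pos ∧ (∀ j, j ≠ pos → tS p (k + 1) j = tS p k j) ∧
      tS p (k + 1) pos ∉ Set.range (tS p k) := by
    intro k
    by_cases hk : k < 2 ^ p
    · obtain ⟨D, pos, h⟩ := step_data hp k hk
      exact ⟨D, pos, fun _ => h⟩
    · exact ⟨fun _ _ => 0, 0, fun h => absurd h hk⟩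
  choose D pos hD using h1
  have := robust_path (t := tS p) (w0 := wS p) (D0 := D) (pos := pos) (N := 2 ^ p)
    hs hl hkap hN ?_ (fun k hk => (hD k hk).1) (fun k hk => (hD k hk).2.1)
    (fun k hk => (hD k hk).2.2)
  · exact this
  · intro k _
    rcases k with _ | k
    · exact goodV_S hp
    · exact goodV_U hp _

end Pool.Agent.MP42
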