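import Pool.Agent.MP_42ca66_lc.Geom
import Pool.Agent.MP_42ca66_lc.Long

/-!
The two boxes in the original coordinates.
-/

namespace Pool.Agent.MP42

open Finset

/-- The interior base point. -/
noncomputable def wb (p : ℕ) : Fin (p + 1) → ℝ := vec p (1 / 2) (fun _ => 1 / (128 * p))

/-- The slacks of the base point. -/
noncomputable def sb (p : ℕ) (i : Row p) : ℝ := be0 p i - dt (al0 p i) (wb p)

/-- The scaling. -/
noncomputable def lm (p : ℕ) : ℝ := 1 / (2 ^ 18 * ((p:ℝ) + 1) ^ 3)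

/-- The centre matrix. -/
noncomputable def Abar (p : ℕ) (i : Row p) (j : Fin (p + 1)) : ℝ := lm p / sb p i * al0 p i j

/-- The centre objective. -/
noncomputable def cbar (p : ℕ) (j : Fin (p + 1)) : ℝ := lm p * cc0 p j

/-- The large radius. -/
noncomputable def rr (p : ℕ) : ℝ := 1 / (2 ^ 42 * ((p:ℝ) + 1) ^ 8)

/-- The small radius. -/
noncomputable def tau (p : ℕ) : ℝ := 1 / (2 ^ 20 * ((p:ℝ) + 1) ^ 5 * Hb p ^ 20)

section

variable {p : ℕ}

lemma lm_pos (p : ℕ) : 0 < lm p := by unfold lm; positivity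

lemma sb_bounds (hp : 8 ≤ p) (i : Row p) : 1 / (128 * p) ≤ sb p i ∧ sb p i ≤ 4 * p := by
  have hp' : (8:ℝ) ≤ p := by exact_mod_cast hp
  have h128 : 1 / (128 * (p:ℝ)) ≤ 1 / 1024 := one_div_le_one_div_of_le (by norm_num) (by linarith)
  have h128' : 0 < 1 / (128 * (p:ℝ)) := by positivity
  unfold sb
  rcases i with (l | l) | k
  · have e : be0 p (.inl (.inl l)) = 0 := rfl
    rw [wb, dt_lower, e]
    constructor <;> linarith
  · have e : be0 p (.inl (.inr l)) = zt p * (256 * p) ^ (l : ℕ) := rfl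
    rw [wb, dt_upper, e, sum_const, card_range, nsmul_eq_mul]
    have hz := zt_pos hp
    have h1 := zt_small hp (l.2.le)
    have h3 : 0 ≤ zt p * (256 * (p:ℝ)) ^ (l : ℕ) := by positivity
    have h4 : 64 * (p:ℝ) * (((l:ℕ):ℝ) * (1 / (128 * p))) = ((l:ℕ):ℝ) / 2 := by
      field_simp
      ring
    rw [h4]
    have h5 : (((l:ℕ):ℝ)) ≤ p := by exact_mod_cast l.2.le
    have h6 : (0:ℝ) ≤ ((l:ℕ):ℝ) := Nat.cast_nonneg _
    constructor <;> linarith
  · fin_cases k
    · change 1 / (128 * (p:ℝ)) ≤ be0 p (.inr 0) - dt (al0 p (.inr 0)) (wb p) ∧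
        be0 p (.inr 0) - dt (al0 p (.inr 0)) (wb p) ≤ 4 * p
      have e : be0 p (.inr 0) = 0 := by simp [be0]
      rw [wb, dt_bottom, e]
      constructor <;> linarith
    · change 1 / (128 * (p:ℝ)) ≤ be0 p (.inr 1) - dt (al0 p (.inr 1)) (wb p) ∧
        be0 p (.inr 1) - dt (al0 p (.inr 1)) (wb p) ≤ 4 * p
      have e : be0 p (.inr 1) = 1 := by simp [be0]
      rw [wb, dt_top, e]
      constructor <;> linarith
    · change 1 / (128 * (p:ℝ)) ≤ be0 p (.inr 2) - dt (al0 p (.inr 2)) (wb p) ∧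
        be0 p (.inr 2) - dt (al0 p (.inr 2)) (wb p) ≤ 4 * p
      have e : be0 p (.inr 2) = 6 := by simp [be0]
      rw [wb, dt_side (by omega), e, sum_const, card_range, nsmul_eq_mul]
      have h1 : ((p - 1 : ℕ) : ℝ) = p - 1 := by
        rw [Nat.cast_sub (by omega)]; simp
      rw [h1]
      have h2 : 512 * (((p:ℝ) - 1) * (1 / (128 * p))) = 4 - 4 * (1 / (p:ℝ)) := by
        field_simp
        ring
      rw [h2]
      have h3 : 0 < 1 / (p:ℝ) := by positivity
      have h4 : 1 / (p:ℝ) ≤ 1 / 8 := one_div_le_one_div_of_le (by norm_num) hp'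
      constructor <;> linarith

lemma sb_pos (hp : 8 ≤ p) (i : Row p) : 0 < sb p i := by
  have hp' : (8:ℝ) ≤ p := by exact_mod_cast hp
  exact lt_of_lt_of_le (by positivity) (sb_bounds hp i).1

lemma wb_abs (hp : 8 ≤ p) (j : Fin (p + 1)) : |wb p j| ≤ 1 := by
  have hp' : (8:ℝ) ≤ p := by exact_mod_cast hp
  have h128 : 1 / (128 * (p:ℝ)) ≤ 1 / 1024 := one_div_le_one_div_of_le (by norm_num) (by linarith)
  refine Fin.cases ?_ (fun l => ?_) j
  · rw [wb, vec_zero, abs_of_pos (by norm_num)]; norm_num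
  · rw [wb, vec_succ, abs_of_pos (by positivity)]; linarith

/-- Closeness in the `w`-coordinates. -/
lemma near_w (hp : 8 ≤ p) {A : Row p → Fin (p + 1) → ℝ} {c : Fin (p + 1) → ℝ} {t : ℝ}
    (ht : 0 ≤ t) (hA : ∀ i j, |A i j - Abar p i j| ≤ t) (hc : ∀ j, |c j - cbar p j| ≤ t) :
    (∀ i j, |alp (sb p) (lm p) A i j - al0 p i j| ≤ 2 ^ 20 * ((p:ℝ) + 1) ^ 5 * t) ∧
    (∀ i, |bet (sb p) (lm p) (wb p) A i - be0 p i| ≤ 2 ^ 20 * ((p:ℝ) + 1) ^ 5 * t) ∧
    (∀ j, |c j / lm p - cc0 p j| ≤ 2 ^ 20 * ((p:ℝ) + 1) ^ 5 * t) := by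
  have hp' : (8:ℝ) ≤ p := by exact_mod_cast hp
  have hl := lm_pos p
  set n : ℝ := (p:ℝ) + 1 with hn
  have hn9 : 9 ≤ n := by rw [hn]; linarith
  have hcast : ((p + 1 : ℕ) : ℝ) = n := by rw [hn]; push_cast; ring
  have hlm : 1 / lm p = 2 ^ 18 * n ^ 3 := by rw [lm, one_div_one_div]
  have h1 : ∀ i j, |alp (sb p) (lm p) A i j - al0 p i j| ≤ 2 ^ 20 * n ^ 4 * t := by
    intro i j
    have hs := sb_pos hp i
    have e : alp (sb p) (lm p) A i j - al0 p i j
        = sb p i * (1 / lm p) * (A i j - Abar p i j) := by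
      rw [alp, Abar]
      field_simp
    rw [e, abs_mul, abs_of_pos (by positivity), hlm]
    have h2 := (sb_bounds hp i).2
    calc sb p i * (2 ^ 18 * n ^ 3) * |A i j - Abar p i j|
        ≤ (4 * n) * (2 ^ 18 * n ^ 3) * t := by
          apply mul_le_mul _ (hA i j) (abs_nonneg _) (by positivity)
          apply mul_le_mul_of_nonneg_right _ (by positivity)
          rw [hn]; linarith
      _ = 2 ^ 20 * n ^ 4 * t := by ring
  have h45 : 2 ^ 20 * n ^ 4 * t ≤ 2 ^ 20 * n ^ 5 * t := by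
    apply mul_le_mul_of_nonneg_right _ ht
    apply mul_le_mul_of_nonneg_left _ (by norm_num)
    exact pow_le_pow_right₀ (by linarith) (by norm_num)
  refine ⟨fun i j => (h1 i j).trans h45, ?_, ?_⟩
  · intro i
    have e : bet (sb p) (lm p) (wb p) A i - be0 p i
        = dt (fun j => alp (sb p) (lm p) A i j - al0 p i j) (wb p) := by
      rw [dt_sub_left, bet, sb]; ring
    rw [e]
    refine (abs_dt_le (h1 i) (wb_abs hp)).trans ?_
    rw [hcast]
    apply le_of_eq
    ring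
  · intro j
    have e : c j / lm p - cc0 p j = (1 / lm p) * (c j - cbar p j) := by
      rw [cbar]
      field_simp
    rw [e, abs_mul, abs_of_pos (by positivity), hlm]
    calc 2 ^ 18 * n ^ 3 * |c j - cbar p j| ≤ 2 ^ 20 * n ^ 5 * t := by
          apply mul_le_mul _ (hc j) (abs_nonneg _) (by positivity)
          apply mul_le_mul (by norm_num) _ (by positivity) (by positivity)
          exact pow_le_pow_right₀ (by linarith) (by norm_num)

lemma nearS_of (hp : 8 ≤ p) {A : Row p → Fin (p + 1) → ℝ} {c : Fin (p + 1) → ℝ} {t : ℝ}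
    (ht : 0 ≤ t) (htr : t ≤ rr p) (hA : ∀ i j, |A i j - Abar p i j| ≤ t)
    (hc : ∀ j, |c j - cbar p j| ≤ t) :
    NearS p (alp (sb p) (lm p) A) (bet (sb p) (lm p) (wb p) A) (fun j => c j / lm p)
      (2 ^ 20 * ((p:ℝ) + 1) ^ 5 * t) := by
  obtain ⟨h1, h2, h3⟩ := near_w hp ht hA hc
  refine ⟨by positivity, ?_, h1, h2, h3⟩
  have hp' : (8:ℝ) ≤ p := by exact_mod_cast hp
  set n : ℝ := (p:ℝ) + 1 with hn
  have hn9 : 9 ≤ n := by rw [hn]; linarith
  calc 2050 * n ^ 3 * (2 ^ 20 * n ^ 5 * t) = 2050 * 2 ^ 20 * (n ^ 8 * t) := by ring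
    _ ≤ 2050 * 2 ^ 20 * (n ^ 8 * rr p) := by
        apply mul_le_mul_of_nonneg_left _ (by norm_num)
        exact mul_le_mul_of_nonneg_left htr (by positivity)
    _ = 2050 * 2 ^ 20 * (1 / 2 ^ 42) := by
        rw [rr, ← hn]
        congr 1
        field_simp
    _ ≤ 1 / 1000 := by norm_num

/-- Membership in the polyhedron in the two coordinate systems. -/
lemma mem_poly_iff (hp : 8 ≤ p) {A : Row p → Fin (p + 1) → ℝ} (w : Fin (p + 1) → ℝ) :
    toX (lm p) (wb p) w ∈ poly A ↔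
      ∀ i, dt (alp (sb p) (lm p) A i) w ≤ bet (sb p) (lm p) (wb p) A i := by
  constructor
  · intro h i
    have h1 := h i
    rw [dotE_A_toX (wb p) A (sb_pos hp i) (lm_pos p)] at h1
    have h2 : (dt (alp (sb p) (lm p) A i) w - bet (sb p) (lm p) (wb p) A i) / sb p i ≤ 0 := by
      linarith
    rw [div_le_iff₀ (sb_pos hp i)] at h2
    linarith
  · intro h i
    rw [dotE_A_toX (wb p) A (sb_pos hp i) (lm_pos p)]
    have h2 : (dt (alp (sb p) (lm p) A i) w - bet (sb p) (lm p) (wb p) A i) / sb p i ≤ 0 := by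
      rw [div_le_iff₀ (sb_pos hp i)]
      linarith [h i]
    linarith

/-- In the large box the shadow has at most three vertices. -/
theorem shadow_box (hp : 8 ≤ p) {A : Row p → Fin (p + 1) → ℝ} {c : Fin (p + 1) → ℝ}
    (hA : ∀ i j, |A i j - Abar p i j| ≤ rr p) (hc : ∀ j, |c j - cbar p j| ≤ rr p) :
    shadowSize A (zz p) c ≤ 3 := by
  have hr0 : 0 ≤ rr p := by unfold rr; positivity
  have hN := nearS_of hp hr0 le_rfl hA hc
  obtain ⟨v, va, vb, -, hv, hva, hvb, htri, -, -⟩ := box_geom hp hN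
  have hl := lm_pos p
  refine shadow_le_three (v := toX (lm p) (wb p) v) (va := toX (lm p) (wb p) va)
    (vb := toX (lm p) (wb p) vb) ((mem_poly_iff hp v).mpr hv) ((mem_poly_iff hp va).mpr hva)
    ((mem_poly_iff hp vb).mpr hvb) ?_
  intro y hy
  have hyW : toX (lm p) (wb p) (toW (lm p) (wb p) y) = y := toX_toW hl _ _
  rw [← hyW] at hy
  obtain ⟨a, b, d, ha, hb, hd, hsum, hz, hc'⟩ := htri _ ((mem_poly_iff hp _).mp hy)
  refine ⟨a, b, d, ha, hb, hd, hsum, ?_, ?_⟩
  · rw [← hyW, dotE_toX, dotE_toX, dotE_toX, dotE_toX, hz]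
    have : a = 1 - b - d := by linarith
    rw [this]
    ring
  · have hcc : ∀ w, dt c w = lm p * dt (fun j => c j / lm p) w := by
      intro w
      simp only [dt, mul_sum]
      exact sum_congr rfl fun j _ => by field_simp
    rw [← hyW, dotE_toX, dotE_toX, dotE_toX, dotE_toX, hcc, hcc v, hcc va, hcc vb, hc']
    have : a = 1 - b - d := by linarith
    rw [this]
    ring

lemma near_of (hp : 8 ≤ p) {A : Row p → Fin (p + 1) → ℝ} {c : Fin (p + 1) → ℝ}
    (hA : ∀ i j, |A i j - Abar p i j| ≤ tau p)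
    (hc : ∀ j, |c j - cbar p j| ≤ tau p) :
    Near (al0 p) (alp (sb p) (lm p) A) (be0 p) (bet (sb p) (lm p) (wb p) A) (cc0 p)
      (fun j => c j / lm p) (Hb p) (2 ^ 20 * ((p:ℝ) + 1) ^ 5 * tau p) := by
  have hp' : (8:ℝ) ≤ p := by exact_mod_cast hp
  have hH1 := (Hb_big hp).1
  have ht : 0 ≤ tau p := by unfold tau; positivity
  obtain ⟨h1, h2, h3⟩ := near_w hp ht hA hc
  have hbig : 512 * ((p:ℝ) + 1) ≤ Hb p := by
    have e : Hb p = (512 * p) ^ 2 * (512 * p) ^ p := by rw [Hb, pow_add, mul_comm]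
    have h3 : (1:ℝ) ≤ (512 * p) ^ p := one_le_pow₀ (by linarith)
    have h4 : 512 * ((p:ℝ) + 1) ≤ (512 * p) ^ 2 := by nlinarith
    rw [e]
    nlinarith
  refine ⟨by linarith, ?_, fun i j => (al0_abs hp i j).trans hbig,
    fun j => (cc0_abs hp j).trans hbig, by positivity, ?_, h1, h2, h3⟩
  · push_cast
    linarith
  · apply le_of_eq
    rw [tau]
    field_simp

lemma tau_le_rr (hp : 8 ≤ p) : tau p ≤ rr p := by
  have hp' : (8:ℝ) ≤ p := by exact_mod_cast hp
  have hH1 := (Hb_big hp).1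
  unfold tau rr
  apply one_div_le_one_div_of_le (by positivity)
  have hH : 512 * ((p:ℝ) + 1) ≤ Hb p := by
    have e : Hb p = (512 * p) ^ 2 * (512 * p) ^ p := by rw [Hb, pow_add, mul_comm]
    have h3 : (1:ℝ) ≤ (512 * p) ^ p := one_le_pow₀ (by linarith)
    have h4 : 512 * ((p:ℝ) + 1) ≤ (512 * p) ^ 2 := by nlinarith
    rw [e]
    nlinarith
  have h20 : (512 * ((p:ℝ) + 1)) ^ 3 ≤ Hb p ^ 20 := by
    calc (512 * ((p:ℝ) + 1)) ^ 3 ≤ Hb p ^ 3 := pow_le_pow_left₀ (by positivity) hH 3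
      _ ≤ Hb p ^ 20 := pow_le_pow_right₀ hH1 (by norm_num)
  calc 2 ^ 42 * ((p:ℝ) + 1) ^ 8 ≤ 2 ^ 20 * ((p:ℝ) + 1) ^ 5 * (512 * ((p:ℝ) + 1)) ^ 3 := by
        have : 2 ^ 20 * ((p:ℝ) + 1) ^ 5 * (512 * ((p:ℝ) + 1)) ^ 3
          = 2 ^ 47 * ((p:ℝ) + 1) ^ 8 := by ring
        rw [this]
        apply mul_le_mul_of_nonneg_right (by norm_num) (by positivity)
    _ ≤ _ := mul_le_mul_of_nonneg_left h20 (by positivity)

/-- In the small box the path is exponentially long and `Q` is bounded. -/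
theorem path_box (hp : 8 ≤ p) {A : Row p → Fin (p + 1) → ℝ} {c : Fin (p + 1) → ℝ}
    (hA : ∀ i j, |A i j - Abar p i j| ≤ tau p) (hc : ∀ j, |c j - cbar p j| ≤ tau p) :
    ((2 ^ p - 1 : ℕ) : ℕ∞) < pathLen A c (zz p) ∧ Bornology.IsBounded (poly A) := by
  have ht : 0 ≤ tau p := by
    have := (Hb_big hp).1
    unfold tau; positivity
  have hl := lm_pos p
  have hN := nearS_of hp ht (tau_le_rr hp) hA hc
  obtain ⟨v0, va, vb, huniq, hv, hva, hvb, htri, hmax, hbd⟩ := box_geom hp hN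
  obtain ⟨v, ⟨w, hw, hv0⟩, hvert, hstep⟩ := long_path hp (fun i => sb_pos hp i) hl hl
    (near_of hp hA hc)
  have hwv : w = v0 := huniq w hw
  constructor
  · apply lt_pathLen (k := 2 ^ p) (v := v)
    · refine ⟨⟨hvert 0 (Nat.zero_le _), ?_⟩, hstep⟩
      intro y hy hne
      have hyW : toX (lm p) (wb p) (toW (lm p) (wb p) y) = y := toX_toW hl _ _
      have hne' : toW (lm p) (wb p) y ≠ v0 := by
        intro e
        apply hne
        rw [← hyW, e, hv0, hwv]
      rw [← hyW] at hy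
      have := hmax _ ((mem_poly_iff hp _).mp hy) hne'
      rw [hv0, hwv, ← hyW, dotE_toX, dotE_toX]
      apply div_lt_div_of_pos_right _ hl
      linarith
    · have : 0 < 2 ^ p := by positivity
      omega
  · rw [isBounded_iff_forall_norm_le]
    refine ⟨1 + (p + 1) * (31 / lm p) ^ 2, ?_⟩
    intro y hy
    have hyW : toX (lm p) (wb p) (toW (lm p) (wb p) y) = y := toX_toW hl _ _
    have hy' := hy
    rw [← hyW] at hy'
    have h1 := hbd _ ((mem_poly_iff hp _).mp hy')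
    have h2 : ∀ k, |y k| ≤ 31 / lm p := by
      intro k
      have h3 := h1 k
      have h4 := wb_abs hp k
      have e : y k = (toW (lm p) (wb p) y k - wb p k) / lm p := by
        rw [toW]; field_simp; ring
      rw [e, abs_div, abs_of_pos hl]
      apply div_le_div_of_nonneg_right _ hl.le
      have := abs_sub (toW (lm p) (wb p) y k) (wb p k)
      linarith
    have h3 : ‖y‖ ^ 2 ≤ (p + 1) * (31 / lm p) ^ 2 := by
      rw [EuclideanSpace.norm_sq_eq]
      calc ∑ k, ‖y k‖ ^ 2 ≤ ∑ _k : Fin (p + 1), (31 / lm p) ^ 2 := by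
            apply sum_le_sum
            intro k _
            rw [Real.norm_eq_abs]
            exact pow_le_pow_left₀ (abs_nonneg _) (h2 k) 2
        _ = (p + 1) * (31 / lm p) ^ 2 := by simp
    nlinarith [sq_nonneg (‖y‖ - 1), norm_nonneg y]

/-- The Frobenius norm of the centre. -/
theorem frob (hp : 8 ≤ p) : ∑ i, ∑ j, Abar p i j ^ 2 + ∑ j, cbar p j ^ 2 ≤ 1 := by
  have hp' : (8:ℝ) ≤ p := by exact_mod_cast hp
  have hl := lm_pos p
  set n : ℝ := (p:ℝ) + 1 with hn
  have hn9 : 9 ≤ n := by rw [hn]; linarith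
  have h1 : ∀ i j, Abar p i j ^ 2 ≤ 1 / (16 * n ^ 2) := by
    intro i j
    have hs := sb_pos hp i
    have hs1 := (sb_bounds hp i).1
    have hs2 : 1 / sb p i ≤ 128 * n := by
      rw [div_le_iff₀ hs]
      have : 1 = 128 * (p:ℝ) * (1 / (128 * p)) := by field_simp
      calc (1:ℝ) = 128 * (p:ℝ) * (1 / (128 * p)) := this
        _ ≤ 128 * n * sb p i := by
          apply mul_le_mul _ hs1 (by positivity) (by positivity)
          rw [hn]; linarith
    have h2 : |Abar p i j| ≤ 1 / (4 * n) := by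
      rw [Abar, abs_mul, abs_of_pos (by positivity), div_eq_mul_one_div]
      calc lm p * (1 / sb p i) * |al0 p i j| ≤ lm p * (128 * n) * (512 * n) := by
            apply mul_le_mul _ (al0_abs hp i j) (abs_nonneg _) (by positivity)
            exact mul_le_mul_of_nonneg_left hs2 hl.le
        _ = 1 / (4 * n) := by
            rw [lm, ← hn]
            field_simp
            norm_num
    calc Abar p i j ^ 2 = |Abar p i j| ^ 2 := (sq_abs _).symm
      _ ≤ (1 / (4 * n)) ^ 2 := pow_le_pow_left₀ (abs_nonneg _) h2 2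
      _ = 1 / (16 * n ^ 2) := by
          field_simp
          norm_num
  have h3 : ∀ j, cbar p j ^ 2 ≤ 1 / (16 * n ^ 2) := by
    intro j
    have h2 : |cbar p j| ≤ 1 / (4 * n) := by
      rw [cbar, abs_mul, abs_of_pos hl]
      calc lm p * |cc0 p j| ≤ lm p * (512 * n) :=
            mul_le_mul_of_nonneg_left (cc0_abs hp j) hl.le
        _ = 1 / (512 * n ^ 2) := by
            rw [lm, ← hn]
            field_simp
            norm_num
        _ ≤ 1 / (4 * n) := by
            apply one_div_le_one_div_of_le (by positivity)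
            nlinarith
    calc cbar p j ^ 2 = |cbar p j| ^ 2 := (sq_abs _).symm
      _ ≤ (1 / (4 * n)) ^ 2 := pow_le_pow_left₀ (abs_nonneg _) h2 2
      _ = 1 / (16 * n ^ 2) := by
          field_simp
          norm_num
  have hcard : (Fintype.card (Row p) : ℝ) ≤ 3 * n := by
    have : Fintype.card (Row p) = p + p + 3 := by simp [Row]
    rw [this, hn]
    push_cast
    linarith
  have e1 : ∑ i : Row p, ∑ j, Abar p i j ^ 2 ≤ 3 / 16 := by
    calc ∑ i : Row p, ∑ j, Abar p i j ^ 2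
        ≤ ∑ _i : Row p, ∑ _j : Fin (p + 1), 1 / (16 * n ^ 2) :=
          sum_le_sum fun i _ => sum_le_sum fun j _ => h1 i j
      _ = (Fintype.card (Row p) : ℝ) * (n * (1 / (16 * n ^ 2))) := by
          rw [sum_const, sum_const, card_univ, card_univ, Fintype.card_fin, nsmul_eq_mul,
            nsmul_eq_mul]
          push_cast
          rw [← hn]
      _ ≤ 3 * n * (n * (1 / (16 * n ^ 2))) :=
          mul_le_mul_of_nonneg_right hcard (by positivity)
      _ = 3 / 16 := by field_simp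
  have e2 : ∑ j, cbar p j ^ 2 ≤ 1 / 16 := by
    calc ∑ j, cbar p j ^ 2 ≤ ∑ _j : Fin (p + 1), 1 / (16 * n ^ 2) :=
          sum_le_sum fun j _ => h3 j
      _ = n * (1 / (16 * n ^ 2)) := by
          rw [sum_const, card_univ, Fintype.card_fin, nsmul_eq_mul]
          push_cast
          rw [← hn]
      _ = 1 / (16 * n) := by field_simp
      _ ≤ 1 / 16 := by
          apply one_div_le_one_div_of_le (by norm_num)
          linarith
  linarith

end

end Pool.Agent.MP42
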