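import Mathlib

/-!
The combinatorics of the deformed cube: signed counts, the recursions for slopes and the
inequalities between them.
-/

namespace Pool.Agent.MP42

open Finset

/-- Number of elements `l` of `[a, b)` with `u l`. -/
def cnt (u : ℕ → Bool) (a b : ℕ) : ℕ := ((Ico a b).filter (fun l => u l = true)).card

lemma cnt_self (u : ℕ → Bool) (a : ℕ) : cnt u a a = 0 := by simp [cnt]

lemma cnt_succ_right (u : ℕ → Bool) {a b : ℕ} (h : a ≤ b) :
    cnt u a (b + 1) = cnt u a b + (if u b = true then 1 else 0) := by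
  unfold cnt
  rw [← Finset.insert_Ico_right_eq_Ico_add_one h, Finset.filter_insert]
  split_ifs with hb
  · rw [Finset.card_insert_of_notMem]
    simp
  · simp

lemma cnt_succ_left (u : ℕ → Bool) {a b : ℕ} (h : a < b) :
    cnt u a b = (if u a = true then 1 else 0) + cnt u (a + 1) b := by
  unfold cnt
  rw [← Finset.insert_Ico_add_one_left_eq_Ico h, Finset.filter_insert]
  split_ifs with hb
  · rw [Finset.card_insert_of_notMem, add_comm]
    simp
  · simp

/-- The direction leaving the `i`-th pair. -/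
noncomputable def Dn (u : ℕ → Bool) (e : ℝ) (i j : ℕ) : ℝ :=
  if j < i then 0 else if j = i then 1 else if u j = true then -(e + 1) * (-e) ^ cnt u (i + 1) j
    else 0

lemma sum_Dn (u : ℕ → Bool) (e : ℝ) (i j : ℕ) :
    ∑ l ∈ range j, Dn u e i l = if j ≤ i then 0 else (-e) ^ cnt u (i + 1) j := by
  induction j with
  | zero => simp
  | succ j ih =>
    rw [sum_range_succ, ih]
    rcases lt_trichotomy j i with h | h | h
    · rw [if_pos h.le, if_pos (by omega), Dn, if_pos h, add_zero]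
    · subst h
      rw [if_pos le_rfl, if_neg (by omega), Dn, if_neg (lt_irrefl _), if_pos rfl, cnt_self]
      simp
    · rw [if_neg (by omega), if_neg (by omega), Dn, if_neg (by omega), if_neg (by omega),
        cnt_succ_right u (by omega : i + 1 ≤ j)]
      split_ifs with hu
      · rw [pow_succ]; ring
      · simp

lemma Dn_upper (u : ℕ → Bool) (e : ℝ) {i j : ℕ} (hu : u j = true) :
    Dn u e i j + (e + 1) * ∑ l ∈ range j, Dn u e i l = if j = i then 1 else 0 := by
  rw [sum_Dn]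
  rcases lt_trichotomy j i with h | h | h
  · rw [if_pos h.le, if_neg h.ne, Dn, if_pos h]; ring
  · subst h
    rw [if_pos le_rfl, Dn, if_neg (lt_irrefl _), if_pos rfl, if_pos rfl]; ring
  · rw [if_neg (by omega), if_neg h.ne', Dn, if_neg (by omega), if_neg (by omega), if_pos hu]
    ring

lemma Dn_upper_self (u : ℕ → Bool) (e : ℝ) (i : ℕ) :
    Dn u e i i + (e + 1) * ∑ l ∈ range i, Dn u e i l = 1 := by
  rw [sum_Dn, if_pos le_rfl, Dn, if_neg (lt_irrefl _), if_pos rfl]; ring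

lemma Dn_lower (u : ℕ → Bool) (e : ℝ) {i j : ℕ} (hu : u j = false) :
    Dn u e i j = if j = i then 1 else 0 := by
  rcases lt_trichotomy j i with h | h | h
  · rw [Dn, if_pos h, if_neg h.ne]
  · rw [Dn, if_neg (by omega), if_pos h, if_pos h]
  · rw [Dn, if_neg (by omega), if_neg h.ne', if_neg (by simp [hu]), if_neg h.ne']

/-- The direction leaving the bottom. -/
noncomputable def Bn (u : ℕ → Bool) (e Om : ℝ) (j : ℕ) : ℝ :=
  if u j = true then Om * (-e) ^ cnt u 0 j else 0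

lemma sum_Bn (u : ℕ → Bool) (e Om : ℝ) (j : ℕ) :
    (e + 1) * ∑ l ∈ range j, Bn u e Om l = Om * (1 - (-e) ^ cnt u 0 j) := by
  induction j with
  | zero => simp [cnt_self]
  | succ j ih =>
    rw [sum_range_succ, mul_add, ih, Bn, cnt_succ_right u (Nat.zero_le j)]
    split_ifs with hu
    · rw [pow_succ]; ring
    · simp

/-- Signed sums of the costs. -/
noncomputable def Fs (u : ℕ → Bool) (e : ℝ) (C : ℕ → ℝ) (p i : ℕ) : ℝ :=
  ∑ l ∈ Ico i p, if u l = true then C l * (-e) ^ cnt u i l else 0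

/-- Sums of squares. -/
noncomputable def Gs (u : ℕ → Bool) (e : ℝ) (p i : ℕ) : ℝ :=
  ∑ l ∈ Ico i p, if u l = true then (e ^ 2) ^ cnt u i l else 0

lemma Fs_self (u : ℕ → Bool) (e : ℝ) (C : ℕ → ℝ) (p : ℕ) : Fs u e C p p = 0 := by simp [Fs]

lemma Gs_self (u : ℕ → Bool) (e : ℝ) (p : ℕ) : Gs u e p p = 0 := by simp [Gs]

lemma Fs_rec (u : ℕ → Bool) (e : ℝ) (C : ℕ → ℝ) {p i : ℕ} (h : i < p) :
    Fs u e C p i = if u i = true then C i - e * Fs u e C p (i + 1) else Fs u e C p (i + 1) := by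
  unfold Fs
  rw [sum_eq_sum_Ico_succ_bot h, cnt_self, pow_zero, mul_one]
  have hc : ∀ l ∈ Ico (i + 1) p, cnt u i l = (if u i = true then 1 else 0) + cnt u (i + 1) l := by
    intro l hl
    rw [mem_Ico] at hl
    exact cnt_succ_left u (by omega)
  split_ifs with hu
  · rw [sub_eq_add_neg, ← neg_mul, mul_sum]
    congr 1
    apply sum_congr rfl
    intro l hl
    rw [hc l hl, if_pos hu]
    split_ifs
    · rw [pow_add, pow_one]; ring
    · ring
  · rw [zero_add]
    apply sum_congr rfl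
    intro l hl
    rw [hc l hl, if_neg hu, zero_add]

lemma Gs_rec (u : ℕ → Bool) (e : ℝ) {p i : ℕ} (h : i < p) :
    Gs u e p i = if u i = true then 1 + e ^ 2 * Gs u e p (i + 1) else Gs u e p (i + 1) := by
  unfold Gs
  rw [sum_eq_sum_Ico_succ_bot h, cnt_self, pow_zero]
  have hc : ∀ l ∈ Ico (i + 1) p, cnt u i l = (if u i = true then 1 else 0) + cnt u (i + 1) l := by
    intro l hl
    rw [mem_Ico] at hl
    exact cnt_succ_left u (by omega)
  split_ifs with hu
  · rw [mul_sum]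
    congr 1
    apply sum_congr rfl
    intro l hl
    rw [hc l hl, if_pos hu]
    split_ifs
    · rw [pow_add, pow_one]
    · ring
  · rw [zero_add]
    apply sum_congr rfl
    intro l hl
    rw [hc l hl, if_neg hu, zero_add]

lemma Gs_eq (u : ℕ → Bool) (e : ℝ) {p : ℕ} :
    ∀ i ≤ p, (e ^ 2 - 1) * Gs u e p i = (e ^ 2) ^ cnt u i p - 1 := by
  intro i hi
  induction hi using Nat.decreasingInduction with
  | self => rw [Gs_self, cnt_self]; ring
  | of_succ k hk ih =>
    rw [Gs_rec u e hk, cnt_succ_left u hk]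
    split_ifs with hu
    · rw [pow_add, pow_one]
      linear_combination e ^ 2 * ih
    · rw [zero_add]; exact ih

lemma sum_C_Dn (u : ℕ → Bool) (e : ℝ) (C : ℕ → ℝ) {p i : ℕ} (h : i < p) :
    ∑ l ∈ range p, C l * Dn u e i l = C i - (e + 1) * Fs u e C p (i + 1) := by
  have h1 : ∑ l ∈ range p, C l * Dn u e i l
      = ∑ l ∈ range i, C l * Dn u e i l + ∑ l ∈ Ico i p, C l * Dn u e i l := by
    rw [range_eq_Ico, range_eq_Ico, sum_Ico_consecutive _ (Nat.zero_le _) h.le]
  have h2 : ∑ l ∈ range i, C l * Dn u e i l = 0 := by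
    apply sum_eq_zero
    intro l hl
    rw [mem_range] at hl
    rw [Dn, if_pos hl, mul_zero]
  rw [h1, h2, zero_add, sum_eq_sum_Ico_succ_bot h, Dn, if_neg (lt_irrefl _), if_pos rfl, mul_one,
    sub_eq_add_neg, ← neg_mul, Fs, mul_sum]
  congr 1
  apply sum_congr rfl
  intro l hl
  rw [mem_Ico] at hl
  rw [Dn, if_neg (by omega), if_neg (by omega)]
  split_ifs <;> ring

lemma sum_sq_Dn (u : ℕ → Bool) (e : ℝ) {p i : ℕ} (h : i < p) :
    ∑ l ∈ range p, Dn u e i l ^ 2 = 1 + (e + 1) ^ 2 * Gs u e p (i + 1) := by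
  have h1 : ∑ l ∈ range p, Dn u e i l ^ 2
      = ∑ l ∈ range i, Dn u e i l ^ 2 + ∑ l ∈ Ico i p, Dn u e i l ^ 2 := by
    rw [range_eq_Ico, range_eq_Ico, sum_Ico_consecutive _ (Nat.zero_le _) h.le]
  have h2 : ∑ l ∈ range i, Dn u e i l ^ 2 = 0 := by
    apply sum_eq_zero
    intro l hl
    rw [mem_range] at hl
    rw [Dn, if_pos hl]; ring
  rw [h1, h2, zero_add, sum_eq_sum_Ico_succ_bot h, Dn, if_neg (lt_irrefl _), if_pos rfl, one_pow,
    Gs, mul_sum]
  congr 1
  apply sum_congr rfl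
  intro l hl
  rw [mem_Ico] at hl
  rw [Dn, if_neg (by omega), if_neg (by omega)]
  split_ifs
  · have hsq : ((-e) ^ cnt u (i + 1) l) ^ 2 = (e ^ 2) ^ cnt u (i + 1) l := by
      rw [← pow_mul, mul_comm, pow_mul, neg_sq]
    rw [mul_pow, hsq, neg_sq]
  · ring

lemma sum_C_Bn (u : ℕ → Bool) (e Om : ℝ) (C : ℕ → ℝ) (p : ℕ) :
    ∑ l ∈ range p, C l * Bn u e Om l = Om * Fs u e C p 0 := by
  rw [Fs, mul_sum, range_eq_Ico]
  apply sum_congr rfl
  intro l _
  rw [Bn]
  split_ifs <;> ring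

lemma sum_sq_Bn (u : ℕ → Bool) (e Om : ℝ) (p : ℕ) :
    ∑ l ∈ range p, Bn u e Om l ^ 2 = Om ^ 2 * Gs u e p 0 := by
  rw [Gs, mul_sum, range_eq_Ico]
  apply sum_congr rfl
  intro l _
  rw [Bn]
  split_ifs
  · rw [mul_pow, ← pow_mul, mul_comm (cnt u 0 l) 2, pow_mul, neg_sq]
  · ring

end Pool.Agent.MP42
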