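import Mathlib

/-!
Inequalities between the slopes, from the recursion.
-/

namespace Pool.Agent.MP42

/-- The recursion satisfied by the normalised costs `P` and the counts `rho`. -/
structure Rec (p : ℕ) (q : ℕ → Bool) (rho : ℕ → ℕ) (P : ℕ → ℝ) : Prop where
  hp8 : 8 ≤ p
  q_p : q p = false
  rho_p : rho p = 0
  P_p : P p = 0
  same : ∀ i < p, q i = q (i + 1) → rho i = rho (i + 1) ∧ P i = P (i + 1)
  up : ∀ i < p, q i = true → q (i + 1) = false →
    rho i = rho (i + 1) + 1 ∧ P i = (64 * p - 1) * P (i + 1) + (4 * p - i)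
  down : ∀ i < p, q i = false → q (i + 1) = true →
    rho i = rho (i + 1) + 1 ∧ P i = (64 * p - 1) * P (i + 1) - (4 * p - i)

section

variable {p : ℕ} {q : ℕ → Bool} {rho : ℕ → ℕ} {P : ℕ → ℝ}

lemma Rec.hp (h : Rec p q rho P) : (8:ℝ) ≤ p := by exact_mod_cast h.hp8

/-- Basic bounds. -/
lemma Rec.bound (h : Rec p q rho P) : ∀ i ≤ p, 0 ≤ P i ∧
    (64 * p - 2) * P i ≤ 4 * p * ((64 * p - 1) ^ rho i - 1) ∧
    (1 ≤ rho i → 3 * p ≤ P i) ∧ (q i = true → 1 ≤ rho i) := by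
  have hp := h.hp
  intro i hi
  induction hi using Nat.decreasingInduction with
  | self =>
    rw [h.P_p, h.rho_p, h.q_p]
    refine ⟨le_rfl, by simp, by simp, by simp⟩
  | of_succ k hk ih =>
    obtain ⟨i1, i2, i3, i4⟩ := ih
    have hkp : (k:ℝ) + 1 ≤ p := by exact_mod_cast hk
    have hk0 : (0:ℝ) ≤ k := Nat.cast_nonneg k
    have hpow : (0:ℝ) < (64 * p - 1) ^ rho (k + 1) := pow_pos (by linarith) _
    by_cases hq : q k = q (k + 1)
    · obtain ⟨h1, h2⟩ := h.same k hk hq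
      rw [h1, h2, hq]
      exact ⟨i1, i2, i3, i4⟩
    · cases hq1 : q k
      · cases hq2 : q (k + 1)
        · rw [hq1, hq2] at hq; exact absurd rfl hq
        · obtain ⟨h1, h2⟩ := h.down k hk hq1 hq2
          have h3 := i3 (i4 hq2)
          have hbig : 3 * (p:ℝ) ≤ P k := by
            rw [h2]
            nlinarith
          refine ⟨by linarith, ?_, fun _ => hbig, by simp⟩
          rw [h2, h1, pow_succ]
          nlinarith
      · cases hq2 : q (k + 1)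
        · obtain ⟨h1, h2⟩ := h.up k hk hq1 hq2
          have hbig : 3 * (p:ℝ) ≤ P k := by
            rw [h2]
            nlinarith
          refine ⟨by linarith, ?_, fun _ => hbig, fun _ => by omega⟩
          rw [h2, h1, pow_succ]
          nlinarith
        · rw [hq1, hq2] at hq; exact absurd rfl hq

/-- The potential. -/
noncomputable def Vp (p : ℕ) (q : ℕ → Bool) (rho : ℕ → ℕ) (P : ℕ → ℝ) (i : ℕ) : ℝ :=
  (64 * p * P i + (if q i = true then -(4 * (p:ℝ)) else 4 * (p:ℝ) - (i:ℝ))) /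
    (64 * (p:ℝ) - 1) ^ rho i

lemma Rec.V_step (h : Rec p q rho P) {i : ℕ} (hi : i < p) :
    Vp p q rho P (i + 1) ≤ Vp p q rho P i ∧
    (q (i + 1) = false → Vp p q rho P (i + 1) + 1 / 2 / (64 * p - 1) ^ rho (i + 1)
      ≤ Vp p q rho P i) := by
  have hp := h.hp
  have hkp : (i:ℝ) + 1 ≤ p := by exact_mod_cast hi
  have hk0 : (0:ℝ) ≤ i := Nat.cast_nonneg i
  have hpow : (0:ℝ) < (64 * p - 1) ^ rho (i + 1) := pow_pos (by linarith) _
  have he : (0:ℝ) < 64 * p - 1 := by linarith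
  obtain ⟨i1, -, -, -⟩ := h.bound (i + 1) hi
  cases hq1 : q i
  · cases hq2 : q (i + 1)
    · obtain ⟨h1, h2⟩ := h.same i hi (by rw [hq1, hq2])
      have key : Vp p q rho P (i + 1) + 1 / 2 / (64 * p - 1) ^ rho (i + 1)
          ≤ Vp p q rho P i := by
        unfold Vp
        rw [h1, h2, hq1, hq2, ← add_div]
        apply div_le_div_of_nonneg_right _ hpow.le
        push_cast
        try simp only [Bool.false_eq_true, if_false]
        linarith
      refine ⟨?_, fun _ => key⟩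
      have : 0 ≤ 1 / 2 / (64 * (p:ℝ) - 1) ^ rho (i + 1) := by positivity
      linarith
    · obtain ⟨h1, h2⟩ := h.down i hi hq1 hq2
      refine ⟨?_, by simp⟩
      unfold Vp
      rw [h1, h2, hq1, hq2, pow_succ, div_le_div_iff₀ hpow (by positivity)]
      simp only [Bool.false_eq_true, if_false, if_true]
      have : (64 * (p:ℝ) * P (i + 1) + -(4 * p)) * ((64 * p - 1) ^ rho (i + 1) * (64 * p - 1))
          = ((64 * (p:ℝ) * P (i + 1) + -(4 * p)) * (64 * p - 1)) * (64 * p - 1) ^ rho (i + 1) := by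
        ring
      rw [this]
      apply mul_le_mul_of_nonneg_right _ hpow.le
      nlinarith
  · cases hq2 : q (i + 1)
    · obtain ⟨h1, h2⟩ := h.up i hi hq1 hq2
      have key : Vp p q rho P (i + 1) + 1 / 2 / (64 * p - 1) ^ rho (i + 1)
          ≤ Vp p q rho P i := by
        unfold Vp
        rw [h1, h2, hq1, hq2, ← add_div, pow_succ, div_le_div_iff₀ hpow (by positivity)]
        push_cast
        simp only [if_true]
        have : (64 * (p:ℝ) * P (i + 1) + (4 * p - (i + 1)) + 1 / 2)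
              * ((64 * p - 1) ^ rho (i + 1) * (64 * p - 1))
            = ((64 * (p:ℝ) * P (i + 1) + (4 * p - (i + 1)) + 1 / 2) * (64 * p - 1))
              * (64 * p - 1) ^ rho (i + 1) := by
          ring
        rw [this]
        apply mul_le_mul_of_nonneg_right _ hpow.le
        nlinarith
      refine ⟨?_, fun _ => key⟩
      have : 0 ≤ 1 / 2 / (64 * (p:ℝ) - 1) ^ rho (i + 1) := by positivity
      linarith
    · obtain ⟨h1, h2⟩ := h.same i hi (by rw [hq1, hq2])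
      refine ⟨?_, by simp⟩
      unfold Vp
      rw [h1, h2, hq1, hq2]
      simp

lemma Rec.V_anti (h : Rec p q rho P) {i j : ℕ} (hij : i ≤ j) (hj : j ≤ p) :
    Vp p q rho P j ≤ Vp p q rho P i := by
  induction j, hij using Nat.le_induction with
  | base => exact le_rfl
  | succ j hij ih => exact ((h.V_step (by omega)).1).trans (ih (by omega))

/-- The numerator of an improving slope. -/
noncomputable def Wq (p : ℕ) (P : ℕ → ℝ) (i : ℕ) : ℝ := 64 * p * P i + (4 * p - i)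

lemma Rec.W_lt (h : Rec p q rho P) {i j : ℕ} (hij : i < j) (hj : j < p)
    (hqi : q i = false) (hqj : q j = false) :
    (Wq p P j + 1 / 2) * (64 * p - 1) ^ rho i ≤ Wq p P i * (64 * p - 1) ^ rho j := by
  have hp := h.hp
  have he : (0:ℝ) < 64 * p - 1 := by linarith
  obtain ⟨k, rfl⟩ : ∃ k, j = k + 1 := ⟨j - 1, by omega⟩
  have h1 := (h.V_step (i := k) (by omega)).2 hqj
  have h2 := h.V_anti (i := i) (j := k) (by omega) (by omega)
  have h3 := h1.trans h2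
  unfold Vp at h3
  rw [hqi, hqj, ← add_div] at h3
  simp only [Bool.false_eq_true, if_false] at h3
  rw [div_le_div_iff₀ (pow_pos he _) (pow_pos he _)] at h3
  exact h3

lemma Rec.W_bounds (h : Rec p q rho P) {i : ℕ} (hi : i < p) :
    3 * p ≤ Wq p P i ∧ Wq p P i ≤ 8 * p * (64 * p - 1) ^ rho i := by
  have hp := h.hp
  have hkp : (i:ℝ) + 1 ≤ p := by exact_mod_cast hi
  have hk0 : (0:ℝ) ≤ i := Nat.cast_nonneg i
  obtain ⟨h1, h2, -, -⟩ := h.bound i hi.le
  have hpow : (1:ℝ) ≤ (64 * p - 1) ^ rho i := one_le_pow₀ (by linarith)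
  constructor
  · unfold Wq; nlinarith
  · unfold Wq
    nlinarith

/-- The key comparison: `W' ^ 2 (B a ^ 2 - 2 eta) < W ^ 2 (B a' ^ 2 - 2 eta')`. -/
lemma Rec.compare (h : Rec p q rho P) {i j : ℕ} (hij : i < j) (hj : j < p)
    (hqi : q i = false) (hqj : q j = false) {s s' : ℝ} (hs : 0 < s)
    (hs' : s' = 1 ∨ (s' = 64 * p - 1 ∧ 2 ≤ rho j)) :
    Wq p P j ^ 2 * (64 * p * ((64 * p - 1) ^ rho i) ^ 2 - 2 * s ^ 2) <
      Wq p P i ^ 2 * (64 * p * ((64 * p - 1) ^ rho j) ^ 2 - 2 * s' ^ 2) := by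
  have hp := h.hp
  have he : (0:ℝ) < 64 * p - 1 := by linarith
  have hlt := h.W_lt hij hj hqi hqj
  obtain ⟨w1, w2⟩ := h.W_bounds hj
  obtain ⟨w3, w4⟩ := h.W_bounds (hij.trans hj)
  set W' := Wq p P j
  set W := Wq p P i
  have ha : (1:ℝ) ≤ (64 * p - 1) ^ rho i := one_le_pow₀ (by linarith)
  have ha' : (1:ℝ) ≤ (64 * p - 1) ^ rho j := one_le_pow₀ (by linarith)
  have ha2 : 2 ≤ rho j → (64 * (p:ℝ) - 1) ^ 2 ≤ (64 * p - 1) ^ rho j := fun h2 =>
    pow_le_pow_right₀ (by linarith) h2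
  set a := (64 * (p:ℝ) - 1) ^ rho i
  set a' := (64 * (p:ℝ) - 1) ^ rho j
  -- `s' ^ 2 ≤ a'`
  have hsa : s' ^ 2 ≤ a' := by
    rcases hs' with rfl | ⟨rfl, h2⟩
    · simpa using ha'
    · exact ha2 h2
  have hs'0 : 0 ≤ s' ^ 2 := sq_nonneg _
  -- main estimate
  have key : 2 * s' ^ 2 * (W' + 1 / 2) ^ 2 ≤ (W' + 1 / 4) * (64 * p * a' ^ 2) := by
    have e1 : (W' + 1 / 2) ≤ 9 * p * a' := by nlinarith
    have e2 : (W' + 1 / 2) ≤ 2 * (W' + 1 / 4) := by linarith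
    have e3 : (W' + 1 / 2) ^ 2 ≤ 2 * (W' + 1 / 4) * (9 * p * a') := by
      rw [sq]
      exact mul_le_mul e2 e1 (by linarith) (by linarith)
    calc 2 * s' ^ 2 * (W' + 1 / 2) ^ 2 ≤ 2 * a' * (2 * (W' + 1 / 4) * (9 * p * a')) := by
          apply mul_le_mul _ e3 (by positivity) (by linarith)
          linarith
      _ = (W' + 1 / 4) * (36 * p * a' ^ 2) := by ring
      _ ≤ (W' + 1 / 4) * (64 * p * a' ^ 2) := by
          apply mul_le_mul_of_nonneg_left _ (by linarith)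
          nlinarith [sq_nonneg a']
  have key2 : W' ^ 2 * (64 * p * a' ^ 2) ≤ (W' + 1 / 2) ^ 2 * (64 * p * a' ^ 2 - 2 * s' ^ 2) := by
    nlinarith
  -- now combine
  have hpos : 0 ≤ 64 * (p:ℝ) * a' ^ 2 - 2 * s' ^ 2 := by
    have : a' ≤ a' ^ 2 := by nlinarith
    nlinarith
  have hWa : ((W' + 1 / 2) * a) ^ 2 ≤ (W * a') ^ 2 := by
    apply pow_le_pow_left₀ _ hlt
    have : 0 < W' + 1 / 2 := by linarith
    positivity
  have ha'2 : 0 < a' ^ 2 := by positivity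
  have hfin : W' ^ 2 * (64 * p * a ^ 2 - 2 * s ^ 2) * a' ^ 2 <
      W ^ 2 * (64 * p * a' ^ 2 - 2 * s' ^ 2) * a' ^ 2 := by
    calc W' ^ 2 * (64 * p * a ^ 2 - 2 * s ^ 2) * a' ^ 2
        < W' ^ 2 * (64 * p * a ^ 2) * a' ^ 2 := by
          have : 0 < W' ^ 2 * (2 * s ^ 2) * a' ^ 2 := by
            have : 0 < W' := by linarith
            positivity
          nlinarith
      _ = (W' ^ 2 * (64 * p * a' ^ 2)) * a ^ 2 := by ring
      _ ≤ ((W' + 1 / 2) ^ 2 * (64 * p * a' ^ 2 - 2 * s' ^ 2)) * a ^ 2 :=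
          mul_le_mul_of_nonneg_right key2 (sq_nonneg _)
      _ = ((W' + 1 / 2) * a) ^ 2 * (64 * p * a' ^ 2 - 2 * s' ^ 2) := by ring
      _ ≤ (W * a') ^ 2 * (64 * p * a' ^ 2 - 2 * s' ^ 2) :=
          mul_le_mul_of_nonneg_right hWa hpos
      _ = W ^ 2 * (64 * p * a' ^ 2 - 2 * s' ^ 2) * a' ^ 2 := by ring
  exact lt_of_mul_lt_mul_right hfin ha'2.le

/-- Values at `0` when all bits below `i` are set. -/
lemma Rec.zero_eq (h : Rec p q rho P) {i : ℕ} (hi : i < p) (hi0 : 0 < i) (hqi : q i = false)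
    (hlow : ∀ j < i, q j = true) :
    rho 0 = rho i + 1 ∧ P 0 = (64 * p - 1) * P i + (4 * p - (i - 1)) := by
  obtain ⟨k, rfl⟩ : ∃ k, i = k + 1 := ⟨i - 1, by omega⟩
  obtain ⟨h1, h2⟩ := h.up k (by omega) (hlow k (by omega)) hqi
  have hconst : ∀ j ≤ k, rho 0 = rho j ∧ P 0 = P j := by
    intro j hj
    induction j with
    | zero => exact ⟨rfl, rfl⟩
    | succ j ih =>
      obtain ⟨a, b⟩ := ih (by omega)
      obtain ⟨c, d⟩ := h.same j (by omega) (by rw [hlow j (by omega), hlow (j + 1) (by omega)])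
      exact ⟨a.trans c, b.trans d⟩
  obtain ⟨a, b⟩ := hconst k le_rfl
  refine ⟨a.trans h1, ?_⟩
  rw [b, h2]
  push_cast
  ring

/-- The bottom edge is less steep than the edge at the smallest improving index. -/
lemma Rec.bottom (h : Rec p q rho P) {i : ℕ} (hi : i < p) (hi0 : 0 < i) (hqi : q i = false)
    (hlow : ∀ j < i, q j = true) {Om N G s : ℝ} (hOm : 0 < Om) (hs : 0 < s)
    (hN : s ^ 2 * (64 * p - 2) * N = 64 * p * ((64 * p - 1) ^ rho i) ^ 2 - 2 * s ^ 2)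
    (hG : ((64 * p - 1) ^ 2 - 1) * G = ((64 * (p:ℝ) - 1) ^ 2) ^ rho 0 - 1) {X : ℝ}
    (hX : s * X = Wq p P i) :
    (Om * (P 0 - 3)) ^ 2 * N < X ^ 2 * (1 + Om ^ 2 * G) := by
  have hp := h.hp
  have he : (0:ℝ) < 64 * p - 1 := by linarith
  have hkp : (i:ℝ) + 1 ≤ p := by exact_mod_cast hi
  have hi1 : (1:ℝ) ≤ i := by exact_mod_cast hi0
  obtain ⟨hr, hP⟩ := h.zero_eq hi hi0 hqi hlow
  obtain ⟨w1, w2⟩ := h.W_bounds hi
  have hb := (h.bound 0 (Nat.zero_le _)).2.2.1 (by omega)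
  have ha : (1:ℝ) ≤ (64 * p - 1) ^ rho i := one_le_pow₀ (by linarith)
  have hG' : ((64 * p - 1) ^ 2 - 1) * G = ((64 * (p:ℝ) - 1) * (64 * p - 1) ^ rho i) ^ 2 - 1 := by
    rw [hG, hr, ← pow_mul, ← pow_succ', ← pow_mul]
    congr 2
    ring
  set a := (64 * (p:ℝ) - 1) ^ rho i
  set e := 64 * (p:ℝ) - 1 with he_def
  set W := Wq p P i with hW
  have hBX : 64 * p * (P 0 - 3) ≤ e * (W - 1) := by
    rw [hP, hW, Wq, he_def]
    nlinarith
  have hBX0 : 0 ≤ 64 * p * (P 0 - 3) := by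
    apply mul_nonneg (by linarith)
    linarith
  have hsqB : (64 * p * (P 0 - 3)) ^ 2 ≤ (e * (W - 1)) ^ 2 := pow_le_pow_left₀ hBX0 hBX 2
  have hWa : W ≤ (e * a) ^ 2 := by
    have h1 : W ≤ e * a := by
      refine w2.trans ?_
      apply mul_le_mul_of_nonneg_right _ (by linarith)
      rw [he_def]; linarith
    have h2 : 1 ≤ e * a := by
      have : 1 ≤ e := by rw [he_def]; linarith
      nlinarith
    nlinarith
  have hmain : (64 * p * (P 0 - 3)) ^ 2 * a ^ 2 ≤ W ^ 2 * ((e * a) ^ 2 - 1) := by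
    calc (64 * p * (P 0 - 3)) ^ 2 * a ^ 2 ≤ (e * (W - 1)) ^ 2 * a ^ 2 :=
          mul_le_mul_of_nonneg_right hsqB (sq_nonneg _)
      _ = (e * a) ^ 2 * (W - 1) ^ 2 := by ring
      _ ≤ W ^ 2 * ((e * a) ^ 2 - 1) := by nlinarith
  -- multiply through
  have hmul : 0 < s ^ 2 * (64 * p - 2) * (64 * p) := by
    have : (0:ℝ) < 64 * p - 2 := by linarith
    have : (0:ℝ) < 64 * p := by linarith
    positivity
  have e2 : (e ^ 2 - 1) = (64 * p - 2) * (64 * p) := by rw [he_def]; ring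
  have hL : (Om * (P 0 - 3)) ^ 2 * N * (s ^ 2 * (64 * p - 2) * (64 * p)) <
      X ^ 2 * (1 + Om ^ 2 * G) * (s ^ 2 * (64 * p - 2) * (64 * p)) := by
    have l1 : (Om * (P 0 - 3)) ^ 2 * N * (s ^ 2 * (64 * p - 2) * (64 * p))
        = Om ^ 2 * (P 0 - 3) ^ 2 * (64 * p) * (64 * p * a ^ 2 - 2 * s ^ 2) := by
      rw [← hN]; ring
    have l2 : X ^ 2 * (1 + Om ^ 2 * G) * (s ^ 2 * (64 * p - 2) * (64 * p))
        = W ^ 2 * ((64 * p - 2) * (64 * p)) + Om ^ 2 * (W ^ 2 * ((e * a) ^ 2 - 1)) := by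
      rw [← hG', ← hX, ← e2]; ring
    rw [l1, l2]
    have t1 : Om ^ 2 * (P 0 - 3) ^ 2 * (64 * p) * (64 * p * a ^ 2 - 2 * s ^ 2)
        ≤ Om ^ 2 * ((64 * p * (P 0 - 3)) ^ 2 * a ^ 2) := by
      have : 0 ≤ Om ^ 2 * (P 0 - 3) ^ 2 * (64 * p) * (2 * s ^ 2) := by positivity
      nlinarith
    have t2 : Om ^ 2 * ((64 * p * (P 0 - 3)) ^ 2 * a ^ 2) ≤ Om ^ 2 * (W ^ 2 * ((e * a) ^ 2 - 1)) :=
      mul_le_mul_of_nonneg_left hmain (sq_nonneg _)
    have t3 : 0 < W ^ 2 * ((64 * p - 2) * (64 * p)) := by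
      have : (0:ℝ) < 64 * p - 2 := by linarith
      have : (0:ℝ) < W := by linarith
      positivity
    linarith
  exact lt_of_mul_lt_mul_right hL hmul.le

end

end Pool.Agent.MP42
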