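import Pool.Agent.MP_42ca66_lc.Pert
import Pool.Agent.MP_42ca66_lc.Gray
import Pool.Agent.MP_42ca66_lc.Ineq

/-!
The centre data of the construction.
-/

namespace Pool.Agent.MP42

open Finset

/-! ### From a bit string to the recursion -/

/-- The Gray-code set of a bit string. -/
def gray (q : ℕ → Bool) (j : ℕ) : Bool := xor (q j) (q (j + 1))

lemma neg_one_pow_cnt {q : ℕ → Bool} {p : ℕ} (hq : q p = false) :
    ∀ i ≤ p, ((-1 : ℝ)) ^ cnt (gray q) i p = if q i = true then -1 else 1 := by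
  intro i hi
  induction hi using Nat.decreasingInduction with
  | self => rw [cnt_self, hq]; simp
  | of_succ k hk ih =>
    rw [cnt_succ_left _ hk, pow_add, ih]
    unfold gray
    cases h1 : q k <;> cases h2 : q (k + 1) <;> simp

/-- The normalised costs. -/
noncomputable def Pn (q : ℕ → Bool) (p i : ℕ) : ℝ :=
  -((-1) ^ cnt (gray q) i p * Fs (gray q) (64 * p - 1) (fun l => 4 * (p:ℝ) - l) p i)

lemma rec_of {q : ℕ → Bool} {p : ℕ} (hp : 8 ≤ p) (hq : q p = false) :
    Rec p q (fun i => cnt (gray q) i p) (Pn q p) where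
  hp8 := hp
  q_p := hq
  rho_p := cnt_self _ _
  P_p := by rw [Pn, Fs_self]; ring
  same := by
    intro i hi h
    have hu : gray q i = false := by unfold gray; rw [h]; simp
    have hc : cnt (gray q) i p = cnt (gray q) (i + 1) p := by
      rw [cnt_succ_left _ hi, hu]; simp
    refine ⟨hc, ?_⟩
    rw [Pn, Pn, hc, Fs_rec _ _ _ hi, hu]
    simp
  up := by
    intro i hi h1 h2
    have hu : gray q i = true := by unfold gray; rw [h1, h2]; rfl
    have hc : cnt (gray q) i p = cnt (gray q) (i + 1) p + 1 := by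
      rw [cnt_succ_left _ hi, hu]; simp [add_comm]
    refine ⟨hc, ?_⟩
    have hs := neg_one_pow_cnt hq (i + 1) hi
    rw [h2] at hs
    simp only [Bool.false_eq_true, if_false] at hs
    rw [Pn, Pn, hc, Fs_rec _ _ _ hi, hu, pow_succ, hs]
    simp only [if_true]
    ring
  down := by
    intro i hi h1 h2
    have hu : gray q i = true := by unfold gray; rw [h1, h2]; rfl
    have hc : cnt (gray q) i p = cnt (gray q) (i + 1) p + 1 := by
      rw [cnt_succ_left _ hi, hu]; simp [add_comm]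
    refine ⟨hc, ?_⟩
    have hs := neg_one_pow_cnt hq (i + 1) hi
    rw [h2] at hs
    simp only [if_true] at hs
    rw [Pn, Pn, hc, Fs_rec _ _ _ hi, hu, pow_succ, hs]
    simp only [if_true]
    ring

/-! ### Vectors -/

/-- The vector with `T`-coordinate `a` and `Y`-coordinates `f`. -/
def vec (p : ℕ) (a : ℝ) (f : ℕ → ℝ) : Fin (p + 1) → ℝ := Fin.cons a (fun l : Fin p => f l)

lemma vec_zero (p : ℕ) (a : ℝ) (f : ℕ → ℝ) : vec p a f 0 = a := rfl

lemma vec_succ (p : ℕ) (a : ℝ) (f : ℕ → ℝ) (l : Fin p) : vec p a f l.succ = f l := rfl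

lemma dt_vec (p : ℕ) (a b : ℝ) (f g : ℕ → ℝ) :
    dt (vec p a f) (vec p b g) = a * b + ∑ l ∈ range p, f l * g l := by
  unfold dt
  rw [Fin.sum_univ_succ, Finset.sum_range]
  rfl

lemma nsq_vec (p : ℕ) (b : ℝ) (g : ℕ → ℝ) :
    nsq (vec p b g) = b ^ 2 + ∑ l ∈ range p, g l ^ 2 := by
  unfold nsq
  rw [Fin.sum_univ_succ, Finset.sum_range]
  rfl

lemma exists_vec (p : ℕ) (d : Fin (p + 1) → ℝ) : ∃ (a : ℝ) (g : ℕ → ℝ), d = vec p a g := by
  refine ⟨d 0, fun l => if h : l < p then d (Fin.succ ⟨l, h⟩) else 0, ?_⟩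
  funext j
  refine Fin.cases ?_ (fun l => ?_) j
  · rfl
  · rw [vec_succ]
    simp

lemma sum_range_split {p j : ℕ} (hj : j < p) (f : ℕ → ℝ) :
    ∑ l ∈ range p, f l = ∑ l ∈ range j, f l + f j + ∑ l ∈ Ico (j + 1) p, f l := by
  rw [range_eq_Ico, ← sum_Ico_consecutive f (Nat.zero_le _) hj.le,
    sum_eq_sum_Ico_succ_bot hj, range_eq_Ico]
  ring

/-- Coefficients of the lower rows. -/
def cl (l k : ℕ) : ℝ := if k = l then -1 else 0

/-- Coefficients of the upper rows. -/
noncomputable def cu (B : ℝ) (j k : ℕ) : ℝ := if k = j then 1 else if k < j then B else 0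

/-- Coefficients of the side row. -/
noncomputable def cs (p k : ℕ) : ℝ := if k + 1 < p then 512 else 1

lemma sum_cl {p l : ℕ} (hl : l < p) (g : ℕ → ℝ) : ∑ k ∈ range p, cl l k * g k = -g l := by
  unfold cl
  simp [Finset.sum_ite_eq', hl]

lemma sum_cu {p j : ℕ} (B : ℝ) (hj : j < p) (g : ℕ → ℝ) :
    ∑ k ∈ range p, cu B j k * g k = g j + B * ∑ k ∈ range j, g k := by
  rw [sum_range_split hj]
  have h1 : ∑ l ∈ range j, cu B j l * g l = B * ∑ k ∈ range j, g k := by
    rw [mul_sum]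
    apply sum_congr rfl
    intro l hl
    rw [mem_range] at hl
    rw [cu, if_neg (by omega), if_pos hl]
  have h2 : ∑ l ∈ Ico (j + 1) p, cu B j l * g l = 0 := by
    apply sum_eq_zero
    intro l hl
    rw [mem_Ico] at hl
    rw [cu, if_neg (by omega), if_neg (by omega), zero_mul]
  rw [h1, h2, cu, if_pos rfl]
  ring

lemma sum_cs {p : ℕ} (hp : 0 < p) (g : ℕ → ℝ) :
    ∑ k ∈ range p, cs p k * g k = 512 * ∑ k ∈ range (p - 1), g k + g (p - 1) := by
  rw [sum_range_split (by omega : p - 1 < p)]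
  have h1 : ∑ l ∈ range (p - 1), cs p l * g l = 512 * ∑ k ∈ range (p - 1), g k := by
    rw [mul_sum]
    apply sum_congr rfl
    intro l hl
    rw [mem_range] at hl
    rw [cs, if_pos (by omega)]
  have h2 : Ico (p - 1 + 1) p = ∅ := by
    apply Ico_eq_empty
    omega
  rw [h1, h2, sum_empty, cs, if_neg (by omega)]
  ring

/-- Row indices: lower, upper, and (bottom, top, side). -/
abbrev Row (p : ℕ) := (Fin p ⊕ Fin p) ⊕ Fin 3

/-- The small scale. -/
noncomputable def zt (p : ℕ) : ℝ := 1 / (512 * (256 * p) ^ p)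

/-- The centre rows. -/
noncomputable def al0 (p : ℕ) : Row p → Fin (p + 1) → ℝ
  | .inl (.inl l) => vec p 0 (cl l)
  | .inl (.inr j) => vec p (-(3 * p + 1)) (cu (64 * p) j)
  | .inr k => if k = 0 then vec p (-1) 0 else if k = 1 then vec p 1 0 else vec p (-6) (cs p)

/-- The centre right-hand sides. -/
noncomputable def be0 (p : ℕ) : Row p → ℝ
  | .inl (.inl _) => 0
  | .inl (.inr j) => zt p * (256 * p) ^ (j : ℕ)
  | .inr k => if k = 0 then 0 else if k = 1 then 1 else 6

/-- The centre objective. -/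
noncomputable def cc0 (p : ℕ) : Fin (p + 1) → ℝ := vec p (-(9 * p + 3)) (fun l => 4 * (p:ℝ) - l)

lemma dt_lower {p : ℕ} (l : Fin p) (a : ℝ) (g : ℕ → ℝ) :
    dt (al0 p (.inl (.inl l))) (vec p a g) = -g l := by
  rw [al0, dt_vec, sum_cl l.2]; ring

lemma dt_upper {p : ℕ} (j : Fin p) (a : ℝ) (g : ℕ → ℝ) :
    dt (al0 p (.inl (.inr j))) (vec p a g)
      = -(3 * p + 1) * a + (g j + 64 * p * ∑ k ∈ range j, g k) := by
  rw [al0, dt_vec, sum_cu _ j.2]

lemma dt_bottom {p : ℕ} (a : ℝ) (g : ℕ → ℝ) :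
    dt (al0 p (.inr 0)) (vec p a g) = -a := by
  rw [al0, if_pos rfl, dt_vec]; simp

lemma dt_top {p : ℕ} (a : ℝ) (g : ℕ → ℝ) :
    dt (al0 p (.inr 1)) (vec p a g) = a := by
  rw [al0, if_neg (by decide), if_pos rfl, dt_vec]; simp

lemma dt_side {p : ℕ} (hp : 0 < p) (a : ℝ) (g : ℕ → ℝ) :
    dt (al0 p (.inr 2)) (vec p a g)
      = -6 * a + (512 * ∑ k ∈ range (p - 1), g k + g (p - 1)) := by
  rw [al0, if_neg (by decide), if_neg (by decide), dt_vec, sum_cs hp]

/-! ### States -/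

/-- Tight rows at the start. -/
def stS (p : ℕ) : Fin (p + 1) → Row p := Fin.cons (.inr 1) (fun l => .inl (.inl l))

/-- Tight rows at the state `u`. -/
def stU (p : ℕ) (u : ℕ → Bool) : Fin (p + 1) → Row p :=
  Fin.cons (.inr 0) (fun l => if u l = true then .inl (.inr l) else .inl (.inl l))

lemma stS_inj (p : ℕ) : Function.Injective (stS p) := by
  intro a b
  refine Fin.cases ?_ (fun a => ?_) a <;> refine Fin.cases ?_ (fun b => ?_) b
  · intro _; rfl
  · intro h; simp [stS] at h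
  · intro h; simp [stS] at h
  · intro h
    simp only [stS, Fin.cons_succ, Sum.inl.injEq] at h
    rw [h]

lemma stU_inj (p : ℕ) (u : ℕ → Bool) : Function.Injective (stU p u) := by
  intro a b
  refine Fin.cases ?_ (fun a => ?_) a <;> refine Fin.cases ?_ (fun b => ?_) b
  · intro _; rfl
  · intro h
    simp only [stU, Fin.cons_succ, Fin.cons_zero] at h
    split_ifs at h
  · intro h
    simp only [stU, Fin.cons_succ, Fin.cons_zero] at h
    split_ifs at h
  · intro h
    simp only [stU, Fin.cons_succ] at h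
    split_ifs at h <;> simp_all

/-- The recursion for the vertices. -/
noncomputable def Sv (p : ℕ) (u : ℕ → Bool) : ℕ → ℝ
  | 0 => 0
  | j + 1 => Sv p u j + if u j = true then (256 * p) ^ j - 64 * p * Sv p u j else 0

/-- The coordinates of the (unscaled) vertex. -/
noncomputable def Yv (p : ℕ) (u : ℕ → Bool) (j : ℕ) : ℝ :=
  if u j = true then (256 * p) ^ j - 64 * p * Sv p u j else 0

lemma sum_Yv (p : ℕ) (u : ℕ → Bool) (j : ℕ) : ∑ l ∈ range j, Yv p u l = Sv p u j := by
  induction j with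
  | zero => rfl
  | succ j ih => rw [sum_range_succ, ih]; rfl

lemma Sv_bound {p : ℕ} (hp : 1 ≤ p) (u : ℕ → Bool) (j : ℕ) :
    0 ≤ Sv p u j ∧ 128 * p * Sv p u j ≤ (256 * p) ^ j := by
  have hp' : (1:ℝ) ≤ p := by exact_mod_cast hp
  induction j with
  | zero => simp [Sv]
  | succ j ih =>
    obtain ⟨h1, h2⟩ := ih
    have hb : (0:ℝ) < (256 * p) ^ j := by positivity
    rw [Sv, pow_succ]
    split_ifs
    · constructor
      · nlinarith
      · have e1 : (256 * (p:ℝ)) ^ j ≤ 128 * p * (256 * p) ^ j := by nlinarith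
        have e2 : 0 ≤ 64 * (p:ℝ) * (128 * p * Sv p u j) := by positivity
        nlinarith
    · constructor
      · linarith
      · nlinarith

lemma Yv_bound {p : ℕ} (hp : 1 ≤ p) (u : ℕ → Bool) (j : ℕ) :
    0 ≤ Yv p u j ∧ Yv p u j ≤ (256 * p) ^ j ∧ (u j = true → (256 * p) ^ j / 2 ≤ Yv p u j) := by
  have hp' : (1:ℝ) ≤ p := by exact_mod_cast hp
  obtain ⟨h1, h2⟩ := Sv_bound hp u j
  have hb : (0:ℝ) < (256 * p) ^ j := by positivity
  rw [Yv]
  split_ifs with hu
  · refine ⟨by nlinarith, by nlinarith, fun _ => by nlinarith⟩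
  · exact ⟨le_rfl, hb.le, fun h => absurd h hu⟩

end Pool.Agent.MP42
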