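import Pool.Agent.MP_42ca66_lc.Defs

/-!
A criterion for one step of the steepest-edge path.
-/

namespace Pool.Agent.MP42

open Set

variable {ι : Type} {n : ℕ}

/-- Shorthand for Euclidean space. -/
abbrev E (n : ℕ) := EuclideanSpace ℝ (Fin n)

lemma dotE_add (c : Fin n → ℝ) (x y : E n) : dotE c (x + y) = dotE c x + dotE c y := by
  simp [dotE, mul_add, Finset.sum_add_distrib]

lemma dotE_sub (c : Fin n → ℝ) (x y : E n) : dotE c (x - y) = dotE c x - dotE c y := by
  simp [dotE, mul_sub, Finset.sum_sub_distrib]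

lemma dotE_smul (c : Fin n → ℝ) (s : ℝ) (x : E n) : dotE c (s • x) = s * dotE c x := by
  simp only [dotE, PiLp.smul_apply, smul_eq_mul, Finset.mul_sum]
  exact Finset.sum_congr rfl fun j _ => by ring

lemma dotE_zero (c : Fin n → ℝ) : dotE c (0 : E n) = 0 := by simp [dotE]

/-- `x` is a nondegenerate vertex whose tight rows are `t`. -/
structure Vtx (A : ι → Fin n → ℝ) (t : Fin n → ι) (x : E n) : Prop where
  inj : Function.Injective t
  tight : ∀ j, dotE (A (t j)) x = 1
  slack : ∀ i, i ∉ range t → dotE (A i) x < 1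
  nd : ∀ d : E n, (∀ j, dotE (A (t j)) d = 0) → d = 0

lemma Vtx.mem_poly {A : ι → Fin n → ℝ} {t : Fin n → ι} {x : E n} (h : Vtx A t x) :
    x ∈ poly A := by
  intro i
  by_cases hi : i ∈ range t
  · obtain ⟨j, rfl⟩ := hi
    exact (h.tight j).le
  · exact (h.slack i hi).le

lemma Vtx.tight_eq {A : ι → Fin n → ℝ} {t : Fin n → ι} {x : E n} (h : Vtx A t x) :
    MP42.tight A x = range t := by
  ext i
  constructor
  · intro hi
    by_contra hn
    exact (h.slack i hn).ne hi
  · rintro ⟨j, rfl⟩
    exact h.tight j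

lemma Vtx.mem_vertices {A : ι → Fin n → ℝ} {t : Fin n → ι} {x : E n} (h : Vtx A t x) :
    x ∈ vertices A := by
  rw [vertices, mem_extremePoints]
  refine ⟨h.mem_poly, ?_⟩
  intro y hy y' hy' hx
  obtain ⟨a, b, ha, hb, hab, hx⟩ := hx
  have key : ∀ j, dotE (A (t j)) y = 1 ∧ dotE (A (t j)) y' = 1 := by
    intro j
    have h1 := hy (t j)
    have h2 := hy' (t j)
    have h3 : a * dotE (A (t j)) y + b * dotE (A (t j)) y' = 1 := by
      rw [← h.tight j, ← hx, dotE_add, dotE_smul, dotE_smul]
    constructor <;> nlinarith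
  constructor
  · have := h.nd (y - x) (fun j => by rw [dotE_sub, (key j).1, h.tight j, sub_self])
    exact sub_eq_zero.mp this
  · have := h.nd (y' - x) (fun j => by rw [dotE_sub, (key j).2, h.tight j, sub_self])
    exact sub_eq_zero.mp this

lemma slope_of_smul {c : Fin n → ℝ} {x u d : E n} {s : ℝ} (hs : 0 < s) (h : u - x = s • d) :
    slope c x u = dotE c d / ‖d‖ := by
  rw [slope, h, dotE_smul, norm_smul, Real.norm_of_nonneg hs.le,
    mul_div_mul_left _ _ hs.ne']

/-- The step criterion. -/
theorem isSteepest_of {A : ι → Fin n → ℝ} {c : Fin n → ℝ} {t t' : Fin n → ι} {x x' : E n}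
    (h : Vtx A t x) (h' : Vtx A t' x') (pos : Fin n)
    (htt : ∀ j, j ≠ pos → t' j = t j) (hpos : t' pos ∉ range t)
    (D : Fin n → E n)
    (hD0 : ∀ p j, j ≠ p → dotE (A (t j)) (D p) = 0)
    (hD1 : ∀ p, dotE (A (t p)) (D p) < 0)
    (hc : 0 < dotE c (D pos))
    (hs : ∀ p, p ≠ pos → dotE c (D p) ≤ 0 ∨
      (dotE c (D p)) ^ 2 * ‖D pos‖ ^ 2 < (dotE c (D pos)) ^ 2 * ‖D p‖ ^ 2) :
    IsSteepest A c x x' := by
  have ht : tight A x = range t := h.tight_eq
  have ht' : tight A x' = range t' := h'.tight_eq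
  have hposn : t pos ∉ range t' := by
    rintro ⟨j, hj⟩
    by_cases hjp : j = pos
    · exact hpos ⟨pos, by rw [← hj, hjp]⟩
    · rw [htt j hjp] at hj
      exact hjp (h.inj hj)
  have hd1 : tight A x \ tight A x' = {t pos} := by
    rw [ht, ht']
    ext i
    simp only [mem_sdiff, mem_singleton_iff]
    constructor
    · rintro ⟨⟨j, rfl⟩, hn⟩
      by_contra hne
      have : j ≠ pos := fun e => hne (by rw [e])
      exact hn ⟨j, htt j this⟩
    · rintro rfl
      exact ⟨⟨pos, rfl⟩, hposn⟩
  have hd2 : tight A x' \ tight A x = {t' pos} := by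
    rw [ht, ht']
    ext i
    simp only [mem_sdiff, mem_singleton_iff]
    constructor
    · rintro ⟨⟨j, rfl⟩, hn⟩
      by_contra hne
      have : j ≠ pos := fun e => hne (by rw [e])
      exact hn ⟨j, (htt j this).symm⟩
    · rintro rfl
      exact ⟨⟨pos, rfl⟩, hpos⟩
  have hray : ∀ (u : E n) (p : Fin n), (∀ j, j ≠ p → dotE (A (t j)) u = 1) →
      dotE (A (t p)) u < 1 → ∃ s : ℝ, 0 < s ∧ u - x = s • D p := by
    intro u p h1 h2
    refine ⟨(dotE (A (t p)) u - 1) / dotE (A (t p)) (D p), ?_, ?_⟩
    · exact div_pos_of_neg_of_neg (by linarith) (hD1 p)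
    · rw [← sub_eq_zero]
      apply h.nd
      intro j
      rw [dotE_sub, dotE_sub, dotE_smul, h.tight j]
      by_cases hj : j = p
      · subst hj
        rw [div_mul_cancel₀ _ (hD1 j).ne, sub_self]
      · rw [h1 j hj, hD0 p j hj]
        ring
  obtain ⟨s, hs0, hsx⟩ := hray x' pos
    (fun j hj => by rw [← htt j hj]; exact h'.tight j) (h'.slack _ hposn)
  have hDpos : 0 < ‖D pos‖ := by
    rw [norm_pos_iff]
    intro e
    rw [e, dotE_zero] at hc
    exact lt_irrefl _ hc
  refine ⟨⟨h.mem_vertices, h'.mem_vertices, by rw [hd1, ncard_singleton],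
    by rw [hd2, ncard_singleton]⟩, ?_, ?_⟩
  · rw [hsx, dotE_smul]
    exact mul_pos hs0 hc
  · intro u hu hcu hne
    obtain ⟨-, huv, hn1, -⟩ := hu
    rw [ht] at hn1
    obtain ⟨i, hi⟩ := ncard_eq_one.mp hn1
    have hi' : i ∈ range t \ tight A u := by rw [hi]; exact mem_singleton i
    obtain ⟨⟨p, rfl⟩, hpu⟩ := hi'
    have hup : u ∈ poly A := extremePoints_subset huv
    have h1 : ∀ j, j ≠ p → dotE (A (t j)) u = 1 := by
      intro j hj
      by_contra hc
      have : t j ∈ range t \ tight A u := ⟨⟨j, rfl⟩, hc⟩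
      rw [hi, mem_singleton_iff] at this
      exact hj (h.inj this)
    have h2 : dotE (A (t p)) u < 1 := lt_of_le_of_ne (hup (t p)) hpu
    obtain ⟨s', hs'0, hs'x⟩ := hray u p h1 h2
    by_cases hpp : p = pos
    · exfalso
      subst hpp
      rcases lt_trichotomy s s' with hlt | heq | hgt
      · -- `x'` lies strictly between `x` and `u`
        have hmem : x' ∈ openSegment ℝ x u := by
          refine ⟨1 - s / s', s / s', ?_, by positivity, by ring, ?_⟩
          · rw [sub_pos, div_lt_one hs'0]; exact hlt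
          · have e1 : u = x + s' • D p := by rw [← hs'x]; abel
            have e2 : x' = x + s • D p := by rw [← hsx]; abel
            rw [e1, e2, smul_add, smul_smul, div_mul_cancel₀ _ hs'0.ne', sub_smul, one_smul]
            abel
        have := (mem_extremePoints.mp h'.mem_vertices).2 x h.mem_poly u hup hmem
        have hx : x' - x = 0 := by rw [← this.1]; simp
        rw [hsx, smul_eq_zero] at hx
        rcases hx with hx | hx
        · exact hs0.ne' hx
        · rw [hx, norm_zero] at hDpos
          exact lt_irrefl _ hDpos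
      · apply hne
        have : u - x = x' - x := by rw [hsx, hs'x, heq]
        exact sub_left_inj.mp this
      · have hmem : u ∈ openSegment ℝ x x' := by
          refine ⟨1 - s' / s, s' / s, ?_, by positivity, by ring, ?_⟩
          · rw [sub_pos, div_lt_one hs0]; exact hgt
          · have e1 : u = x + s' • D p := by rw [← hs'x]; abel
            have e2 : x' = x + s • D p := by rw [← hsx]; abel
            rw [e1, e2, smul_add, smul_smul, div_mul_cancel₀ _ hs0.ne', sub_smul, one_smul]
            abel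
        have := (mem_extremePoints.mp huv).2 x h.mem_poly x' h'.mem_poly hmem
        have hx : u - x = 0 := by rw [← this.1]; simp
        rw [hs'x, smul_eq_zero] at hx
        rcases hx with hx | hx
        · exact hs'0.ne' hx
        · rw [hx, norm_zero] at hDpos
          exact lt_irrefl _ hDpos
    · rw [slope_of_smul hs'0 hs'x, slope_of_smul hs0 hsx]
      rw [hs'x, dotE_smul] at hcu
      have hcp : 0 < dotE c (D p) := by
        by_contra hneg
        push Not at hneg
        have := mul_nonpos_of_nonneg_of_nonpos hs'0.le hneg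
        linarith
      have hDp : 0 < ‖D p‖ := by
        rw [norm_pos_iff]
        intro e
        rw [e, dotE_zero] at hcp
        exact lt_irrefl _ hcp
      rcases hs p hpp with hneg | hsq
      · linarith
      · rw [div_lt_div_iff₀ hDp hDpos]
        have : (dotE c (D p) * ‖D pos‖) ^ 2 < (dotE c (D pos) * ‖D p‖) ^ 2 := by
          rw [mul_pow, mul_pow]; exact hsq
        exact lt_of_pow_lt_pow_left₀ 2 (by positivity) this

/-- Reindexing the rows does not change the polyhedron. -/
lemma poly_comp_equiv {κ : Type} (A : ι → Fin n → ℝ) (e : κ ≃ ι) :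
    poly (fun i => A (e i)) = poly A := by
  ext x
  simp only [poly, Set.mem_ofPred_eq]
  exact e.forall_congr_left.trans (by simp)

lemma tight_comp_equiv {κ : Type} (A : ι → Fin n → ℝ) (e : κ ≃ ι) (x : E n) :
    tight (fun i => A (e i)) x = e.symm '' tight A x := by
  rw [Equiv.image_symm_eq_preimage]
  rfl

lemma vertices_comp_equiv {κ : Type} (A : ι → Fin n → ℝ) (e : κ ≃ ι) :
    vertices (fun i => A (e i)) = vertices A := by
  rw [vertices, vertices, poly_comp_equiv]

lemma nbr_comp_equiv {κ : Type} (A : ι → Fin n → ℝ) (e : κ ≃ ι) (x y : E n) :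
    Nbr (fun i => A (e i)) x y ↔ Nbr A x y := by
  unfold Nbr
  rw [vertices_comp_equiv, tight_comp_equiv, tight_comp_equiv,
    ← image_sdiff e.symm.injective, ← image_sdiff e.symm.injective,
    ncard_image_of_injective _ e.symm.injective, ncard_image_of_injective _ e.symm.injective]

lemma isSteepest_comp_equiv {κ : Type} (A : ι → Fin n → ℝ) (e : κ ≃ ι) (c : Fin n → ℝ)
    (x y : E n) : IsSteepest (fun i => A (e i)) c x y ↔ IsSteepest A c x y := by
  unfold IsSteepest
  simp only [nbr_comp_equiv]

lemma isPath_comp_equiv {κ : Type} (A : ι → Fin n → ℝ) (e : κ ≃ ι) (c z : Fin n → ℝ) (k : ℕ)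
    (v : ℕ → E n) : IsPath (fun i => A (e i)) c z k v ↔ IsPath A c z k v := by
  unfold IsPath IsStart
  simp only [isSteepest_comp_equiv, vertices_comp_equiv, poly_comp_equiv]

lemma pathLen_comp_equiv {κ : Type} (A : ι → Fin n → ℝ) (e : κ ≃ ι) (c z : Fin n → ℝ) :
    pathLen (fun i => A (e i)) c z = pathLen A c z := by
  unfold pathLen
  simp only [isPath_comp_equiv]

lemma shadowSize_comp_equiv {κ : Type} (A : ι → Fin n → ℝ) (e : κ ≃ ι) (c z : Fin n → ℝ) :
    shadowSize (fun i => A (e i)) z c = shadowSize A z c := by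
  unfold shadowSize shadow
  simp only [poly_comp_equiv]

/-- A path with `k` steps shows that the path length is at least `k`. -/
lemma lt_pathLen {A : ι → Fin n → ℝ} {c z : Fin n → ℝ} {k x : ℕ} {v : ℕ → E n}
    (h : IsPath A c z k v) (hx : x < k) : (x : ℕ∞) < pathLen A c z := by
  refine lt_of_lt_of_le (Nat.cast_lt.mpr hx) ?_
  exact le_iSup₂_of_le k ⟨v, h⟩ le_rfl

end Pool.Agent.MP42
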