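import Mathlib

/-!
Definitions for the problem on steepest-edge paths versus shadow sizes.
-/

namespace Pool.Agent.MP42

open MeasureTheory ProbabilityTheory Set
open scoped ENNReal NNReal

/-- The value `c · x` of the linear functional with coefficient vector `c` at the point `x`. -/
def dotE {n : ℕ} (c : Fin n → ℝ) (x : EuclideanSpace ℝ (Fin n)) : ℝ := ∑ j, c j * x j

/-- The polyhedron `Q = {x : A x ≤ 1}`. -/
def poly {ι : Type} {n : ℕ} (A : ι → Fin n → ℝ) : Set (EuclideanSpace ℝ (Fin n)) :=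
  {x | ∀ i, dotE (A i) x ≤ 1}

/-- The vertices of `Q`. -/
def vertices {ι : Type} {n : ℕ} (A : ι → Fin n → ℝ) : Set (EuclideanSpace ℝ (Fin n)) :=
  (poly A).extremePoints ℝ

/-- The constraints that are tight at `x`. -/
def tight {ι : Type} {n : ℕ} (A : ι → Fin n → ℝ) (x : EuclideanSpace ℝ (Fin n)) : Set ι :=
  {i | dotE (A i) x = 1}

/-- Two vertices are neighbours if their tight sets differ in exactly one constraint. -/
def Nbr {ι : Type} {n : ℕ} (A : ι → Fin n → ℝ) (x y : EuclideanSpace ℝ (Fin n)) : Prop :=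
  x ∈ vertices A ∧ y ∈ vertices A ∧
    (tight A x \ tight A y).ncard = 1 ∧ (tight A y \ tight A x).ncard = 1

/-- The slope `c · (y - x) / ‖y - x‖₂` of the edge from `x` to `y`. -/
noncomputable def slope {n : ℕ} (c : Fin n → ℝ) (x y : EuclideanSpace ℝ (Fin n)) : ℝ :=
  dotE c (y - x) / ‖y - x‖

/-- `y` is the steepest `c`-increasing neighbour of `x`: the unique maximiser of the slope among
the neighbours `u` of `x` with `c · (u - x) > 0`. -/
def IsSteepest {ι : Type} {n : ℕ} (A : ι → Fin n → ℝ) (c : Fin n → ℝ)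
    (x y : EuclideanSpace ℝ (Fin n)) : Prop :=
  Nbr A x y ∧ 0 < dotE c (y - x) ∧
    ∀ u, Nbr A x u → 0 < dotE c (u - x) → u ≠ y → slope c x u < slope c x y

/-- `v` is the vertex of `Q` maximising `z · x` over `Q` (the unique maximiser). -/
def IsStart {ι : Type} {n : ℕ} (A : ι → Fin n → ℝ) (z : Fin n → ℝ)
    (v : EuclideanSpace ℝ (Fin n)) : Prop :=
  v ∈ vertices A ∧ ∀ y ∈ poly A, y ≠ v → dotE z y < dotE z v

/-- The first `k` steps of the steepest-edge path are `v 0, v 1, …, v k`. -/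
def IsPath {ι : Type} {n : ℕ} (A : ι → Fin n → ℝ) (c z : Fin n → ℝ) (k : ℕ)
    (v : ℕ → EuclideanSpace ℝ (Fin n)) : Prop :=
  IsStart A z (v 0) ∧ ∀ i < k, IsSteepest A c (v i) (v (i + 1))

/-- The length (number of steps) of the steepest-edge path. It is `0` if there is no start
vertex. -/
noncomputable def pathLen {ι : Type} {n : ℕ} (A : ι → Fin n → ℝ) (c z : Fin n → ℝ) : ℕ∞ :=
  ⨆ (k : ℕ) (_ : ∃ v, IsPath A c z k v), (k : ℕ∞)

/-- The shadow: the orthogonal projection of `Q` onto the span of `z` and `c`. -/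
noncomputable def shadow {ι : Type} {n : ℕ} (A : ι → Fin n → ℝ) (z c : Fin n → ℝ) :
    Set (EuclideanSpace ℝ (Fin n)) :=
  (Submodule.span ℝ {WithLp.toLp 2 z, WithLp.toLp 2 c}).starProjection '' poly A

/-- The number of vertices of the shadow. -/
noncomputable def shadowSize {ι : Type} {n : ℕ} (A : ι → Fin n → ℝ) (z c : Fin n → ℝ) : ℕ∞ :=
  ((shadow A z c).extremePoints ℝ).encard

/-- The joint law of the `σ`-Gaussian perturbations `A` of `Abar` and `c` of `cbar`
(all entries independent, variance `σ ^ 2`). -/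
noncomputable def law {m n : ℕ} (Abar : Fin m → Fin n → ℝ) (cbar : Fin n → ℝ) (σ : ℝ≥0) :
    Measure ((Fin m → Fin n → ℝ) × (Fin n → ℝ)) :=
  (Measure.pi fun i => Measure.pi fun j => gaussianReal (Abar i j) (σ ^ 2)).prod
    (Measure.pi fun j => gaussianReal (cbar j) (σ ^ 2))

end Pool.Agent.MP42
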