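import Pool.Agent.MP_42ca66_lc.Defs

/-!
Gaussian estimates for boxes.
-/

namespace Pool.Agent.MP42

open MeasureTheory ProbabilityTheory Set
open scoped ENNReal NNReal

lemma subG (μ : ℝ) (v : ℝ≥0) : HasSubgaussianMGF (fun x => x - μ) v (gaussianReal μ v) where
  integrable_exp_mul t := by
    have h := (integrable_exp_mul_gaussianReal (μ := μ) (v := v) t).const_mul (Real.exp (-(t * μ)))
    refine h.congr (Filter.Eventually.of_forall fun x => ?_)
    simp only
    rw [← Real.exp_add]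
    congr 1
    ring
  mgf_le t := by
    have hX : (gaussianReal μ v).map (fun x => x - μ) = gaussianReal (μ - μ) v :=
      gaussianReal_map_sub_const μ
    rw [mgf_gaussianReal hX t]
    apply le_of_eq
    congr 1
    ring

lemma tail (μ : ℝ) (v : ℝ≥0) {r : ℝ} (hr : 0 ≤ r) :
    gaussianReal μ v {x | r < |x - μ|} ≤ ENNReal.ofReal (2 * Real.exp (-r ^ 2 / (2 * v))) := by
  have h1 := (subG μ v).measure_ge_le hr
  have h2 := (subG μ v).neg.measure_ge_le hr
  have hsub : {x | r < |x - μ|} ⊆ {x | r ≤ x - μ} ∪ {x | r ≤ (-fun x => x - μ) x} := by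
    intro x hx
    simp only [Set.mem_ofPred_eq] at hx
    rcases lt_abs.mp hx with h | h
    · left; exact h.le
    · right; exact h.le
  have h3 : gaussianReal μ v {x | r ≤ x - μ} ≤ ENNReal.ofReal (Real.exp (-r ^ 2 / (2 * v))) := by
    rw [← ofReal_measureReal (measure_ne_top _ _)]
    exact ENNReal.ofReal_le_ofReal h1
  have h4 : gaussianReal μ v {x | r ≤ (-fun x => x - μ) x}
      ≤ ENNReal.ofReal (Real.exp (-r ^ 2 / (2 * v))) := by
    rw [← ofReal_measureReal (measure_ne_top _ _)]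
    exact ENNReal.ofReal_le_ofReal h2
  calc gaussianReal μ v {x | r < |x - μ|}
      ≤ gaussianReal μ v ({x | r ≤ x - μ} ∪ {x | r ≤ (-fun x => x - μ) x}) := measure_mono hsub
    _ ≤ gaussianReal μ v {x | r ≤ x - μ} + gaussianReal μ v {x | r ≤ (-fun x => x - μ) x} :=
        measure_union_le _ _
    _ ≤ ENNReal.ofReal (Real.exp (-r ^ 2 / (2 * v))) + ENNReal.ofReal (Real.exp (-r ^ 2 / (2 * v))) :=
        add_le_add h3 h4
    _ = ENNReal.ofReal (2 * Real.exp (-r ^ 2 / (2 * v))) := by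
        rw [← ENNReal.ofReal_add (Real.exp_pos _).le (Real.exp_pos _).le]
        congr 1
        ring

lemma small_ball (μ : ℝ) {σ : ℝ≥0} (hσ : 0 < σ) {t : ℝ} (htσ : t ≤ σ) :
    ENNReal.ofReal (t / (3 * σ)) ≤ gaussianReal μ (σ ^ 2) (Icc (μ - t) (μ + t)) := by
  have hσ' : (0:ℝ) < σ := hσ
  have hv : (σ ^ 2 : ℝ≥0) ≠ 0 := by positivity
  rw [gaussianReal_apply _ hv]
  have hpdf : ∀ x ∈ Icc (μ - t) (μ + t), ENNReal.ofReal (1 / (6 * σ)) ≤ gaussianPDF μ (σ ^ 2) x := by
    intro x hx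
    apply ENNReal.ofReal_le_ofReal
    rw [gaussianPDFReal]
    have h1 : (x - μ) ^ 2 ≤ σ ^ 2 := by
      have : |x - μ| ≤ σ := by
        rw [abs_le]
        constructor <;> linarith [hx.1, hx.2]
      calc (x - μ) ^ 2 = |x - μ| ^ 2 := (sq_abs _).symm
        _ ≤ σ ^ 2 := pow_le_pow_left₀ (abs_nonneg _) this 2
    have hc : ((σ ^ 2 : ℝ≥0) : ℝ) = (σ:ℝ) ^ 2 := by push_cast; rfl
    rw [hc]
    have h2 : 1 / 2 ≤ Real.exp (-(x - μ) ^ 2 / (2 * (σ:ℝ) ^ 2)) := by
      have h3 : -(1 / 2) ≤ -(x - μ) ^ 2 / (2 * (σ:ℝ) ^ 2) := by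
        rw [neg_div, neg_le_neg_iff, div_le_iff₀ (by positivity)]
        linarith
      have h4 := Real.add_one_le_exp (-(x - μ) ^ 2 / (2 * (σ:ℝ) ^ 2))
      linarith
    have h5 : √(2 * Real.pi * (σ:ℝ) ^ 2) ≤ 3 * σ := by
      rw [Real.sqrt_le_left (by positivity)]
      have := Real.pi_lt_d2
      nlinarith [sq_nonneg (σ:ℝ)]
    have h6 : 0 < √(2 * Real.pi * (σ:ℝ) ^ 2) := by
      have := Real.pi_pos
      positivity
    calc 1 / (6 * (σ:ℝ)) = (3 * (σ:ℝ))⁻¹ * (1 / 2) := by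
          field_simp
          norm_num
      _ ≤ (√(2 * Real.pi * (σ:ℝ) ^ 2))⁻¹ * Real.exp (-(x - μ) ^ 2 / (2 * (σ:ℝ) ^ 2)) := by
          apply mul_le_mul _ h2 (by norm_num) (by positivity)
          exact inv_anti₀ h6 h5
  calc ENNReal.ofReal (t / (3 * σ))
      = ENNReal.ofReal (1 / (6 * σ)) * volume (Icc (μ - t) (μ + t)) := by
        rw [Real.volume_Icc, ← ENNReal.ofReal_mul (by positivity)]
        congr 1
        field_simp
        ring
    _ = ∫⁻ _x in Icc (μ - t) (μ + t), ENNReal.ofReal (1 / (6 * σ)) := by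
        rw [setLIntegral_const]
    _ ≤ ∫⁻ x in Icc (μ - t) (μ + t), gaussianPDF μ (σ ^ 2) x :=
        setLIntegral_mono' measurableSet_Icc hpdf

/-- The box of radius `t` around the centre. -/
def boxSet {m n : ℕ} (Abar : Fin m → Fin n → ℝ) (cbar : Fin n → ℝ) (t : ℝ) :
    Set ((Fin m → Fin n → ℝ) × (Fin n → ℝ)) :=
  {ω | (∀ i j, |ω.1 i j - Abar i j| ≤ t) ∧ ∀ j, |ω.2 j - cbar j| ≤ t}

theorem law_box_ge {m n : ℕ} (Abar : Fin m → Fin n → ℝ) (cbar : Fin n → ℝ) {σ : ℝ≥0}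
    (hσ : 0 < σ) {t : ℝ} (ht : 0 ≤ t) (htσ : t ≤ σ) :
    ENNReal.ofReal ((t / (3 * σ)) ^ (m * n + n)) ≤ law Abar cbar σ (boxSet Abar cbar t) := by
  have hσ' : (0:ℝ) < σ := hσ
  have hset : boxSet Abar cbar t
      = (Set.pi univ fun i => Set.pi univ fun j => Icc (Abar i j - t) (Abar i j + t)) ×ˢ
        (Set.pi univ fun j => Icc (cbar j - t) (cbar j + t)) := by
    ext ω
    simp only [boxSet, Set.mem_ofPred_eq, mem_prod, mem_pi, mem_univ, forall_true_left, mem_Icc,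
      abs_le]
    constructor
    · rintro ⟨h1, h2⟩
      exact ⟨fun i j => ⟨by linarith [(h1 i j).1], by linarith [(h1 i j).2]⟩,
        fun j => ⟨by linarith [(h2 j).1], by linarith [(h2 j).2]⟩⟩
    · rintro ⟨h1, h2⟩
      exact ⟨fun i j => ⟨by linarith [(h1 i j).1], by linarith [(h1 i j).2]⟩,
        fun j => ⟨by linarith [(h2 j).1], by linarith [(h2 j).2]⟩⟩
  rw [law, hset, Measure.prod_prod, Measure.pi_pi, Measure.pi_pi]
  simp_rw [Measure.pi_pi]
  have h0 : (0:ℝ) ≤ t / (3 * σ) := by positivity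
  rw [ENNReal.ofReal_pow h0, pow_add, mul_comm m n, pow_mul]
  have e1 : ∀ i : Fin m, ENNReal.ofReal (t / (3 * σ)) ^ n
      ≤ ∏ j, gaussianReal (Abar i j) (σ ^ 2) (Icc (Abar i j - t) (Abar i j + t)) := by
    intro i
    calc ENNReal.ofReal (t / (3 * σ)) ^ n = ∏ _j : Fin n, ENNReal.ofReal (t / (3 * σ)) := by simp
      _ ≤ _ := Finset.prod_le_prod' fun j _ => small_ball _ hσ htσ
  apply mul_le_mul'
  · calc (ENNReal.ofReal (t / (3 * σ)) ^ n) ^ m
        = ∏ _i : Fin m, ENNReal.ofReal (t / (3 * σ)) ^ n := by simp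
      _ ≤ _ := Finset.prod_le_prod' fun i _ => e1 i
  · calc ENNReal.ofReal (t / (3 * σ)) ^ n = ∏ _j : Fin n, ENNReal.ofReal (t / (3 * σ)) := by simp
      _ ≤ _ := Finset.prod_le_prod' fun j _ => small_ball _ hσ htσ

theorem law_box_compl_le {m n : ℕ} (Abar : Fin m → Fin n → ℝ) (cbar : Fin n → ℝ) (σ : ℝ≥0)
    {r : ℝ} (hr : 0 ≤ r) :
    law Abar cbar σ (boxSet Abar cbar r)ᶜ
      ≤ (m * n + n : ℕ) * ENNReal.ofReal (2 * Real.exp (-r ^ 2 / (2 * ((σ ^ 2 : ℝ≥0) : ℝ)))) := by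
  set B := ENNReal.ofReal (2 * Real.exp (-r ^ 2 / (2 * ((σ ^ 2 : ℝ≥0) : ℝ)))) with hB
  have hsub : (boxSet Abar cbar r)ᶜ ⊆
      (⋃ i : Fin m, ⋃ j : Fin n, {ω | r < |ω.1 i j - Abar i j|}) ∪
        ⋃ j : Fin n, {ω | r < |ω.2 j - cbar j|} := by
    intro ω hω
    simp only [boxSet, mem_compl_iff, Set.mem_ofPred_eq, not_and_or, not_forall, not_le] at hω
    rcases hω with ⟨i, j, h⟩ | ⟨j, h⟩
    · left
      exact mem_iUnion.mpr ⟨i, mem_iUnion.mpr ⟨j, h⟩⟩
    · right
      exact mem_iUnion.mpr ⟨j, h⟩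
  have hA : ∀ (i : Fin m) (j : Fin n), law Abar cbar σ {ω | r < |ω.1 i j - Abar i j|} ≤ B := by
    intro i j
    have mp : MeasurePreserving (fun ω : (Fin m → Fin n → ℝ) × (Fin n → ℝ) => ω.1 i j)
        (law Abar cbar σ) (gaussianReal (Abar i j) (σ ^ 2)) := by
      have h1 : MeasurePreserving Prod.fst (law Abar cbar σ)
          (Measure.pi fun i => Measure.pi fun j => gaussianReal (Abar i j) (σ ^ 2)) :=
        measurePreserving_fst
      have h2 := measurePreserving_eval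
        (fun i => Measure.pi fun j => gaussianReal (Abar i j) (σ ^ 2)) i
      have h3 := measurePreserving_eval (fun j => gaussianReal (Abar i j) (σ ^ 2)) j
      exact h3.comp (h2.comp h1)
    have hm : MeasurableSet {x : ℝ | r < |x - Abar i j|} :=
      measurableSet_lt measurable_const (by fun_prop)
    have := mp.measure_preimage hm.nullMeasurableSet
    calc law Abar cbar σ {ω | r < |ω.1 i j - Abar i j|}
        = gaussianReal (Abar i j) (σ ^ 2) {x : ℝ | r < |x - Abar i j|} := this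
      _ ≤ B := tail _ _ hr
  have hC : ∀ j : Fin n, law Abar cbar σ {ω | r < |ω.2 j - cbar j|} ≤ B := by
    intro j
    have mp : MeasurePreserving (fun ω : (Fin m → Fin n → ℝ) × (Fin n → ℝ) => ω.2 j)
        (law Abar cbar σ) (gaussianReal (cbar j) (σ ^ 2)) := by
      have h1 : MeasurePreserving Prod.snd (law Abar cbar σ)
          (Measure.pi fun j => gaussianReal (cbar j) (σ ^ 2)) :=
        measurePreserving_snd
      have h3 := measurePreserving_eval (fun j => gaussianReal (cbar j) (σ ^ 2)) j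
      exact h3.comp h1
    have hm : MeasurableSet {x : ℝ | r < |x - cbar j|} :=
      measurableSet_lt measurable_const (by fun_prop)
    have := mp.measure_preimage hm.nullMeasurableSet
    calc law Abar cbar σ {ω | r < |ω.2 j - cbar j|}
        = gaussianReal (cbar j) (σ ^ 2) {x : ℝ | r < |x - cbar j|} := this
      _ ≤ B := tail _ _ hr
  calc law Abar cbar σ (boxSet Abar cbar r)ᶜ
      ≤ law Abar cbar σ ((⋃ i : Fin m, ⋃ j : Fin n, {ω | r < |ω.1 i j - Abar i j|}) ∪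
        ⋃ j : Fin n, {ω | r < |ω.2 j - cbar j|}) := measure_mono hsub
    _ ≤ law Abar cbar σ (⋃ i : Fin m, ⋃ j : Fin n, {ω | r < |ω.1 i j - Abar i j|})
        + law Abar cbar σ (⋃ j : Fin n, {ω | r < |ω.2 j - cbar j|}) := measure_union_le _ _
    _ ≤ (∑ i : Fin m, ∑ j : Fin n, B) + ∑ j : Fin n, B := by
        apply add_le_add
        · refine (measure_iUnion_fintype_le _ _).trans (Finset.sum_le_sum fun i _ => ?_)
          exact (measure_iUnion_fintype_le _ _).trans (Finset.sum_le_sum fun j _ => hA i j)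
        · exact (measure_iUnion_fintype_le _ _).trans (Finset.sum_le_sum fun j _ => hC j)
    _ = (m * n + n : ℕ) * B := by
        simp only [Finset.sum_const, Finset.card_univ, Fintype.card_fin, nsmul_eq_mul]
        push_cast
        ring

end Pool.Agent.MP42
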