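import Pool.Agent.MP_42ca66_lc.Box

/-!
Geometry of the perturbed polyhedron in the coordinates `w`.
-/

namespace Pool.Agent.MP42

open Finset

lemma al0_abs {p : ℕ} (hp : 8 ≤ p) (i : Row p) (j : Fin (p + 1)) :
    |al0 p i j| ≤ 512 * (p + 1) := by
  have hp' : (8:ℝ) ≤ p := by exact_mod_cast hp
  rcases i with (l | l) | k
  · refine Fin.cases ?_ (fun j => ?_) j
    · rw [al0, vec_zero, abs_zero]; linarith
    · rw [al0, vec_succ, cl]
      split_ifs
      · rw [abs_neg, abs_one]; linarith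
      · rw [abs_zero]; linarith
  · refine Fin.cases ?_ (fun j => ?_) j
    · rw [al0, vec_zero, abs_neg, abs_of_pos (by linarith)]; linarith
    · rw [al0, vec_succ, cu]
      split_ifs
      · rw [abs_one]; linarith
      · rw [abs_of_pos (by linarith)]; linarith
      · rw [abs_zero]; linarith
  · rw [al0]
    split_ifs
    · refine Fin.cases ?_ (fun j => ?_) j
      · rw [vec_zero, abs_neg, abs_one]; linarith
      · rw [vec_succ, Pi.zero_apply, abs_zero]; linarith
    · refine Fin.cases ?_ (fun j => ?_) j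
      · rw [vec_zero, abs_one]; linarith
      · rw [vec_succ, Pi.zero_apply, abs_zero]; linarith
    · refine Fin.cases ?_ (fun j => ?_) j
      · rw [vec_zero, abs_neg, abs_of_pos (by norm_num)]; linarith
      · rw [vec_succ, cs]
        split_ifs
        · rw [abs_of_pos (by norm_num)]; linarith
        · rw [abs_one]; linarith

lemma cc0_abs {p : ℕ} (hp : 8 ≤ p) (j : Fin (p + 1)) : |cc0 p j| ≤ 512 * (p + 1) := by
  have hp' : (8:ℝ) ≤ p := by exact_mod_cast hp
  refine Fin.cases ?_ (fun j => ?_) j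
  · rw [cc0, vec_zero, abs_neg, abs_of_pos (by linarith)]; linarith
  · rw [cc0, vec_succ]
    have h1 : ((j : ℕ) : ℝ) ≤ p := by exact_mod_cast j.2.le
    have h2 : (0:ℝ) ≤ (j : ℕ) := Nat.cast_nonneg _
    rw [abs_of_nonneg (by linarith)]
    linarith

lemma zz_abs {p : ℕ} (hp : 8 ≤ p) (j : Fin (p + 1)) : |zz p j| ≤ 512 * (p + 1) := by
  have hp' : (8:ℝ) ≤ p := by exact_mod_cast hp
  refine Fin.cases ?_ (fun j => ?_) j
  · rw [zz, vec_zero, abs_of_pos (by norm_num)]; linarith
  · rw [zz, vec_succ]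
    split_ifs
    · rw [abs_neg, abs_of_pos (by norm_num)]; linarith
    · rw [abs_neg, abs_of_pos (by norm_num)]; linarith
    · rw [abs_neg, abs_one]; linarith

/-- Geometry of the perturbed polyhedron. -/
theorem box_geom {p : ℕ} (hp : 8 ≤ p) {α : Row p → Fin (p + 1) → ℝ} {β : Row p → ℝ}
    {c : Fin (p + 1) → ℝ} {r : ℝ} (h : NearS p α β c r) :
    ∃ v va vb : Fin (p + 1) → ℝ,
      (∀ w, (∀ j, dt (α (stS p j)) w = β (stS p j)) → w = v) ∧
      (∀ i, dt (α i) v ≤ β i) ∧ (∀ i, dt (α i) va ≤ β i) ∧ (∀ i, dt (α i) vb ≤ β i) ∧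
      (∀ y, (∀ i, dt (α i) y ≤ β i) → ∃ a b d : ℝ, 0 ≤ a ∧ 0 ≤ b ∧ 0 ≤ d ∧ a + b + d = 1 ∧
        dt (zz p) y = a * dt (zz p) v + b * dt (zz p) va + d * dt (zz p) vb ∧
        dt c y = a * dt c v + b * dt c va + d * dt c vb) ∧
      (∀ y, (∀ i, dt (α i) y ≤ β i) → y ≠ v → dt (zz p) y < dt (zz p) v) ∧
      (∀ y, (∀ i, dt (α i) y ≤ β i) → ∀ k, |y k| ≤ 30) := by
  have hp' : (8:ℝ) ≤ p := by exact_mod_cast hp
  obtain ⟨v, g, hv, huniq, hg, hrep, hv2, hg2, hfun⟩ := box_core hp h
  have hr1 : r ≤ 1 / 1000 := by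
    have hr0 := h.hr0
    have hr := h.hr
    have : 1 ≤ 2050 * ((p:ℝ) + 1) ^ 3 := by
      have : (1:ℝ) ≤ ((p:ℝ) + 1) ^ 3 := one_le_pow₀ (by linarith)
      linarith
    nlinarith
  -- indices
  have hp1 : p - 1 < p := by omega
  have hp0 : 0 < p := by omega
  set ia : Fin p := ⟨p - 1, hp1⟩ with hia
  set ib : Fin p := ⟨0, hp0⟩ with hib
  -- values of the functionals
  obtain ⟨hSv, hSg⟩ := hfun (α (.inr 2)) (al0 p (.inr 2)) (h.hα _) (al0_abs hp _)
  obtain ⟨hZv, hZg⟩ := hfun (zz p) (zz p) (fun j => by rw [sub_self, abs_zero]; exact h.hr0)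
    (zz_abs hp)
  obtain ⟨hCv, hCg⟩ := hfun c (cc0 p) h.hc (cc0_abs hp)
  have hal2 : al0 p (.inr 2) = vec p (-6) (cs p) := by
    rw [al0, if_neg (by decide), if_neg (by decide)]
  rw [hal2] at hSv hSg
  rw [dt_vec_start] at hSv
  have hS0 := hSg 0
  have hZ0 := hZg 0
  have hC0 := hCg 0
  rw [dt_vec_DS_zero] at hS0
  rw [zz, dt_vec_DS_zero, ← zz] at hZ0
  rw [cc0, dt_vec_DS_zero] at hC0
  have hS1 : ∀ l : Fin p, |dt (α (.inr 2)) (g l.succ) - cs p l| ≤ 1 / 1000 := by
    intro l
    have := hSg l.succ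
    rwa [dt_vec_DS_succ] at this
  have hZ1 : ∀ l : Fin p, |dt (zz p) (g l.succ) -
      (if (l:ℕ) = 0 then -2048 else if (l:ℕ) + 1 < p then -512 else -1)| ≤ 1 / 1000 := by
    intro l
    have := hZg l.succ
    rw [zz, dt_vec_DS_succ, ← zz] at this
    exact this
  have hC1 : ∀ l : Fin p, |dt c (g l.succ) - (4 * (p:ℝ) - (l:ℕ))| ≤ 1 / 1000 := by
    intro l
    have := hCg l.succ
    rwa [cc0, dt_vec_DS_succ] at this
  -- special values
  have hZa : |dt (zz p) (g ia.succ) - -1| ≤ 1 / 1000 := by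
    have := hZ1 ia
    have e1 : ¬ ((ia:ℕ) = 0) := by rw [hia]; simp; omega
    have e2 : ¬ ((ia:ℕ) + 1 < p) := by rw [hia]; simp; omega
    rwa [if_neg e1, if_neg e2] at this
  have hZb : |dt (zz p) (g ib.succ) - -2048| ≤ 1 / 1000 := by
    have := hZ1 ib
    rwa [if_pos rfl] at this
  have hCa : |dt c (g ia.succ) - (3 * (p:ℝ) + 1)| ≤ 1 / 1000 := by
    have := hC1 ia
    have e : (4 * (p:ℝ) - ((ia:ℕ):ℝ)) = 3 * p + 1 := by
      rw [hia]
      simp only
      rw [Nat.cast_sub (by omega)]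
      push_cast
      ring
    rwa [e] at this
  have hCb : |dt c (g ib.succ) - 4 * (p:ℝ)| ≤ 1 / 1000 := by
    have := hC1 ib
    have e : (4 * (p:ℝ) - ((ib:ℕ):ℝ)) = 4 * p := by rw [hib]; simp
    rwa [e] at this
  have hSa : |dt (α (.inr 2)) (g ia.succ) - 1| ≤ 1 / 1000 := by
    have := hS1 ia
    have e2 : ¬ ((ia:ℕ) + 1 < p) := by rw [hia]; simp; omega
    rwa [cs, if_neg e2] at this
  have hSb : |dt (α (.inr 2)) (g ib.succ) - 512| ≤ 1 / 1000 := by
    have := hS1 ib
    have e2 : ((ib:ℕ) + 1 < p) := by rw [hib]; simp; omega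
    rwa [cs, if_pos e2] at this
  set Z : Fin (p + 1) → ℝ := fun j => dt (zz p) (g j) with hZdef
  set C : Fin (p + 1) → ℝ := fun j => dt c (g j) with hCdef
  set σ : Fin (p + 1) → ℝ := fun j => dt (α (.inr 2)) (g j) with hσdef
  change |Z ia.succ - -1| ≤ 1 / 1000 at hZa
  change |Z ib.succ - -2048| ≤ 1 / 1000 at hZb
  change |C ia.succ - _| ≤ 1 / 1000 at hCa
  change |C ib.succ - _| ≤ 1 / 1000 at hCb
  change |σ ia.succ - 1| ≤ 1 / 1000 at hSa
  change |σ ib.succ - 512| ≤ 1 / 1000 at hSb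
  have hΔ := det_ab hp' hZa hCa hZb hCb
  have hcond : ∀ j, 0 ≤ Z j * C ib.succ - C j * Z ib.succ ∧
      0 ≤ Z ia.succ * C j - C ia.succ * Z j ∧
      (Z j * C ib.succ - C j * Z ib.succ) * σ ia.succ +
        (Z ia.succ * C j - C ia.succ * Z j) * σ ib.succ
        ≤ (Z ia.succ * C ib.succ - C ia.succ * Z ib.succ) * σ j := by
    intro j
    refine Fin.cases ?_ (fun l => ?_) j
    · refine dets_top hp' hZa hCa hSa hZb hCb hSb ?_ ?_ ?_
      · simpa using hZ0
      · have : (9 * (p:ℝ) + 3) = - -(9 * p + 3) := by ring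
        rw [this]; exact hC0
      · simpa using hS0
    · by_cases hl0 : (l:ℕ) = 0
      · have : l = ib := Fin.ext hl0
        rw [this]
        refine ⟨by rw [mul_comm, sub_self], by linarith, ?_⟩
        rw [mul_comm (Z ib.succ), sub_self, zero_mul, zero_add]
      · by_cases hl1 : (l:ℕ) + 1 < p
        · have hz := hZ1 l
          rw [if_neg hl0, if_pos hl1] at hz
          have hs := hS1 l
          rw [cs, if_pos hl1] at hs
          exact dets_mid hp' (Nat.cast_nonneg (l:ℕ)) (by exact_mod_cast l.2.le)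
            hZa hCa hSa hZb hCb hSb hz (hC1 l) hs
        · have : l = ia := Fin.ext (by rw [hia]; simp; omega)
          rw [this]
          refine ⟨by linarith, by rw [mul_comm, sub_self], ?_⟩
          rw [mul_comm (C ia.succ) (Z ia.succ), sub_self, zero_mul, add_zero]
  have hσpos : ∀ j, 999 / 1000 ≤ σ j := by
    intro j
    refine Fin.cases ?_ (fun l => ?_) j
    · have := (abs_le.mp hS0).1
      change 999 / 1000 ≤ σ 0
      change -(1 / 1000) ≤ σ 0 - - -6 at this
      linarith
    · have := (abs_le.mp (hS1 l)).1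
      change 999 / 1000 ≤ σ l.succ
      change -(1 / 1000) ≤ σ l.succ - cs p l at this
      have h2 : 1 ≤ cs p l := by rw [cs]; split_ifs <;> norm_num
      linarith
  have hZneg : ∀ j, Z j ≤ -(999 / 1000) := by
    intro j
    refine Fin.cases ?_ (fun l => ?_) j
    · have := (abs_le.mp hZ0).2
      change Z 0 ≤ _
      change Z 0 - -6 ≤ 1 / 1000 at this
      linarith
    · have := (abs_le.mp (hZ1 l)).2
      change Z l.succ ≤ _
      change Z l.succ - _ ≤ 1 / 1000 at this
      have h2 : (if (l:ℕ) = 0 then (-2048:ℝ) else if (l:ℕ) + 1 < p then -512 else -1) ≤ -1 := by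
        split_ifs <;> norm_num
      linarith
  set κ : ℝ := β (.inr 2) - dt (α (.inr 2)) v with hκ
  have hbe2 : be0 p (.inr 2) = 6 := by simp [be0]
  have hκ12 : |κ - 12| ≤ 2 / 1000 := by
    have h1 := h.hβ (.inr 2)
    rw [hbe2] at h1
    rw [abs_le] at *
    constructor <;> linarith
  rw [abs_le] at hκ12
  have hκpos : 0 < κ := by linarith
  -- the two other vertices of the triangle
  have hlin : ∀ (a : Fin (p + 1) → ℝ) (s : ℝ) (j : Fin (p + 1)),
      dt a (fun k => v k + s * g j k) = dt a v + s * dt a (g j) := by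
    intro a s j
    simp only [dt, mul_add, sum_add_distrib, mul_sum]
    congr 1
    apply sum_congr rfl
    intro k _
    ring
  -- bottom and upper rows
  obtain ⟨hBv, hBg⟩ := hfun (α (.inr 0)) (al0 p (.inr 0)) (h.hα _) (al0_abs hp _)
  have hal0 : al0 p (.inr 0) = vec p (-1) 0 := by rw [al0, if_pos rfl]
  rw [hal0] at hBv hBg
  rw [dt_vec_start] at hBv
  have hbe0 : |β (.inr 0)| ≤ 1 / 1000 := by
    have h1 := h.hβ (.inr 0)
    have : be0 p (.inr 0) = 0 := by simp [be0]
    rw [this, sub_zero] at h1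
    linarith
  have hU : ∀ l : Fin p, |dt (α (.inl (.inr l))) v - -(3 * p + 1)| ≤ 1 / 1000 ∧
      ∀ m : Fin p, |dt (α (.inl (.inr l))) (g m.succ) - cu (64 * p) l m| ≤ 1 / 1000 := by
    intro l
    obtain ⟨a1, a2⟩ := hfun (α (.inl (.inr l))) (al0 p (.inl (.inr l))) (h.hα _) (al0_abs hp _)
    rw [al0] at a1 a2
    rw [dt_vec_start] at a1
    refine ⟨a1, fun m => ?_⟩
    have := a2 m.succ
    rwa [dt_vec_DS_succ] at this
  have hbeU : ∀ l : Fin p, -(1 / 1000) ≤ β (.inl (.inr l)) := by
    intro l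
    have h1 := (abs_le.mp (h.hβ (.inl (.inr l)))).1
    have h2 : 0 ≤ be0 p (.inl (.inr l)) := by
      have := zt_pos hp
      simp only [be0]
      positivity
    linarith
  rw [abs_le] at hSa hSb
  have hfeas : ∀ (m : Fin p) (s : ℝ), 0 ≤ s → s * σ m.succ = κ →
      (∀ l : Fin p, s * (cu (64 * p) l m + 1 / 1000) ≤ 3 * p + 1 - 2 / 1000) → s ≤ 13 →
      ∀ i, dt (α i) (fun k => v k + s * g m.succ k) ≤ β i := by
    intro m s hs0 hsσ hsu hs13 i
    rw [hlin]
    rcases i with (l | l) | k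
    · have h1 := hv l.succ
      have h2 := hg m.succ l.succ
      rw [stS_succ] at h1 h2
      rw [h1, h2]
      split_ifs <;> linarith
    · obtain ⟨u1, u2⟩ := hU l
      have h1 := (abs_le.mp u1).2
      have h2 := (abs_le.mp (u2 m)).2
      have h3 := hbeU l
      have h4 : s * dt (α (.inl (.inr l))) (g m.succ) ≤ s * (cu (64 * p) l m + 1 / 1000) :=
        mul_le_mul_of_nonneg_left (by linarith) hs0
      have h5 := hsu l
      linarith
    · fin_cases k
      · change dt (α (.inr 0)) v + s * dt (α (.inr 0)) (g m.succ) ≤ β (.inr 0)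
        have h1 := (abs_le.mp hBv).2
        have h2 := hBg m.succ
        rw [dt_vec_DS_succ, Pi.zero_apply, sub_zero] at h2
        have h3 := (abs_le.mp h2).2
        have h4 := (abs_le.mp hbe0).1
        have h5 : s * dt (α (.inr 0)) (g m.succ) ≤ s * (1 / 1000) :=
          mul_le_mul_of_nonneg_left h3 hs0
        linarith
      · change dt (α (.inr 1)) v + s * dt (α (.inr 1)) (g m.succ) ≤ β (.inr 1)
        have h1 := hv 0
        have h2 := hg m.succ 0
        rw [stS_zero] at h1 h2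
        rw [h1, h2, if_neg (Fin.succ_ne_zero m).symm]
        linarith
      · change dt (α (.inr 2)) v + s * dt (α (.inr 2)) (g m.succ) ≤ β (.inr 2)
        change dt (α (.inr 2)) v + s * σ m.succ ≤ β (.inr 2)
        rw [hsσ, hκ]
        linarith
  have hcu0 : ∀ l m : ℕ, 0 ≤ cu (64 * (p:ℝ)) l m := by
    intro l m
    rw [cu]
    split_ifs
    · norm_num
    · linarith
    · norm_num
  have hsa : 0 < σ ia.succ := by linarith
  have hsb : 0 < σ ib.succ := by linarith
  refine ⟨v, fun k => v k + (κ / σ ia.succ) * g ia.succ k,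
    fun k => v k + (κ / σ ib.succ) * g ib.succ k, huniq, ?_, ?_, ?_, ?_, ?_, ?_⟩
  · -- v is feasible
    intro i
    rcases i with (l | l) | k
    · have h1 := hv l.succ
      rw [stS_succ] at h1
      exact h1.le
    · obtain ⟨u1, -⟩ := hU l
      have h1 := (abs_le.mp u1).2
      have h3 := hbeU l
      linarith
    · fin_cases k
      · change dt (α (.inr 0)) v ≤ β (.inr 0)
        have h1 := (abs_le.mp hBv).2
        have h4 := (abs_le.mp hbe0).1
        linarith
      · change dt (α (.inr 1)) v ≤ β (.inr 1)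
        have h1 := hv 0
        rw [stS_zero] at h1
        exact h1.le
      · change dt (α (.inr 2)) v ≤ β (.inr 2)
        linarith
  · apply hfeas ia
    · positivity
    · rw [div_mul_cancel₀ _ hsa.ne']
    · intro l
      have h1 : cu (64 * (p:ℝ)) l ia ≤ 1 := by
        rw [cu, hia]
        simp only
        have := l.2
        split_ifs
        · exact le_rfl
        · omega
        · norm_num
      have h2 : κ / σ ia.succ ≤ 13 := by
        rw [div_le_iff₀ hsa]
        linarith
      have h3 : 0 ≤ κ / σ ia.succ := by positivity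
      have h4 := hcu0 l ia
      calc κ / σ ia.succ * (cu (64 * p) l ia + 1 / 1000) ≤ 13 * (1 + 1 / 1000) := by
            apply mul_le_mul h2 (by linarith) (by linarith) (by norm_num)
        _ ≤ 3 * p + 1 - 2 / 1000 := by linarith
    · rw [div_le_iff₀ hsa]
      linarith
  · apply hfeas ib
    · positivity
    · rw [div_mul_cancel₀ _ hsb.ne']
    · intro l
      have h1 : cu (64 * (p:ℝ)) l ib ≤ 64 * p := by
        rw [cu]
        split_ifs
        · linarith
        · exact le_rfl
        · linarith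
      have h2 : κ / σ ib.succ ≤ 1 / 40 := by
        rw [div_le_iff₀ hsb]
        linarith
      have h3 : 0 ≤ κ / σ ib.succ := by positivity
      have h4 := hcu0 l ib
      calc κ / σ ib.succ * (cu (64 * p) l ib + 1 / 1000) ≤ 1 / 40 * (64 * p + 1 / 1000) := by
            apply mul_le_mul h2 (by linarith) (by linarith) (by norm_num)
        _ ≤ 3 * p + 1 - 2 / 1000 := by linarith
    · rw [div_le_iff₀ hsb]
      linarith
  · -- the triangle
    intro y hy
    obtain ⟨ξ, hξ0, hξ⟩ := hrep y hy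
    set Δ := Z ia.succ * C ib.succ - C ia.succ * Z ib.succ with hΔdef
    have hΔpos : 0 < Δ := by linarith
    set μ := (∑ j, ξ j * (Z j * C ib.succ - C j * Z ib.succ)) / Δ with hμ
    set ν := (∑ j, ξ j * (Z ia.succ * C j - C ia.succ * Z j)) / Δ with hν
    have hμ0 : 0 ≤ μ := div_nonneg (sum_nonneg fun j _ => mul_nonneg (hξ0 j) (hcond j).1) hΔpos.le
    have hν0 : 0 ≤ ν := div_nonneg (sum_nonneg fun j _ => mul_nonneg (hξ0 j) (hcond j).2.1)
      hΔpos.le
    have hZs : ∑ j, ξ j * Z j = μ * Z ia.succ + ν * Z ib.succ := by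
      rw [hμ, hν, div_mul_eq_mul_div, div_mul_eq_mul_div, ← add_div, eq_div_iff hΔpos.ne',
        sum_mul, sum_mul, sum_mul, ← sum_add_distrib]
      apply sum_congr rfl
      intro j _
      rw [hΔdef]
      ring
    have hCs : ∑ j, ξ j * C j = μ * C ia.succ + ν * C ib.succ := by
      rw [hμ, hν, div_mul_eq_mul_div, div_mul_eq_mul_div, ← add_div, eq_div_iff hΔpos.ne',
        sum_mul, sum_mul, sum_mul, ← sum_add_distrib]
      apply sum_congr rfl
      intro j _
      rw [hΔdef]
      ring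
    have hσs : μ * σ ia.succ + ν * σ ib.succ ≤ ∑ j, ξ j * σ j := by
      rw [hμ, hν, div_mul_eq_mul_div, div_mul_eq_mul_div, ← add_div, div_le_iff₀ hΔpos,
        sum_mul, sum_mul, sum_mul, ← sum_add_distrib]
      apply sum_le_sum
      intro j _
      have := mul_le_mul_of_nonneg_left (hcond j).2.2 (hξ0 j)
      linarith
    have hside : ∑ j, ξ j * σ j ≤ κ := by
      have h1 := hy (.inr 2)
      rw [hξ] at h1
      rw [hκ]
      change dt (α (.inr 2)) v + ∑ j, ξ j * σ j ≤ _ at h1
      linarith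
    refine ⟨1 - μ * σ ia.succ / κ - ν * σ ib.succ / κ, μ * σ ia.succ / κ, ν * σ ib.succ / κ,
      ?_, by positivity, by positivity, by ring, ?_, ?_⟩
    · rw [sub_sub, sub_nonneg, ← add_div, div_le_one hκpos]
      linarith
    · rw [hlin, hlin, hξ]
      change dt (zz p) v + ∑ j, ξ j * Z j = _
      rw [hZs]
      change _ = _ + μ * σ ia.succ / κ * (dt (zz p) v + κ / σ ia.succ * Z ia.succ)
        + ν * σ ib.succ / κ * (dt (zz p) v + κ / σ ib.succ * Z ib.succ)
      field_simp
      ring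
    · rw [hlin, hlin, hξ]
      change dt c v + ∑ j, ξ j * C j = _
      rw [hCs]
      change _ = _ + μ * σ ia.succ / κ * (dt c v + κ / σ ia.succ * C ia.succ)
        + ν * σ ib.succ / κ * (dt c v + κ / σ ib.succ * C ib.succ)
      field_simp
      ring
  · -- strict maximality
    intro y hy hne
    obtain ⟨ξ, hξ0, hξ⟩ := hrep y hy
    have hex : ∃ j, 0 < ξ j := by
      by_contra hno
      push Not at hno
      apply hne
      funext k
      have h1 := hξ (Pi.single k 1)
      have h2 : ∑ j, ξ j * dt (Pi.single k 1) (g j) = 0 := by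
        apply sum_eq_zero
        intro j _
        have : ξ j = 0 := le_antisymm (hno j) (hξ0 j)
        rw [this, zero_mul]
      rw [h2, add_zero] at h1
      simpa [dt, Pi.single_apply] using h1
    obtain ⟨j0, hj0⟩ := hex
    rw [hξ]
    have : ∑ j, ξ j * dt (zz p) (g j) < 0 := by
      apply sum_neg'
      · intro j _
        have := hZneg j
        change ξ j * Z j ≤ 0
        exact mul_nonpos_of_nonneg_of_nonpos (hξ0 j) (by linarith)
      · refine ⟨j0, mem_univ _, ?_⟩
        have := hZneg j0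
        change ξ j0 * Z j0 < 0
        exact mul_neg_of_pos_of_neg hj0 (by linarith)
    linarith
  · -- boundedness
    intro y hy k
    obtain ⟨ξ, hξ0, hξ⟩ := hrep y hy
    have hside : ∑ j, ξ j * σ j ≤ κ := by
      have h1 := hy (.inr 2)
      rw [hξ] at h1
      rw [hκ]
      change dt (α (.inr 2)) v + ∑ j, ξ j * σ j ≤ _ at h1
      linarith
    have hsum : ∑ j, ξ j ≤ 13 := by
      have h1 : ∑ j, ξ j * (999 / 1000) ≤ ∑ j, ξ j * σ j :=
        sum_le_sum fun j _ => mul_le_mul_of_nonneg_left (hσpos j) (hξ0 j)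
      rw [← sum_mul] at h1
      linarith
    have h1 := hξ (Pi.single k 1)
    have e1 : ∀ x : Fin (p + 1) → ℝ, dt (Pi.single k 1) x = x k := by
      intro x
      simp [dt, Pi.single_apply]
    simp only [e1] at h1
    rw [h1]
    have h2 : |∑ j, ξ j * g j k| ≤ ∑ j, ξ j * 2 := by
      refine (abs_sum_le_sum_abs _ _).trans (sum_le_sum fun j _ => ?_)
      rw [abs_mul, abs_of_nonneg (hξ0 j)]
      exact mul_le_mul_of_nonneg_left (hg2 j k) (hξ0 j)
    rw [← sum_mul] at h2
    have h3 := hv2 k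
    have := abs_add_le (v k) (∑ j, ξ j * g j k)
    linarith

end Pool.Agent.MP42
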