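import Pool.Agent.MP_42ca66_lc.Crit

/-!
Perturbation of square linear systems, and the robust form of the step criterion.
-/

namespace Pool.Agent.MP42

open Set

variable {ι : Type} {n : ℕ}

/-- Plain dot product. -/
def dt (a d : Fin n → ℝ) : ℝ := ∑ j, a j * d j

/-- Plain squared Euclidean norm. -/
def nsq (d : Fin n → ℝ) : ℝ := ∑ j, d j ^ 2

lemma dt_sub_left (a b d : Fin n → ℝ) : dt (fun j => a j - b j) d = dt a d - dt b d := by
  simp [dt, sub_mul, Finset.sum_sub_distrib]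

lemma dt_sub_right (a d d' : Fin n → ℝ) : dt a (fun j => d j - d' j) = dt a d - dt a d' := by
  simp [dt, mul_sub, Finset.sum_sub_distrib]

lemma abs_dt_le {a d : Fin n → ℝ} {P Q : ℝ} (hP : ∀ j, |a j| ≤ P)
    (hQ : ∀ j, |d j| ≤ Q) : |dt a d| ≤ n * P * Q := by
  calc |dt a d| ≤ ∑ j, |a j * d j| := Finset.abs_sum_le_sum_abs _ _
    _ ≤ ∑ _j : Fin n, P * Q := by
        apply Finset.sum_le_sum
        intro j _
        rw [abs_mul]
        exact mul_le_mul (hP j) (hQ j) (abs_nonneg _) (le_trans (abs_nonneg _) (hP j))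
    _ = n * P * Q := by simp; ring

/-- `M0` has condition constant `K`. -/
def CondK (M0 : Fin n → Fin n → ℝ) (K : ℝ) : Prop :=
  ∀ (d : Fin n → ℝ) (R : ℝ), 0 ≤ R → (∀ j, |dt (M0 j) d| ≤ R) → ∀ j, |d j| ≤ K * R

lemma condK_pert {M0 M : Fin n → Fin n → ℝ} {K η : ℝ} (hK : CondK M0 K) (hK0 : 0 ≤ K)
    (hη0 : 0 ≤ η) (hM : ∀ i j, |M i j - M0 i j| ≤ η) (hsmall : n * K * η ≤ 1 / 2) :
    CondK M (2 * K) := by
  intro d R hR hd
  have hD : ∀ j, |d j| ≤ ‖d‖ := fun j => by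
    rw [← Real.norm_eq_abs]; exact norm_le_pi_norm d j
  have h1 : ∀ i, |dt (M0 i) d| ≤ R + n * η * ‖d‖ := by
    intro i
    have e : dt (M0 i) d = dt (M i) d - dt (fun j => M i j - M0 i j) d := by
      rw [dt_sub_left]; ring
    rw [e]
    calc |dt (M i) d - dt (fun j => M i j - M0 i j) d|
        ≤ |dt (M i) d| + |dt (fun j => M i j - M0 i j) d| := abs_sub _ _
      _ ≤ R + n * η * ‖d‖ := add_le_add (hd i) (abs_dt_le (hM i) hD)
  have hnn : 0 ≤ R + n * η * ‖d‖ := by positivity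
  have h2 := hK d _ hnn h1
  have h3 : ‖d‖ ≤ K * (R + n * η * ‖d‖) := by
    rw [pi_norm_le_iff_of_nonneg (by positivity)]
    intro j
    rw [Real.norm_eq_abs]
    exact h2 j
  have h4 : ‖d‖ ≤ 2 * K * R := by
    have : K * (n * η * ‖d‖) ≤ 1 / 2 * ‖d‖ := by
      calc K * (n * η * ‖d‖) = (n * K * η) * ‖d‖ := by ring
        _ ≤ 1 / 2 * ‖d‖ := by
          apply mul_le_mul_of_nonneg_right hsmall (norm_nonneg _)
    nlinarith
  intro j
  exact (hD j).trans h4

lemma condK_zero {M : Fin n → Fin n → ℝ} {K : ℝ} (hK : CondK M K) {d : Fin n → ℝ}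
    (h : ∀ j, dt (M j) d = 0) : d = 0 := by
  funext j
  have := hK d 0 le_rfl (fun j => by rw [h j, abs_zero]) j
  rw [mul_zero] at this
  exact abs_nonpos_iff.mp this

lemma condK_surj {M : Fin n → Fin n → ℝ} {K : ℝ} (hK : CondK M K) (y : Fin n → ℝ) :
    ∃ d : Fin n → ℝ, ∀ j, dt (M j) d = y j := by
  let L : (Fin n → ℝ) →ₗ[ℝ] (Fin n → ℝ) := Matrix.mulVecLin (Matrix.of M)
  have hL : ∀ d j, L d j = dt (M j) d := by
    intro d j
    simp [L, dt, Matrix.mulVec, dotProduct]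
  have hinj : Function.Injective L := by
    rw [injective_iff_map_eq_zero]
    intro d hd
    apply condK_zero hK
    intro j
    rw [← hL, hd]
    rfl
  obtain ⟨d, hd⟩ := (LinearMap.injective_iff_surjective.mp hinj) y
  exact ⟨d, fun j => by rw [← hL, hd]⟩

lemma condK_close {M0 M : Fin n → Fin n → ℝ} {K η ε : ℝ} (hK : CondK M K)
    (hη0 : 0 ≤ η) (hε0 : 0 ≤ ε) (hM : ∀ i j, |M i j - M0 i j| ≤ η) {d d0 : Fin n → ℝ} {Q : ℝ}
    (hQ : ∀ j, |d0 j| ≤ Q) (hQ0 : 0 ≤ Q) (h : ∀ i, |dt (M i) d - dt (M0 i) d0| ≤ ε) :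
    ∀ j, |d j - d0 j| ≤ K * (ε + n * η * Q) := by
  apply hK (fun j => d j - d0 j) _ (by positivity)
  intro i
  rw [dt_sub_right]
  have e : dt (M i) d - dt (M i) d0 = (dt (M i) d - dt (M0 i) d0)
      - dt (fun j => M i j - M0 i j) d0 := by rw [dt_sub_left]; ring
  rw [e]
  exact (abs_sub _ _).trans (add_le_add (h i) (abs_dt_le (hM i) hQ))

lemma abs_dt_sub_le {a a0 d d0 : Fin n → ℝ} {η ε P Q : ℝ} (hη : ∀ j, |a j - a0 j| ≤ η)
    (hε : ∀ j, |d j - d0 j| ≤ ε) (hP : ∀ j, |a0 j| ≤ P) (hQ : ∀ j, |d j| ≤ Q) :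
    |dt a d - dt a0 d0| ≤ n * η * Q + n * P * ε := by
  have e : dt a d - dt a0 d0 = dt (fun j => a j - a0 j) d + dt a0 (fun j => d j - d0 j) := by
    rw [dt_sub_left, dt_sub_right]; ring
  rw [e]
  exact (abs_add_le _ _).trans (add_le_add (abs_dt_le hη hQ) (abs_dt_le hP hε))

lemma abs_nsq_sub_le {d d0 : Fin n → ℝ} {ε Q : ℝ} (hε : ∀ j, |d j - d0 j| ≤ ε)
    (hQ : ∀ j, |d j| ≤ Q) (hQ0 : ∀ j, |d0 j| ≤ Q) : |nsq d - nsq d0| ≤ n * ε * (2 * Q) := by
  have e : nsq d - nsq d0 = ∑ j, (d j - d0 j) * (d j + d0 j) := by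
    rw [nsq, nsq, ← Finset.sum_sub_distrib]
    exact Finset.sum_congr rfl fun j _ => by ring
  rw [e]
  calc |∑ j, (d j - d0 j) * (d j + d0 j)| ≤ ∑ j, |(d j - d0 j) * (d j + d0 j)| :=
        Finset.abs_sum_le_sum_abs _ _
    _ ≤ ∑ _j : Fin n, ε * (2 * Q) := by
        apply Finset.sum_le_sum
        intro j _
        rw [abs_mul]
        refine mul_le_mul (hε j) ?_ (abs_nonneg _) (le_trans (abs_nonneg _) (hε j))
        exact (abs_add_le _ _).trans (by linarith [hQ j, hQ0 j])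
    _ = n * ε * (2 * Q) := by simp; ring

/-- Centre data of a vertex, with polynomial bound `H`. -/
structure GoodV (α0 : ι → Fin n → ℝ) (β0 : ι → ℝ) (H : ℝ) (t : Fin n → ι)
    (w0 : Fin n → ℝ) : Prop where
  inj : Function.Injective t
  hK : CondK (fun j => α0 (t j)) H
  hw : ∀ j, dt (α0 (t j)) w0 = β0 (t j)
  hwH : ∀ j, |w0 j| ≤ 1
  slack : ∀ i, i ∉ range t → dt (α0 i) w0 + 1 / H ≤ β0 i

/-- Centre data of the directions at a vertex. -/
structure GoodD (α0 : ι → Fin n → ℝ) (c0 : Fin n → ℝ) (t : Fin n → ι)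
    (D0 : Fin n → Fin n → ℝ) (pos : Fin n) : Prop where
  hD0 : ∀ p j, j ≠ p → dt (α0 (t j)) (D0 p) = 0
  hD1 : ∀ p, dt (α0 (t p)) (D0 p) = -1
  hX : 1 ≤ dt c0 (D0 pos)
  hY : ∀ p, p ≠ pos → dt c0 (D0 p) ≤ -1 ∨
    (dt c0 (D0 p)) ^ 2 * nsq (D0 pos) + 1 ≤ (dt c0 (D0 pos)) ^ 2 * nsq (D0 p)

/-- Global bounds relating the actual data to the centre data. -/
structure Near (α0 α : ι → Fin n → ℝ) (β0 β : ι → ℝ) (c0 c : Fin n → ℝ) (H η : ℝ) : Prop where
  hH : 2 ≤ H
  hn : (n : ℝ) ≤ H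
  hα0 : ∀ i j, |α0 i j| ≤ H
  hc0 : ∀ j, |c0 j| ≤ H
  hη0 : 0 ≤ η
  hη : η * H ^ 20 ≤ 1
  hα : ∀ i j, |α i j - α0 i j| ≤ η
  hβ : ∀ i, |β i - β0 i| ≤ η
  hc : ∀ j, |c j - c0 j| ≤ η

section robust

variable {α0 α : ι → Fin n → ℝ} {β0 β : ι → ℝ} {c0 c : Fin n → ℝ} {H η : ℝ}

lemma Near.small (h : Near α0 α β0 β c0 c H η) (k : ℕ) (hk : k ≤ 20) :
    η * H ^ k ≤ 1 / 2 ^ (20 - k) := by
  have hH := h.hH
  have h1 : (2:ℝ) ^ (20 - k) ≤ H ^ (20 - k) := pow_le_pow_left₀ (by norm_num) hH _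
  rw [le_div_iff₀ (by positivity)]
  calc η * H ^ k * 2 ^ (20 - k) ≤ η * H ^ k * H ^ (20 - k) := by
        apply mul_le_mul_of_nonneg_left h1
        have := h.hη0
        positivity
    _ = η * H ^ 20 := by rw [mul_assoc, ← pow_add]; congr 2; omega
    _ ≤ 1 := h.hη

lemma Near.condK (h : Near α0 α β0 β c0 c H η) {t : Fin n → ι}
    (hK : CondK (fun j => α0 (t j)) H) : CondK (fun j => α (t j)) (2 * H) := by
  have hH := h.hH
  refine condK_pert hK (by linarith) h.hη0 (fun i j => h.hα (t i) j) ?_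
  have h2 := h.small 2 (by norm_num)
  calc (n:ℝ) * H * η ≤ H * H * η := by
        apply mul_le_mul_of_nonneg_right _ h.hη0
        apply mul_le_mul_of_nonneg_right h.hn (by linarith)
    _ = η * H ^ 2 := by ring
    _ ≤ 1 / 2 ^ (20 - 2) := h2
    _ ≤ 1 / 2 := by norm_num

/-- The vertex persists under perturbation. -/
theorem GoodV.pert (h : Near α0 α β0 β c0 c H η) {t : Fin n → ι} {w0 : Fin n → ℝ}
    (g : GoodV α0 β0 H t w0) :
    ∃ w : Fin n → ℝ, (∀ j, dt (α (t j)) w = β (t j)) ∧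
      (∀ i, i ∉ range t → dt (α i) w < β i) ∧ (∀ j, |w j - w0 j| ≤ η * (4 * H ^ 2)) := by
  have hH := h.hH
  have hη0 := h.hη0
  have hK := h.condK g.hK
  obtain ⟨w, hw⟩ := condK_surj hK (fun j => β (t j))
  have hn0 : (0:ℝ) ≤ n := Nat.cast_nonneg n
  have hcl : ∀ j, |w j - w0 j| ≤ 2 * H * (η + n * η * 1) := by
    apply condK_close (M0 := fun j => α0 (t j)) hK hη0 hη0 (fun i j => h.hα (t i) j) g.hwH
      zero_le_one
    intro i
    rw [hw i, g.hw i]
    exact h.hβ (t i)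
  have hcl2 : ∀ j, |w j - w0 j| ≤ η * (4 * H ^ 2) := by
    intro j
    refine (hcl j).trans ?_
    have : 2 * H * (η + n * η * 1) ≤ 2 * H * (H * η + H * η * 1) := by
      apply mul_le_mul_of_nonneg_left _ (by linarith)
      have h1 : η ≤ H * η := by nlinarith
      have h2 : n * η * 1 ≤ H * η * 1 := by
        rw [mul_one, mul_one]
        exact mul_le_mul_of_nonneg_right h.hn hη0
      linarith
    linarith [this, (by ring : 2 * H * (H * η + H * η * 1) = η * (4 * H ^ 2))]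
  refine ⟨w, hw, ?_, hcl2⟩
  intro i hi
  have hs := g.slack i hi
  have hwb : ∀ j, |w j| ≤ 2 := by
    intro j
    have h1 := hcl2 j
    have h2 := h.small 2 (by norm_num)
    have h3 : η * (4 * H ^ 2) ≤ 1 := by nlinarith [h2, (by norm_num : (1:ℝ) / 2 ^ (20 - 2) ≤ 1 / 4)]
    have h4 := g.hwH j
    have : |w j| ≤ |w j - w0 j| + |w0 j| := by
      calc |w j| = |(w j - w0 j) + w0 j| := by ring_nf
        _ ≤ _ := abs_add_le _ _
    linarith
  have hd : |dt (α i) w - dt (α0 i) w0| ≤ n * η * 2 + n * H * (η * (4 * H ^ 2)) :=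
    abs_dt_sub_le (h.hα i) hcl2 (h.hα0 i) hwb
  have hb := h.hβ i
  have hbound : n * η * 2 + n * H * (η * (4 * H ^ 2)) + η ≤ η * (7 * H ^ 4) := by
    have h1 : (n:ℝ) * η * 2 ≤ H * η * 2 := by
      apply mul_le_mul_of_nonneg_right _ (by norm_num)
      exact mul_le_mul_of_nonneg_right h.hn hη0
    have h2 : (n:ℝ) * H * (η * (4 * H ^ 2)) ≤ H * H * (η * (4 * H ^ 2)) := by
      apply mul_le_mul_of_nonneg_right _ (by positivity)
      exact mul_le_mul_of_nonneg_right h.hn (by linarith)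
    have h3 : H ≤ H ^ 4 := by
      calc H = H ^ 1 := by ring
        _ ≤ H ^ 4 := pow_le_pow_right₀ (by linarith) (by norm_num)
    have h4 : (1:ℝ) ≤ H ^ 4 := one_le_pow₀ (by linarith)
    have h5 : H * η * 2 ≤ η * (2 * H ^ 4) := by nlinarith
    have h6 : η ≤ η * H ^ 4 := by nlinarith
    nlinarith
  have hsm : η * (7 * H ^ 4) < 1 / H := by
    rw [lt_div_iff₀ (by linarith)]
    have h2 := h.small 5 (by norm_num)
    calc η * (7 * H ^ 4) * H = 7 * (η * H ^ 5) := by ring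
      _ ≤ 7 * (1 / 2 ^ (20 - 5)) := by linarith
      _ < 1 := by norm_num
  have e1 := (abs_le.mp hd).2
  have e2 := (abs_le.mp hb).1
  linarith

/-- The directions persist under perturbation. -/
theorem GoodD.pert (h : Near α0 α β0 β c0 c H η) {t : Fin n → ι}
    (hK : CondK (fun j => α0 (t j)) H) {D0 : Fin n → Fin n → ℝ} {pos : Fin n}
    (g : GoodD α0 c0 t D0 pos) :
    ∃ D : Fin n → Fin n → ℝ, (∀ p j, j ≠ p → dt (α (t j)) (D p) = 0) ∧
      (∀ p, dt (α (t p)) (D p) < 0) ∧ 0 < dt c (D pos) ∧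
      ∀ p, p ≠ pos → dt c (D p) ≤ 0 ∨
        (dt c (D p)) ^ 2 * nsq (D pos) < (dt c (D pos)) ^ 2 * nsq (D p) := by
  have hH := h.hH
  have hη0 := h.hη0
  have hn0 : (0:ℝ) ≤ n := Nat.cast_nonneg n
  have hK' := h.condK hK
  have hex : ∀ p, ∃ d : Fin n → ℝ, ∀ j, dt (α (t j)) d = dt (α0 (t j)) (D0 p) :=
    fun p => condK_surj hK' (fun j => dt (α0 (t j)) (D0 p))
  choose D hD using hex
  have hD0H : ∀ p j, |D0 p j| ≤ H := by
    intro p j
    have := hK (D0 p) 1 zero_le_one ?_ j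
    · rwa [mul_one] at this
    · intro j'
      by_cases hj : j' = p
      · subst hj
        rw [g.hD1 j']; norm_num
      · rw [g.hD0 p j' hj]; norm_num
  have hcl : ∀ p j, |D p j - D0 p j| ≤ η * (2 * H ^ 3) := by
    intro p j
    have := condK_close (M0 := fun j => α0 (t j)) (d := D p) (d0 := D0 p) (ε := 0) hK' hη0 le_rfl
      (fun i j => h.hα (t i) j) (hD0H p) (by linarith)
      (fun i => by rw [hD p i, sub_self, abs_zero]) j
    refine this.trans ?_
    have h1 : (n:ℝ) * η * H ≤ H * η * H := by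
      apply mul_le_mul_of_nonneg_right _ (by linarith)
      exact mul_le_mul_of_nonneg_right h.hn hη0
    calc 2 * H * (0 + n * η * H) ≤ 2 * H * (0 + H * η * H) := by
          apply mul_le_mul_of_nonneg_left _ (by linarith)
          linarith
      _ = η * (2 * H ^ 3) := by ring
  have hsm3 : η * (2 * H ^ 3) ≤ 1 := by
    have h2 := h.small 3 (by norm_num)
    nlinarith [h2, (by norm_num : (1:ℝ) / 2 ^ (20 - 3) ≤ 1 / 2)]
  have hDH : ∀ p j, |D p j| ≤ 2 * H := by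
    intro p j
    have h1 := hcl p j
    have h4 := hD0H p j
    have : |D p j| ≤ |D p j - D0 p j| + |D0 p j| := by
      calc |D p j| = |(D p j - D0 p j) + D0 p j| := by ring_nf
        _ ≤ _ := abs_add_le _ _
    linarith
  -- errors of `c · D`
  have hXe : ∀ p, |dt c (D p) - dt c0 (D0 p)| ≤ η * (4 * H ^ 5) := by
    intro p
    have := abs_dt_sub_le h.hc (hcl p) h.hc0 (hDH p)
    refine this.trans ?_
    have h1 : (n:ℝ) * η * (2 * H) ≤ H * η * (2 * H) := by
      apply mul_le_mul_of_nonneg_right _ (by linarith)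
      exact mul_le_mul_of_nonneg_right h.hn hη0
    have h2 : (n:ℝ) * H * (η * (2 * H ^ 3)) ≤ H * H * (η * (2 * H ^ 3)) := by
      apply mul_le_mul_of_nonneg_right _ (by positivity)
      exact mul_le_mul_of_nonneg_right h.hn (by linarith)
    have h3 : H ^ 2 ≤ H ^ 5 := pow_le_pow_right₀ (by linarith) (by norm_num)
    have h4 : H * η * (2 * H) ≤ η * (2 * H ^ 5) := by nlinarith
    have h5 : H * H * (η * (2 * H ^ 3)) = η * (2 * H ^ 5) := by ring
    linarith
  have hNe : ∀ p, |nsq (D p) - nsq (D0 p)| ≤ η * (8 * H ^ 5) := by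
    intro p
    have := abs_nsq_sub_le (hcl p) (hDH p) (fun j => (hD0H p j).trans (by linarith))
    refine this.trans ?_
    calc (n:ℝ) * (η * (2 * H ^ 3)) * (2 * (2 * H)) ≤ H * (η * (2 * H ^ 3)) * (2 * (2 * H)) := by
          apply mul_le_mul_of_nonneg_right _ (by linarith)
          exact mul_le_mul_of_nonneg_right h.hn (by positivity)
      _ = η * (8 * H ^ 5) := by ring
  have hX0 : ∀ p, |dt c0 (D0 p)| ≤ H ^ 3 := by
    intro p
    refine (abs_dt_le h.hc0 (hD0H p)).trans ?_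
    calc (n:ℝ) * H * H ≤ H * H * H := by
          apply mul_le_mul_of_nonneg_right _ (by linarith)
          exact mul_le_mul_of_nonneg_right h.hn (by linarith)
      _ = H ^ 3 := by ring
  have hN0 : ∀ p, |nsq (D0 p)| ≤ H ^ 3 := by
    intro p
    have e : nsq (D0 p) = dt (D0 p) (D0 p) := by
      simp only [nsq, dt]
      exact Finset.sum_congr rfl fun j _ => by ring
    rw [e]
    refine (abs_dt_le (hD0H p) (hD0H p)).trans ?_
    calc (n:ℝ) * H * H ≤ H * H * H := by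
          apply mul_le_mul_of_nonneg_right _ (by linarith)
          exact mul_le_mul_of_nonneg_right h.hn (by linarith)
      _ = H ^ 3 := by ring
  have hs5 := h.small 5 (by norm_num)
  have hsm5 : η * (8 * H ^ 5) ≤ 1 / 2 := by
    nlinarith [hs5, (by norm_num : (1:ℝ) / 2 ^ (20 - 5) ≤ 1 / 16)]
  -- the product perturbation bound
  have hprod : ∀ p q, |(dt c (D p)) ^ 2 * nsq (D q) - (dt c0 (D0 p)) ^ 2 * nsq (D0 q)| < 1 / 2 := by
    intro p q
    set X := dt c (D p)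
    set X0 := dt c0 (D0 p)
    set N := nsq (D q)
    set N0 := nsq (D0 q)
    have a1 := hXe p
    have a2 := hNe q
    have a3 := hX0 p
    have a4 := hN0 q
    change |X - X0| ≤ _ at a1
    change |N - N0| ≤ _ at a2
    change |X0| ≤ _ at a3
    change |N0| ≤ _ at a4
    have hH3 : (1:ℝ) ≤ H ^ 3 := one_le_pow₀ (by linarith)
    have b1 : |X + X0| ≤ 3 * H ^ 3 := by
      have : |X + X0| ≤ |X - X0| + 2 * |X0| := by
        calc |X + X0| = |(X - X0) + 2 * X0| := by ring_nf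
          _ ≤ |X - X0| + |2 * X0| := abs_add_le _ _
          _ = |X - X0| + 2 * |X0| := by rw [abs_mul]; norm_num
      have : η * (4 * H ^ 5) ≤ 1 := by linarith
      linarith
    have b2 : |N| ≤ 2 * H ^ 3 := by
      have : |N| ≤ |N - N0| + |N0| := by
        calc |N| = |(N - N0) + N0| := by ring_nf
          _ ≤ _ := abs_add_le _ _
      linarith
    have e : X ^ 2 * N - X0 ^ 2 * N0 = (X - X0) * (X + X0) * N + X0 ^ 2 * (N - N0) := by ring
    rw [e]
    have c1 : |(X - X0) * (X + X0) * N| ≤ (η * (4 * H ^ 5)) * (3 * H ^ 3) * (2 * H ^ 3) := by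
      rw [abs_mul, abs_mul]
      have h0 : 0 ≤ η * (4 * H ^ 5) := by positivity
      have := mul_le_mul a1 b1 (abs_nonneg _) h0
      exact mul_le_mul this b2 (abs_nonneg _) (by positivity)
    have c2 : |X0 ^ 2 * (N - N0)| ≤ (H ^ 3) ^ 2 * (η * (8 * H ^ 5)) := by
      rw [abs_mul, abs_pow]
      exact mul_le_mul (pow_le_pow_left₀ (abs_nonneg _) a3 2) a2 (abs_nonneg _) (by positivity)
    have hs11 := h.small 11 (by norm_num)
    calc |(X - X0) * (X + X0) * N + X0 ^ 2 * (N - N0)|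
        ≤ |(X - X0) * (X + X0) * N| + |X0 ^ 2 * (N - N0)| := abs_add_le _ _
      _ ≤ (η * (4 * H ^ 5)) * (3 * H ^ 3) * (2 * H ^ 3) + (H ^ 3) ^ 2 * (η * (8 * H ^ 5)) :=
          add_le_add c1 c2
      _ = 32 * (η * H ^ 11) := by ring
      _ ≤ 32 * (1 / 2 ^ (20 - 11)) := by linarith
      _ < 1 / 2 := by norm_num
  refine ⟨D, fun p j hj => by rw [hD p j, g.hD0 p j hj],
    fun p => by rw [hD p p, g.hD1 p]; norm_num, ?_, ?_⟩
  · have := (abs_le.mp (hXe pos)).1
    have h2 := g.hX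
    have : η * (4 * H ^ 5) ≤ 1 / 2 := by
      have : (0:ℝ) ≤ η * H ^ 5 := by positivity
      nlinarith
    linarith
  · intro p hp
    rcases g.hY p hp with hneg | hlt
    · left
      have := (abs_le.mp (hXe p)).2
      have : η * (4 * H ^ 5) ≤ 1 / 2 := by
        have : (0:ℝ) ≤ η * H ^ 5 := by positivity
        nlinarith
      linarith
    · right
      have d1 := (abs_lt.mp (hprod p pos)).2
      have d2 := (abs_lt.mp (hprod pos p)).1
      linarith

end robust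

end Pool.Agent.MP42
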