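import Pool.Agent.MP_42ca66_lc.States
import Pool.Agent.MP_42ca66_lc.Trans

/-!
The robustly small shadow.
-/

namespace Pool.Agent.MP42

open Set

variable {ι : Type} {n : ℕ}

lemma convex_poly (A : ι → Fin n → ℝ) : Convex ℝ (poly A) := by
  intro x hx y hy a b ha hb hab i
  rw [dotE_add, dotE_smul, dotE_smul]
  have h1 := hx i
  have h2 := hy i
  nlinarith

lemma inner_toLp (z : Fin n → ℝ) (x : E n) : inner ℝ (WithLp.toLp 2 z : E n) x = dotE z x := by
  rw [PiLp.inner_apply]
  simp only [dotE]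
  apply Finset.sum_congr rfl
  intro j _
  simp [mul_comm]

/-- If in the plane coordinates everything lies in a triangle spanned by three points of `Q`, then
the shadow has at most three vertices. -/
theorem shadow_le_three {A : ι → Fin n → ℝ} {z c : Fin n → ℝ} {v va vb : E n}
    (hv : v ∈ poly A) (hva : va ∈ poly A) (hvb : vb ∈ poly A)
    (h : ∀ y ∈ poly A, ∃ a b d : ℝ, 0 ≤ a ∧ 0 ≤ b ∧ 0 ≤ d ∧ a + b + d = 1 ∧
      dotE z y = a * dotE z v + b * dotE z va + d * dotE z vb ∧
      dotE c y = a * dotE c v + b * dotE c va + d * dotE c vb) :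
    shadowSize A z c ≤ 3 := by
  set K : Submodule ℝ (E n) := Submodule.span ℝ {WithLp.toLp 2 z, WithLp.toLp 2 c} with hK
  set S : Set (E n) := {K.starProjection v, K.starProjection va, K.starProjection vb} with hS
  have hsub : K.starProjection '' poly A = convexHull ℝ S := by
    apply Subset.antisymm
    · rintro _ ⟨y, hy, rfl⟩
      obtain ⟨a, b, d, ha, hb, hd, hsum, hz, hc⟩ := h y hy
      have hu : K.starProjection (y - (a • v + b • va + d • vb)) = 0 := by
        rw [Submodule.starProjection_apply_eq_zero_iff, Submodule.mem_orthogonal]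
        intro w hw
        induction hw using Submodule.span_induction with
        | mem w hw =>
          rcases hw with rfl | rfl
          · rw [inner_toLp, dotE_sub, dotE_add, dotE_add, dotE_smul, dotE_smul, dotE_smul, hz,
              sub_self]
          · rw [inner_toLp, dotE_sub, dotE_add, dotE_add, dotE_smul, dotE_smul, dotE_smul, hc,
              sub_self]
        | zero => exact inner_zero_left _
        | add x y _ _ hx hy => rw [inner_add_left, hx, hy, add_zero]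
        | smul r x _ hx => rw [inner_smul_left, hx, mul_zero]
      rw [map_sub, sub_eq_zero] at hu
      rw [hu, map_add, map_add, map_smul, map_smul, map_smul]
      have m1 : K.starProjection v ∈ convexHull ℝ S := subset_convexHull ℝ S (by simp [hS])
      have m2 : K.starProjection va ∈ convexHull ℝ S := subset_convexHull ℝ S (by simp [hS])
      have m3 : K.starProjection vb ∈ convexHull ℝ S := subset_convexHull ℝ S (by simp [hS])
      have hconv : Convex ℝ (convexHull ℝ S) := convex_convexHull ℝ S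
      have := hconv.sum_mem (t := Finset.univ) (w := ![a, b, d])
        (z := ![K.starProjection v, K.starProjection va, K.starProjection vb]) ?_ ?_ ?_
      · simpa [Fin.sum_univ_three] using this
      · intro i _
        fin_cases i
        · exact ha
        · exact hb
        · exact hd
      · simp [Fin.sum_univ_three, hsum]
      · intro i _
        fin_cases i
        · exact m1
        · exact m2
        · exact m3
    · apply convexHull_min
      · rintro w (rfl | rfl | rfl)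
        · exact ⟨v, hv, rfl⟩
        · exact ⟨va, hva, rfl⟩
        · exact ⟨vb, hvb, rfl⟩
      · exact (convex_poly A).linear_image (K.starProjection : E n →ₗ[ℝ] E n)
  change ((K.starProjection '' poly A).extremePoints ℝ).encard ≤ 3
  rw [hsub]
  calc ((convexHull ℝ S).extremePoints ℝ).encard ≤ S.encard :=
        encard_le_encard extremePoints_convexHull_subset
    _ ≤ 3 := by
      rw [hS]
      refine (encard_insert_le _ _).trans ?_
      refine (add_le_add_left (encard_insert_le _ _) 1).trans ?_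
      rw [encard_singleton]
      norm_num

/-! ### Numerics -/

lemma det_ab {P Za Ca Zb Cb : ℝ} (hP : 8 ≤ P) (h1 : |Za - -1| ≤ 1 / 1000)
    (h2 : |Ca - (3 * P + 1)| ≤ 1 / 1000) (h3 : |Zb - -2048| ≤ 1 / 1000)
    (h4 : |Cb - 4 * P| ≤ 1 / 1000) : 6100 * P ≤ Za * Cb - Ca * Zb := by
  rw [abs_le] at *
  have e1 : -(1001 / 1000) * Cb ≤ Za * Cb :=
    mul_le_mul_of_nonneg_right (by linarith) (by linarith)
  have e2 : Ca * (2048 - 1 / 1000) ≤ Ca * (-Zb) :=
    mul_le_mul_of_nonneg_left (by linarith) (by linarith)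
  nlinarith

lemma dets_mid {P L Za Ca sa Zb Cb sb Zj Cj sj : ℝ} (hP : 8 ≤ P) (hL0 : 0 ≤ L) (hL : L ≤ P)
    (h1 : |Za - -1| ≤ 1 / 1000) (h2 : |Ca - (3 * P + 1)| ≤ 1 / 1000)
    (h2' : |sa - 1| ≤ 1 / 1000) (h3 : |Zb - -2048| ≤ 1 / 1000)
    (h4 : |Cb - 4 * P| ≤ 1 / 1000) (h4' : |sb - 512| ≤ 1 / 1000)
    (h5 : |Zj - -512| ≤ 1 / 1000) (h6 : |Cj - (4 * P - L)| ≤ 1 / 1000)
    (h7 : |sj - 512| ≤ 1 / 1000) :
    0 ≤ Zj * Cb - Cj * Zb ∧ 0 ≤ Za * Cj - Ca * Zj ∧
      (Zj * Cb - Cj * Zb) * sa + (Za * Cj - Ca * Zj) * sb ≤ (Za * Cb - Ca * Zb) * sj := by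
  have hab := det_ab hP h1 h2 h3 h4
  rw [abs_le] at *
  have a1 : -(512 + 1 / 1000) * Cb ≤ Zj * Cb :=
    mul_le_mul_of_nonneg_right (by linarith) (by linarith)
  have a2 : Cj * (2048 - 1 / 1000) ≤ Cj * (-Zb) :=
    mul_le_mul_of_nonneg_left (by linarith) (by linarith)
  have a3 : Zj * Cb ≤ -(512 - 1 / 1000) * Cb :=
    mul_le_mul_of_nonneg_right (by linarith) (by linarith)
  have a4 : Cj * (-Zb) ≤ Cj * (2048 + 1 / 1000) :=
    mul_le_mul_of_nonneg_left (by linarith) (by linarith)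
  have b1 : -(1 + 1 / 1000) * Cj ≤ Za * Cj :=
    mul_le_mul_of_nonneg_right (by linarith) (by linarith)
  have b2 : Ca * (512 - 1 / 1000) ≤ Ca * (-Zj) :=
    mul_le_mul_of_nonneg_left (by linarith) (by linarith)
  have b3 : Za * Cj ≤ 0 := mul_nonpos_of_nonpos_of_nonneg (by linarith) (by linarith)
  have b4 : Ca * (-Zj) ≤ Ca * (512 + 1 / 1000) :=
    mul_le_mul_of_nonneg_left (by linarith) (by linarith)
  have c1 : 0 ≤ Zj * Cb - Cj * Zb := by nlinarith
  have c2 : 0 ≤ Za * Cj - Ca * Zj := by nlinarith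
  have d1 : Zj * Cb - Cj * Zb ≤ 6300 * P := by nlinarith
  have d2 : Za * Cj - Ca * Zj ≤ 1610 * P := by nlinarith
  refine ⟨c1, c2, ?_⟩
  have f1 : (Zj * Cb - Cj * Zb) * sa ≤ 6300 * P * (1 + 1 / 1000) :=
    mul_le_mul d1 (by linarith) (by linarith) (by linarith)
  have f2 : (Za * Cj - Ca * Zj) * sb ≤ 1610 * P * (512 + 1 / 1000) :=
    mul_le_mul d2 (by linarith) (by linarith) (by linarith)
  have f3 : 6100 * P * (512 - 1 / 1000) ≤ (Za * Cb - Ca * Zb) * sj :=
    mul_le_mul hab (by linarith) (by linarith) (by linarith)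
  linarith

lemma dets_top {P Za Ca sa Zb Cb sb Zj Cj sj : ℝ} (hP : 8 ≤ P)
    (h1 : |Za - -1| ≤ 1 / 1000) (h2 : |Ca - (3 * P + 1)| ≤ 1 / 1000)
    (h2' : |sa - 1| ≤ 1 / 1000) (h3 : |Zb - -2048| ≤ 1 / 1000)
    (h4 : |Cb - 4 * P| ≤ 1 / 1000) (h4' : |sb - 512| ≤ 1 / 1000)
    (h5 : |Zj - -6| ≤ 1 / 1000) (h6 : |Cj - (9 * P + 3)| ≤ 1 / 1000)
    (h7 : |sj - 6| ≤ 1 / 1000) :
    0 ≤ Zj * Cb - Cj * Zb ∧ 0 ≤ Za * Cj - Ca * Zj ∧
      (Zj * Cb - Cj * Zb) * sa + (Za * Cj - Ca * Zj) * sb ≤ (Za * Cb - Ca * Zb) * sj := by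
  have hab := det_ab hP h1 h2 h3 h4
  rw [abs_le] at *
  have a1 : -(6 + 1 / 1000) * Cb ≤ Zj * Cb :=
    mul_le_mul_of_nonneg_right (by linarith) (by linarith)
  have a2 : Cj * (2048 - 1 / 1000) ≤ Cj * (-Zb) :=
    mul_le_mul_of_nonneg_left (by linarith) (by linarith)
  have a3 : Zj * Cb ≤ 0 := mul_nonpos_of_nonpos_of_nonneg (by linarith) (by linarith)
  have a4 : Cj * (-Zb) ≤ Cj * (2048 + 1 / 1000) :=
    mul_le_mul_of_nonneg_left (by linarith) (by linarith)
  have b1 : -(1 + 1 / 1000) * Cj ≤ Za * Cj :=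
    mul_le_mul_of_nonneg_right (by linarith) (by linarith)
  have b2 : Ca * (6 - 1 / 1000) ≤ Ca * (-Zj) :=
    mul_le_mul_of_nonneg_left (by linarith) (by linarith)
  have b3 : Za * Cj ≤ -(1 - 1 / 1000) * Cj :=
    mul_le_mul_of_nonneg_right (by linarith) (by linarith)
  have b4 : Ca * (-Zj) ≤ Ca * (6 + 1 / 1000) :=
    mul_le_mul_of_nonneg_left (by linarith) (by linarith)
  have c1 : 0 ≤ Zj * Cb - Cj * Zb := by nlinarith
  have c2 : 0 ≤ Za * Cj - Ca * Zj := by nlinarith
  have d1 : Zj * Cb - Cj * Zb ≤ 19300 * P := by nlinarith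
  have d2 : Za * Cj - Ca * Zj ≤ 10 * P := by nlinarith
  refine ⟨c1, c2, ?_⟩
  have f1 : (Zj * Cb - Cj * Zb) * sa ≤ 19300 * P * (1 + 1 / 1000) :=
    mul_le_mul d1 (by linarith) (by linarith) (by linarith)
  have f2 : (Za * Cj - Ca * Zj) * sb ≤ 10 * P * (512 + 1 / 1000) :=
    mul_le_mul d2 (by linarith) (by linarith) (by linarith)
  have f3 : 6100 * P * (6 - 1 / 1000) ≤ (Za * Cb - Ca * Zb) * sj :=
    mul_le_mul hab (by linarith) (by linarith) (by linarith)
  linarith

end Pool.Agent.MP42
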