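import Pool.Agent.MP_42ca66_lc.Center

/-!
The centre data satisfies the hypotheses of the robust path theorem.
-/

namespace Pool.Agent.MP42

open Finset

/-- The global bound. -/
noncomputable def Hb (p : ℕ) : ℝ := (512 * p) ^ (p + 2)

section bounds

variable {p : ℕ}

lemma Hb_big (hp : 8 ≤ p) : (1:ℝ) ≤ Hb p ∧ (3 * p + 2) * (64 * p + 1) ^ p ≤ Hb p ∧
    1024 * (256 * p) ^ p ≤ Hb p := by
  have hp' : (8:ℝ) ≤ p := by exact_mod_cast hp
  have e : Hb p = (512 * p) ^ p * (512 * p) ^ 2 := by rw [Hb, pow_add]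
  have h1 : (64 * (p:ℝ) + 1) ^ p ≤ (512 * p) ^ p := pow_le_pow_left₀ (by linarith) (by linarith) _
  have h2 : (256 * (p:ℝ)) ^ p ≤ (512 * p) ^ p := pow_le_pow_left₀ (by linarith) (by linarith) _
  have h3 : (1:ℝ) ≤ (512 * p) ^ p := one_le_pow₀ (by linarith)
  have h4 : (1:ℝ) ≤ (512 * p) ^ 2 := one_le_pow₀ (by linarith)
  have h5 : 3 * (p:ℝ) + 2 ≤ (512 * p) ^ 2 := by nlinarith
  have h6 : (1024:ℝ) ≤ (512 * p) ^ 2 := by nlinarith
  rw [e]
  refine ⟨by nlinarith, ?_, ?_⟩
  · rw [mul_comm]
    exact mul_le_mul h1 h5 (by linarith) (by linarith)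
  · rw [mul_comm]
    exact mul_le_mul h2 h6 (by norm_num) (by linarith)

lemma condK_mono {n : ℕ} {M : Fin n → Fin n → ℝ} {K K' : ℝ} (h : CondK M K) (hK : K ≤ K') :
    CondK M K' := by
  intro d R hR hd j
  exact (h d R hR hd j).trans (mul_le_mul_of_nonneg_right hK hR)

lemma condK_stS (hp : 8 ≤ p) : CondK (fun j => al0 p (stS p j)) (Hb p) := by
  refine condK_mono (K := 1) ?_ (Hb_big hp).1
  intro d R hR hd
  obtain ⟨a, g, rfl⟩ := exists_vec p d
  have h0 := hd 0
  intro j
  refine Fin.cases ?_ (fun l => ?_) j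
  · rw [vec_zero, one_mul]
    have e : dt (al0 p (stS p 0)) (vec p a g) = a := dt_top a g
    rwa [e] at h0
  · have hl := hd l.succ
    have e : dt (al0 p (stS p l.succ)) (vec p a g) = -g l := dt_lower l a g
    rw [e, abs_neg] at hl
    rw [vec_succ, one_mul]
    exact hl

lemma condK_stU (hp : 8 ≤ p) (u : ℕ → Bool) : CondK (fun j => al0 p (stU p u j)) (Hb p) := by
  have hp' : (8:ℝ) ≤ p := by exact_mod_cast hp
  intro d R hR hd
  obtain ⟨a, g, rfl⟩ := exists_vec p d
  have h0 : |a| ≤ R := by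
    have h0 := hd 0
    have e : dt (al0 p (stU p u 0)) (vec p a g) = -a := dt_bottom a g
    rwa [e, abs_neg] at h0
  have hstep : ∀ l < p, |g l| ≤ (3 * p + 2) * R + 64 * p * |∑ k ∈ range l, g k| := by
    intro l hl
    have h1 := hd (Fin.succ ⟨l, hl⟩)
    have hS : 0 ≤ 64 * p * |∑ k ∈ range l, g k| := by positivity
    have hR' : R ≤ (3 * p + 2) * R := by nlinarith
    cases hu : u l
    · have e : dt (al0 p (stU p u (Fin.succ ⟨l, hl⟩))) (vec p a g) = -g l := by
        simp only [stU, Fin.cons_succ, hu, Bool.false_eq_true, if_false]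
        exact dt_lower ⟨l, hl⟩ a g
      rw [e, abs_neg] at h1
      linarith
    · have e : dt (al0 p (stU p u (Fin.succ ⟨l, hl⟩))) (vec p a g)
          = -(3 * p + 1) * a + (g l + 64 * p * ∑ k ∈ range l, g k) := by
        simp only [stU, Fin.cons_succ, hu, if_true]
        exact dt_upper ⟨l, hl⟩ a g
      rw [e] at h1
      have e2 : g l = (-(3 * p + 1) * a + (g l + 64 * p * ∑ k ∈ range l, g k))
          + (3 * p + 1) * a - 64 * p * ∑ k ∈ range l, g k := by ring
      have e3 : |(3 * (p:ℝ) + 1) * a| ≤ (3 * p + 1) * R := by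
        rw [abs_mul, abs_of_pos (by linarith : (0:ℝ) < 3 * p + 1)]
        exact mul_le_mul_of_nonneg_left h0 (by linarith)
      have e4 : |64 * (p:ℝ) * ∑ k ∈ range l, g k| = 64 * p * |∑ k ∈ range l, g k| := by
        rw [abs_mul, abs_of_pos (by linarith : (0:ℝ) < 64 * p)]
      rw [e2]
      refine (abs_sub _ _).trans ?_
      rw [e4]
      refine add_le_add_left ((abs_add_le _ _).trans ?_) _
      linarith
  have hS : ∀ l ≤ p, 64 * p * |∑ k ∈ range l, g k| ≤ (3 * p + 2) * ((64 * p + 1) ^ l - 1) * R := by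
    intro l
    induction l with
    | zero => simp
    | succ l ih =>
      intro hl
      have h1 := ih (by omega)
      have h2 := hstep l (by omega)
      rw [sum_range_succ]
      have h3 : |∑ k ∈ range l, g k + g l| ≤ |∑ k ∈ range l, g k| + |g l| := abs_add_le _ _
      have h4 : 64 * p * |∑ k ∈ range l, g k + g l|
          ≤ 64 * p * |∑ k ∈ range l, g k| + 64 * p * ((3 * p + 2) * R
            + 64 * p * |∑ k ∈ range l, g k|) := by
        have : 64 * (p:ℝ) * |∑ k ∈ range l, g k + g l|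
            ≤ 64 * p * (|∑ k ∈ range l, g k| + |g l|) :=
          mul_le_mul_of_nonneg_left h3 (by linarith)
        have h5 : 64 * (p:ℝ) * |g l| ≤ 64 * p * ((3 * p + 2) * R
            + 64 * p * |∑ k ∈ range l, g k|) := mul_le_mul_of_nonneg_left h2 (by linarith)
        linarith
      refine h4.trans ?_
      rw [pow_succ]
      nlinarith
  have hg : ∀ l < p, |g l| ≤ (3 * p + 2) * (64 * p + 1) ^ p * R := by
    intro l hl
    have h1 := hstep l hl
    have h2 := hS l hl.le
    have h3 : (64 * (p:ℝ) + 1) ^ l ≤ (64 * p + 1) ^ p :=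
      pow_le_pow_right₀ (by linarith) hl.le
    have h4 : (3 * p + 2) * (64 * (p:ℝ) + 1) ^ l * R ≤ (3 * p + 2) * (64 * p + 1) ^ p * R := by
      apply mul_le_mul_of_nonneg_right _ hR
      exact mul_le_mul_of_nonneg_left h3 (by linarith)
    linarith
  obtain ⟨b1, b2, -⟩ := Hb_big hp
  intro j
  refine Fin.cases ?_ (fun l => ?_) j
  · rw [vec_zero]
    nlinarith
  · rw [vec_succ]
    exact (hg l l.2).trans (mul_le_mul_of_nonneg_right b2 hR)

end bounds

section goodV

variable {p : ℕ}

lemma zt_pos (hp : 8 ≤ p) : 0 < zt p := by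
  have hp' : (8:ℝ) ≤ p := by exact_mod_cast hp
  unfold zt
  positivity

lemma zt_H (hp : 8 ≤ p) : 1 / Hb p ≤ zt p / 2 := by
  have hp' : (8:ℝ) ≤ p := by exact_mod_cast hp
  obtain ⟨b1, b2, b3⟩ := Hb_big hp
  have e : zt p / 2 = 1 / (1024 * (256 * p) ^ p) := by
    unfold zt
    field_simp
    norm_num
  rw [e]
  exact one_div_le_one_div_of_le (by positivity) b3

lemma zt_small (hp : 8 ≤ p) {j : ℕ} (hj : j ≤ p) : 512 * (zt p * (256 * p) ^ j) ≤ 1 := by
  have hp' : (8:ℝ) ≤ p := by exact_mod_cast hp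
  have h1 : (256 * (p:ℝ)) ^ j ≤ (256 * p) ^ p := pow_le_pow_right₀ (by linarith) hj
  have h2 : (0:ℝ) < (256 * p) ^ p := by positivity
  unfold zt
  have : 512 * (1 / (512 * (256 * (p:ℝ)) ^ p) * (256 * p) ^ j)
      = (256 * p) ^ j / (256 * p) ^ p := by
    field_simp
  rw [this, div_le_one h2]
  exact h1

lemma H_le_one (hp : 8 ≤ p) : 1 / Hb p ≤ 1 := by
  have := (Hb_big hp).1
  rw [div_le_one (by linarith)]
  exact this

theorem goodV_S (hp : 8 ≤ p) : GoodV (al0 p) (be0 p) (Hb p) (stS p) (vec p 1 0) where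
  inj := stS_inj p
  hK := condK_stS hp
  hw := by
    intro j
    refine Fin.cases ?_ (fun l => ?_) j
    · exact dt_top 1 0
    · have : dt (al0 p (stS p l.succ)) (vec p 1 0) = -(0 : ℕ → ℝ) l := dt_lower l 1 0
      rw [this]
      simp [stS, be0]
  hwH := by
    intro j
    refine Fin.cases ?_ (fun l => ?_) j
    · rw [vec_zero]; simp
    · rw [vec_succ]; simp
  slack := by
    have hp' : (8:ℝ) ≤ p := by exact_mod_cast hp
    have hH := H_le_one hp
    intro i hi
    rcases i with (l | j) | k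
    · exact absurd ⟨l.succ, rfl⟩ hi
    · rw [dt_upper]
      have : 0 < be0 p (.inl (.inr j)) := by
        have := zt_pos hp
        simp only [be0]
        positivity
      simp only [Pi.zero_apply, sum_const_zero]
      linarith
    · fin_cases k
      · change dt (al0 p (.inr 0)) _ + _ ≤ be0 p (.inr 0)
        rw [dt_bottom]
        simp only [be0, if_true]
        linarith
      · exact absurd ⟨0, rfl⟩ hi
      · change dt (al0 p (.inr 2)) _ + _ ≤ be0 p (.inr 2)
        rw [dt_side (by omega)]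
        have e : be0 p (.inr 2) = 6 := by simp [be0]
        rw [e]
        simp only [Pi.zero_apply, sum_const_zero]
        linarith

theorem goodV_U (hp : 8 ≤ p) (u : ℕ → Bool) :
    GoodV (al0 p) (be0 p) (Hb p) (stU p u) (vec p 0 (fun l => zt p * Yv p u l)) where
  inj := stU_inj p u
  hK := condK_stU hp u
  hw := by
    intro j
    refine Fin.cases ?_ (fun l => ?_) j
    · have : dt (al0 p (stU p u 0)) (vec p 0 (fun l => zt p * Yv p u l)) = -0 := dt_bottom 0 _
      rw [this]
      simp [stU, be0]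
    · cases hu : u l
      · have hst : stU p u l.succ = .inl (.inl l) := by simp [stU, hu]
        rw [hst, dt_lower, Yv, if_neg (by simp [hu])]
        simp [be0]
      · have hst : stU p u l.succ = .inl (.inr l) := by simp [stU, hu]
        rw [hst, dt_upper, ← mul_sum, sum_Yv, Yv, if_pos hu]
        simp only [be0]
        ring
  hwH := by
    have hp' : (8:ℝ) ≤ p := by exact_mod_cast hp
    intro j
    refine Fin.cases ?_ (fun l => ?_) j
    · rw [vec_zero]; simp
    · rw [vec_succ]
      obtain ⟨y1, y2, -⟩ := Yv_bound (p := p) (by omega) u l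
      have hz := zt_pos hp
      rw [abs_of_nonneg (mul_nonneg hz.le y1)]
      have h1 := zt_small hp (l.2.le)
      have h2 : zt p * Yv p u l ≤ zt p * (256 * p) ^ (l : ℕ) :=
        mul_le_mul_of_nonneg_left y2 hz.le
      have h3 : 0 ≤ zt p * (256 * (p:ℝ)) ^ (l : ℕ) := by positivity
      linarith
  slack := by
    have hp' : (8:ℝ) ≤ p := by exact_mod_cast hp
    have hH := H_le_one hp
    have hz := zt_pos hp
    have hzH := zt_H hp
    intro i hi
    rcases i with (l | j) | k
    · have hu : u l = true := by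
        by_contra hu
        apply hi
        exact ⟨l.succ, by simp [stU, hu]⟩
      obtain ⟨y1, y2, y3⟩ := Yv_bound (p := p) (by omega) u l
      have h1 : (1:ℝ) ≤ (256 * p) ^ (l : ℕ) := one_le_pow₀ (by linarith)
      have h2 := y3 hu
      rw [dt_lower]
      have e : be0 p (.inl (.inl l)) = 0 := rfl
      rw [e]
      nlinarith
    · have hu : u j = false := by
        by_contra hu
        apply hi
        exact ⟨j.succ, by simp [stU, hu]⟩
      obtain ⟨s1, s2⟩ := Sv_bound (p := p) (by omega) u j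
      have h1 : (1:ℝ) ≤ (256 * p) ^ (j : ℕ) := one_le_pow₀ (by linarith)
      rw [dt_upper, ← mul_sum, sum_Yv, Yv, if_neg (by simp [hu])]
      have e : be0 p (.inl (.inr j)) = zt p * (256 * p) ^ (j : ℕ) := rfl
      rw [e]
      nlinarith
    · fin_cases k
      · exact absurd ⟨0, rfl⟩ hi
      · change dt (al0 p (.inr 1)) _ + _ ≤ be0 p (.inr 1)
        rw [dt_top]
        have e : be0 p (.inr 1) = 1 := by simp [be0]
        rw [e]
        linarith
      · change dt (al0 p (.inr 2)) _ + _ ≤ be0 p (.inr 2)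
        rw [dt_side (by omega), ← mul_sum, sum_Yv]
        have e : be0 p (.inr 2) = 6 := by simp [be0]
        rw [e]
        obtain ⟨s1, s2⟩ := Sv_bound (p := p) (by omega) u (p - 1)
        obtain ⟨y1, y2, -⟩ := Yv_bound (p := p) (by omega) u (p - 1)
        have h1 := zt_small hp (by omega : p - 1 ≤ p)
        have h2 : Sv p u (p - 1) ≤ (256 * p) ^ (p - 1) := by nlinarith
        have h3 : zt p * Sv p u (p - 1) ≤ zt p * (256 * p) ^ (p - 1) :=
          mul_le_mul_of_nonneg_left h2 hz.le
        have h4 : zt p * Yv p u (p - 1) ≤ zt p * (256 * p) ^ (p - 1) :=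
          mul_le_mul_of_nonneg_left y2 hz.le
        linarith

end goodV

end Pool.Agent.MP42
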